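import Mathlib

set_option autoImplicit false

namespace Pool.Agent.P.MP_119182_lc

/-- Binary trees with natural-number keys. -/
inductive BT where
  | nil : BT
  | node : BT → ℕ → BT → BT

/-- The keys of a tree in symmetric order (in-order traversal). -/
def BT.keys : BT → List ℕ
  | BT.nil => []
  | BT.node l k r => l.keys ++ k :: r.keys

/-- One proper ancestor on a search path, together with its subtree off the path.
`lft a y`: ancestor `y` with left subtree `a`; the path goes on to the right of `y`.
`rgt y b`: ancestor `y` with right subtree `b`; the path goes on to the left of `y`. -/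
inductive Fr where
  | lft : BT → ℕ → Fr
  | rgt : ℕ → BT → Fr

/-- Walk down to the node holding `x`: return its two subtrees and the list of its ancestors,
parent first. -/
def find (x : ℕ) : BT → List Fr → Option (BT × BT × List Fr)
  | BT.nil, _ => none
  | BT.node l k r, π =>
    if x < k then find x l (Fr.rgt k r :: π)
    else if k < x then find x r (Fr.lft l k :: π)
    else some (l, r, π)

/-- Bottom-up splaying of the node `x` with subtrees `l`, `r` and ancestors `π` (parent first):
zig (last step, parent is the root), zig-zig and zig-zag steps of Sleator and Tarjan. -/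
def splayUp (x : ℕ) : BT → BT → List Fr → BT
  | l, r, [] => BT.node l x r
  | l, r, [Fr.lft a p] => BT.node (BT.node a p l) x r
  | l, r, [Fr.rgt p b] => BT.node l x (BT.node r p b)
  | l, r, Fr.rgt p b :: Fr.rgt g c :: π => splayUp x l (BT.node r p (BT.node b g c)) π
  | l, r, Fr.lft b p :: Fr.lft a g :: π => splayUp x (BT.node (BT.node a g b) p l) r π
  | l, r, Fr.rgt p b :: Fr.lft a g :: π => splayUp x (BT.node a g l) (BT.node r p b) π
  | l, r, Fr.lft a p :: Fr.rgt g c :: π => splayUp x (BT.node a p l) (BT.node r g c) π

/-- Access `x`: the new tree, and the number of nodes on the search path (depth of `x` plus one). -/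
def access (T : BT) (x : ℕ) : BT × ℕ :=
  match find x T [] with
  | some (l, r, π) => (splayUp x l r π, π.length + 1)
  | none => (T, 0)

/-- Total cost of the splay tree started at `T` on an access sequence. -/
def cost : BT → List ℕ → ℕ
  | _, [] => 0
  | T, x :: A => (access T x).2 + cost (access T x).1 A

end Pool.Agent.P.MP_119182_lc
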