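import Mathlib

set_option autoImplicit false

namespace Pool.Agent.P.MP_119182_lc

/-- Accesses are `a 0, a 1, …`. The last time before `i` at which `y` was accessed; the first
time `0` if there is none. -/
def lastIdx (a : ℕ → ℕ) (i y : ℕ) : ℕ :=
  ((Finset.range i).filter fun s => a s = y).sup id

/-- The number of distinct keys accessed after time `lastIdx a i y`, up to and including time
`i`. -/
def wset (a : ℕ → ℕ) (i y : ℕ) : ℕ :=
  ((Finset.Ioc (lastIdx a i y) i).image a).card

/-- The unified bound of the access sequence `a 0, …, a (m - 1)` on the keys `1, …, n`. -/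
noncomputable def unified (n m : ℕ) (a : ℕ → ℕ) : ℝ :=
  ∑ i ∈ Finset.range m,
    sInf ((fun j : ℕ => max 1 (Real.logb 2 ((wset a i j : ℝ) + |(a i : ℝ) - (j : ℝ)|))) ''
      Set.Icc 1 n)

end Pool.Agent.P.MP_119182_lc
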