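import Pool.Agent.P.MP_119182_lc.Struct

/-! A block potential for splaying: all steps are paid except links between blocks. -/

set_option autoImplicit false

namespace Pool.Agent.P.MP_119182_lc.Blk

open Finset

/-- The number of scales `2 ^ j`, `j ≤ β`, at which `a` and `b` lie in different cells. -/
def dd : ℕ → ℕ → ℕ → ℕ
  | 0, a, b => if a = b then 0 else 1
  | β + 1, a, b => if a = b then 0 else dd β (a / 2) (b / 2) + 1

theorem dd_zero : ∀ β a b : ℕ, dd β a b = 0 ↔ a = b
  | 0, a, b => by unfold dd; split_ifs <;> simp [*]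
  | β + 1, a, b => by unfold dd; split_ifs <;> simp [*]

theorem dd_le : ∀ β a b : ℕ, dd β a b ≤ β + 1
  | 0, a, b => by unfold dd; split_ifs <;> omega
  | β + 1, a, b => by
    have := dd_le β (a / 2) (b / 2)
    unfold dd; split_ifs <;> omega

theorem dd_top : ∀ β a b : ℕ, dd β a b = β + 1 ↔ a / 2 ^ β ≠ b / 2 ^ β
  | 0, a, b => by unfold dd; split_ifs <;> simp [*]
  | β + 1, a, b => by
    have := dd_top β (a / 2) (b / 2)
    rw [Nat.div_div_eq_div_mul, Nat.div_div_eq_div_mul, ← pow_succ'] at this
    unfold dd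
    split_ifs with h
    · simp [h]
    · rw [← this]; omega

theorem dd_max : ∀ β a b c : ℕ, a ≤ b → b ≤ c → dd β a c = max (dd β a b) (dd β b c)
  | 0, a, b, c, h1, h2 => by unfold dd; split_ifs <;> omega
  | β + 1, a, b, c, h1, h2 => by
    have := dd_max β (a / 2) (b / 2) (c / 2) (by omega) (by omega)
    by_cases e1 : a = b
    · subst e1; simp [(dd_zero _ a a).2 rfl]
    by_cases e2 : b = c
    · subst e2; simp [(dd_zero _ b b).2 rfl]
    unfold dd
    rw [if_neg e1, if_neg e2, if_neg (by omega)]
    omega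

theorem dd_ne : ∀ β a b c : ℕ, a < b → b < c → dd β a b = dd β b c → dd β a b = β + 1
  | 0, a, b, c, h1, _, _ => by unfold dd; rw [if_neg h1.ne]
  | β + 1, a, b, c, h1, h2, h => by
    have z1 := dd_zero β (a / 2) (b / 2)
    have z2 := dd_zero β (b / 2) (c / 2)
    have ih := dd_ne β (a / 2) (b / 2) (c / 2)
    unfold dd at h ⊢
    rw [if_neg h1.ne] at h ⊢
    rw [if_neg h2.ne] at h
    omega

variable (β : ℕ)

/-- One if `a` and `b` lie in different blocks. -/
def ee (a b : ℕ) : ℕ := if dd β a b = β + 1 then 1 else 0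

theorem ee_spec (a b : ℕ) :
    ee β a b = 1 ∧ dd β a b = β + 1 ∨ ee β a b = 0 ∧ dd β a b ≤ β := by
  have := dd_le β a b
  unfold ee; split_ifs <;> omega

theorem tri {a b c : ℕ} (h1 : a < b) (h2 : b < c) :
    dd β a c = max (dd β a b) (dd β b c) ∧ ee β a c = max (ee β a b) (ee β b c) ∧
      (dd β a b = dd β b c → dd β a b = β + 1) := by
  have := dd_max β a b c h1.le h2.le
  have := ee_spec β a b
  have := ee_spec β b c
  have := ee_spec β a c
  exact ⟨by omega, by omega, dd_ne β a b c h1 h2⟩

/-- The potential of a node `k` with left parent `a` and right parent `b`. -/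
def ph (a k b : ℕ) (s : Bool) : ℕ :=
  2 * (dd β a k + dd β k b) + 2 * ee β a k + 4 * cond s (ee β k b - ee β a k) 0

/-- The potential of a tree. -/
def pt : BT → ℕ → ℕ → Bool → ℕ
  | BT.nil, _, _, _ => 0
  | BT.node l k r, a, b, s => ph β a k b s + pt l a k true + pt r k b false

/-- The hole is a left child. -/
def isL : List Fr → Bool
  | Fr.rgt _ _ :: _ => true
  | _ => false

/-- The potential of a context. -/
def cx (c d : ℕ) : List Fr → ℕ
  | [] => 0
  | Fr.lft a y :: π => ph β (cL c π) y (cH d π) (isL π) + pt β a (cL c π) y true + cx c d π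
  | Fr.rgt y b :: π => ph β (cL c π) y (cH d π) (isL π) + pt β b y (cH d π) false + cx c d π

/-- The debt. -/
def kp (x : ℕ) : List Fr → ℕ
  | [] => 2
  | Fr.lft _ y :: _ => 2 * ee β y x
  | Fr.rgt _ _ :: _ => 0

/-- Left ancestors whose left parent lies in another block. -/
def nl (c : ℕ) : List Fr → ℕ
  | [] => 0
  | Fr.lft _ y :: π => ee β (cL c π) y + nl c π
  | Fr.rgt _ _ :: π => nl c π

/-- Right links between different blocks. -/
def xr : List Fr → ℕ
  | Fr.rgt p _ :: Fr.rgt g _ :: π => ee β p g + xr π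
  | _ :: _ :: π => xr π
  | _ => 0

theorem pt_plug (c d : ℕ) : ∀ (π : List Fr) (t : BT),
    pt β (plug t π) c d false = pt β t (cL c π) (cH d π) (isL π) + cx β c d π
  | [], _ => rfl
  | Fr.lft a y :: π, t => by
    rw [plug, pt_plug c d π]; simp only [ap, pt, cx, cL, cH, isL]; omega
  | Fr.rgt y b :: π, t => by
    rw [plug, pt_plug c d π]; simp only [ap, pt, cx, cL, cH, isL]; omega

theorem pt_flag : ∀ {t : BT} {a b : ℕ}, Ord t a b →
    pt β t a b false ≤ pt β t a b true ∧ pt β t a b true ≤ pt β t a b false + 4 * ee β a b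
  | BT.nil, _, _, _ => by simp [pt]
  | BT.node l k r, a, b, h => by
    have := (tri β (Ord.lt h.1) (Ord.lt h.2)).2.1
    simp only [pt, ph, cond_true, cond_false]
    omega

theorem pt_le : ∀ (t : BT) (a b : ℕ) (s : Bool), pt β t a b s ≤ t.keys.length * (4 * β + 10)
  | BT.nil, _, _, _ => by simp [pt]
  | BT.node l k r, a, b, s => by
    have h1 := pt_le l a k true
    have h2 := pt_le r k b false
    have h3 := ee_spec β a k
    have h4 := ee_spec β k b
    have h5 : ph β a k b s ≤ 4 * β + 10 := by
      cases s <;> simp only [ph, cond_true, cond_false] <;> omega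
    simp only [pt, BT.keys, List.length_append, List.length_cons, add_mul, one_mul]
    omega

theorem kap (c x : ℕ) : ∀ π : List Fr,
    isL π = true ∨ 2 * ee β (cL c π) x ≤ kp β x π
  | [] => Or.inr (by have := ee_spec β c x; simp only [cL, kp]; omega)
  | Fr.lft _ _ :: _ => Or.inr le_rfl
  | Fr.rgt _ _ :: _ => Or.inl rfl

theorem mono {a b c : ℕ} (h1 : a < b) (h2 : b < c) :
    dd β a b ≤ dd β a c ∧ dd β b c ≤ dd β a c ∧ ee β a b ≤ ee β a c ∧ ee β b c ≤ ee β a c := by
  have := tri β h1 h2
  omega

theorem ph_ge (a k b : ℕ) (s : Bool) :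
    2 * (dd β a k + dd β k b) + 2 * ee β a k ≤ ph β a k b s := Nat.le_add_right _ _

theorem aRR {u x p g w : ℕ} (o1 : u < x) (o2 : x < p) (o3 : p < g) (o4 : g < w) (s : Bool) :
    2 + ph β x p w true + ph β p g w false + 8 * dd β x p ≤
      ph β u p g true + ph β u g w s + 8 * dd β x w + 2 * ee β p g := by
  have b1 := ph_ge β u p g true
  have b2 := ph_ge β u g w s
  have t1 := mono β o1 o2
  have t2 := mono β o1 (o2.trans o3)
  have t3 := mono β o2 o3
  have t4 := mono β (o2.trans o3) o4
  have t5 := mono β o2 (o3.trans o4)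
  have t6 := dd_ne β x p w o2 (o3.trans o4)
  have a3 := ee_spec β x p
  have a4 := ee_spec β p w
  have a5 := dd_le β x w
  have e : ph β x p w true + ph β p g w false = 2 * (dd β x p + dd β p w) + 2 * ee β x p +
    4 * (ee β p w - ee β x p) + (2 * (dd β p g + dd β g w) + 2 * ee β p g) := rfl
  omega

theorem aLL {u g p x w K : ℕ} (o1 : u < g) (o2 : g < p) (o3 : p < x) (o4 : x < w) (s : Bool)
    (k : s = true ∨ 2 * ee β u x ≤ K) :
    2 + 2 * ee β p x + ph β u p x false + ph β u g p true + 4 * dd β p x ≤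
      ph β g p w false + ph β u g w s + 4 * dd β u x + 6 * ee β u g + 6 * ee β g p + K := by
  have t1 := (tri β o1 o2).2.1
  have t2 := mono β o2 o3
  have t3 := mono β o3 o4
  have t4 := mono β (o1.trans o2) o3
  have t5 := mono β (o2.trans o3) o4
  have t6 := dd_ne β u p x (o1.trans o2) o3
  have t7 := mono β o1 (o2.trans o3)
  have a3 := ee_spec β u p
  have a4 := ee_spec β p x
  have a5 := ee_spec β u g
  have e : ph β u p x false + ph β u g p true = 2 * (dd β u p + dd β p x) + 2 * ee β u p +
    (2 * (dd β u g + dd β g p) + 2 * ee β u g + 4 * (ee β g p - ee β u g)) := rfl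
  have e1 : ph β g p w false = 2 * (dd β g p + dd β p w) + 2 * ee β g p := rfl
  have key : 2 + 2 * dd β u p + 4 * dd β p x ≤ 2 * dd β g w + 4 * dd β u x + 2 * ee β u p := by
    omega
  rcases k with rfl | k
  · have e2 : ph β u g w true = 2 * (dd β u g + dd β g w) + 2 * ee β u g +
      4 * (ee β g w - ee β u g) := rfl
    omega
  · have b2 := ph_ge β u g w s
    omega

theorem zag {g x p : ℕ} (o2 : g < x) (o3 : x < p) :
    1 + dd β g x + dd β x p ≤ 2 * dd β g p + min (ee β g x) (ee β x p) := by
  have t2 := tri β o2 o3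
  have a4 := ee_spec β g x
  have a5 := ee_spec β x p
  omega

theorem jump {x p w : ℕ} (o3 : x < p) (o4 : p < w) :
    ee β p w - ee β x p + dd β x p ≤ dd β x w := by
  have t2 := mono β o3 o4
  have a4 := ee_spec β p w
  have a5 := ee_spec β x p
  omega

theorem aRL {u g x p w K : ℕ} (o1 : u < g) (o2 : g < x) (o3 : x < p) (o4 : p < w) (s : Bool)
    (k : s = true ∨ 2 * ee β u x ≤ K) :
    2 + ph β u g x false + ph β x p w true + 4 * dd β g x + 8 * dd β x p ≤
      ph β g p w false + ph β u g w s + 4 * dd β u x + 8 * dd β x w + 6 * ee β u g + K := by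
  have t1 := mono β o1 o2
  have t2 := mono β o2 o3
  have t3 := mono β (o2.trans o3) o4
  have t4 := zag β o2 o3
  have t5 := jump β o3 o4
  have t6 := mono β o3 o4
  have e : ph β u g x false + ph β x p w true = 2 * (dd β u g + dd β g x) + 2 * ee β u g +
    (2 * (dd β x p + dd β p w) + 2 * ee β x p + 4 * (ee β p w - ee β x p)) := rfl
  have e1 : ph β g p w false = 2 * (dd β g p + dd β p w) + 2 * ee β g p := rfl
  rcases k with rfl | k
  · have e2 : ph β u g w true = 2 * (dd β u g + dd β g w) + 2 * ee β u g +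
      4 * (ee β g w - ee β u g) := rfl
    omega
  · have b2 := ph_ge β u g w s
    omega

theorem aLR {u p x g w : ℕ} (o1 : u < p) (o2 : p < x) (o3 : x < g) (o4 : g < w) (s : Bool) :
    2 + 2 * ee β p x + ph β u p x false + ph β x g w true + 4 * dd β p x + 8 * dd β x g ≤
      ph β u p g true + ph β u g w s + 4 * dd β u x + 8 * dd β x w + 6 * ee β u p := by
  have t1 := mono β o1 o2
  have t2 := mono β o2 o3
  have t3 := mono β o1 (o2.trans o3)
  have t4 := zag β o2 o3
  have t5 := jump β o3 o4
  have t6 := mono β o3 o4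
  have e : ph β u p x false + ph β x g w true = 2 * (dd β u p + dd β p x) + 2 * ee β u p +
    (2 * (dd β x g + dd β g w) + 2 * ee β x g + 4 * (ee β g w - ee β x g)) := rfl
  have e1 : ph β u p g true = 2 * (dd β u p + dd β p g) + 2 * ee β u p +
    4 * (ee β p g - ee β u p) := rfl
  have b2 := ph_ge β u g w s
  omega

theorem isL_r (y : ℕ) (b : BT) (π : List Fr) : isL (Fr.rgt y b :: π) = true := rfl

theorem isL_l (y : ℕ) (b : BT) (π : List Fr) : isL (Fr.lft b y :: π) = false := rfl

theorem kp_r (x y : ℕ) (b : BT) (π : List Fr) : kp β x (Fr.rgt y b :: π) = 0 := rfl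

theorem kp_l (x y : ℕ) (b : BT) (π : List Fr) : kp β x (Fr.lft b y :: π) = 2 * ee β y x := rfl

theorem amort {x c d : ℕ} (l r : BT) (π : List Fr) (h : Ord (plug (BT.node l x r) π) c d) :
    π.length + kp β x π + pt β (splayUp x l r π) c d false + 4 * dd β (cL c π) x +
        8 * dd β x (cH d π) ≤
      pt β l (cL c π) x false + pt β r x (cH d π) true + cx β c d π + 6 * nl β c π + 6 * xr β π +
        (16 * β + 40) := by
  fun_induction splayUp x l r π with
  | case1 l r =>
    have a1 := pt_flag β h.1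
    have a2 := pt_flag β h.2
    have a3 := ee_spec β c x
    have a4 := ee_spec β x d
    simp only [pt, ph, cx, cL, cH, kp, nl, xr, cond_false, List.length_nil]
    omega
  | case2 l r a p =>
    have a2 := pt_flag β h.2.2
    have t1 := mono β (Ord.lt h.2.1) (Ord.lt h.2.2)
    have a3 := ee_spec β c x
    have a4 := ee_spec β x d
    have a5 := ee_spec β p x
    simp only [pt, ph, cx, cL, cH, kp, nl, xr, isL, cond_true, cond_false, List.length_singleton]
    omega
  | case3 l r p b =>
    have a1 := pt_flag β h.1.1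
    have t1 := mono β (Ord.lt h.1.1) (Ord.lt h.1.2)
    have a3 := ee_spec β c x
    have a4 := ee_spec β x d
    have a5 := ee_spec β x p
    simp only [pt, ph, cx, cL, cH, kp, nl, xr, isL, cond_false, List.length_singleton]
    omega
  | case4 l r p b g e π ih =>
    have o := ord_hole π _ h
    have ih := ih (ord_repl π _ _ h (loc_RR l r b e o).ord)
    have a1 := pt_flag β o.1.2
    have a2 := aRR β (Ord.lt o.1.1.1) (Ord.lt o.1.1.2) (Ord.lt o.1.2) (Ord.lt o.2) (isL π)
    simp only [pt, cx, cL, cH, kp_r, nl, xr, isL_r, List.length_cons] at ih ⊢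
    omega
  | case5 l r b p a g π ih =>
    have o := ord_hole π _ h
    have ih := ih (ord_repl π _ _ h (loc_LL l r b a o).ord)
    have a1 := pt_flag β o.2.1
    have a2 := aLL β (Ord.lt o.1) (Ord.lt o.2.1) (Ord.lt o.2.2.1) (Ord.lt o.2.2.2) (isL π)
      (kap β c x π)
    simp only [pt, cx, cL, cH, kp_l, nl, xr, isL_l, List.length_cons] at ih ⊢
    omega
  | case6 l r p b a g π ih =>
    have o := ord_hole π _ h
    have ih := ih (ord_repl π _ _ h (loc_RL l r b a o).ord)
    have a2 := aRL β (Ord.lt o.1) (Ord.lt o.2.1.1) (Ord.lt o.2.1.2) (Ord.lt o.2.2) (isL π)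
      (kap β c x π)
    simp only [pt, cx, cL, cH, kp_r, nl, xr, isL_l, List.length_cons] at ih ⊢
    omega
  | case7 l r a p g e π ih =>
    have o := ord_hole π _ h
    have ih := ih (ord_repl π _ _ h (loc_LR l r a e o).ord)
    have a2 := aLR β (Ord.lt o.1.1) (Ord.lt o.1.2.1) (Ord.lt o.1.2.2) (Ord.lt o.2) (isL π)
    simp only [pt, cx, cL, cH, kp_l, nl, xr, isL_r, List.length_cons] at ih ⊢
    omega

theorem nl_le {c d x : ℕ} (T : BT) : ∀ (π : List Fr) (t : BT), T = plug t π → Ord T c d →
    cL c π < x → nl β c π ≤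
      (π.map key).countP fun y => y < x ∧ lo T y c / 2 ^ β ≠ y / 2 ^ β
  | [], _, _, _, _ => by simp [nl]
  | f :: π, t, e, o, h => by
    have a := hole_le f π t (e ▸ o)
    have ih := nl_le (x := x) T π (ap f t) e o (by omega)
    have v := (head_val f π t (e ▸ o)).1
    rw [← e] at v
    rw [List.map_cons, List.countP_cons, v]
    cases f with
    | rgt y b => simp only [nl]; omega
    | lft s y =>
      have := ee_spec β (cL c π) y
      have := dd_top β (cL c π) y
      by_cases e : cL c π / 2 ^ β ≠ y / 2 ^ β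
      · rw [if_pos (decide_eq_true ⟨h, e⟩)]; simp only [nl]; omega
      · simp only [nl]; omega

theorem xr_le {x c d : ℕ} (l r : BT) (π : List Fr) (h : Ord (plug (BT.node l x r) π) c d) :
    xr β π ≤ (π.map key).countP fun y => x < y ∧ lo (splayUp x l r π) y c ≠ x ∧
      lo (splayUp x l r π) y c / 2 ^ β ≠ y / 2 ^ β := by
  fun_induction splayUp x l r π with
  | case1 l r => simp [xr]
  | case2 l r a p => simp [xr]
  | case3 l r p b => simp [xr]
  | case4 l r p b g e π ih =>
    have o := ord_hole π _ h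
    have h1 := ord_repl π _ _ h (loc_RR l r b e o).ord
    have ih := ih h1
    obtain ⟨_, -, f⟩ := facts_splay _ _ π h1
    have o1 := Ord.lt o.1.1.1
    have o2 := Ord.lt o.1.1.2
    have o3 := Ord.lt o.1.2
    have o4 := Ord.lt o.2
    have rg := hole_rng π _ h1
    have v := (f.off g (by omega) (by omega) (by omega) fun hm => by
      have := key_out π _ h1 hm
      omega).1
    rw [(plug_in (y := g) π _ h1 (by omega) o4).1] at v
    have n1 : ¬ g < x := by omega
    have n2 : ¬ g < p := by omega
    simp only [lo, n1, n2, o2.trans o3, o3, if_true, if_false, lt_irrefl] at v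
    have := ee_spec β p g
    have := dd_top β p g
    simp only [List.map_cons, List.countP_cons, key, xr, v, decide_eq_true_eq]
    split_ifs <;> omega
  | case5 l r b p a g π ih =>
    have ih := ih (ord_repl π _ _ h (loc_LL l r b a (ord_hole π _ h)).ord)
    simp only [List.map_cons, List.countP_cons, xr]
    omega
  | case6 l r p b a g π ih =>
    have ih := ih (ord_repl π _ _ h (loc_RL l r b a (ord_hole π _ h)).ord)
    simp only [List.map_cons, List.countP_cons, xr]
    omega
  | case7 l r a p g e π ih =>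
    have ih := ih (ord_repl π _ _ h (loc_LR l r a e (ord_hole π _ h)).ord)
    simp only [List.map_cons, List.countP_cons, xr]
    omega

/-- The amortized cost of one access. -/
theorem blk {n x : ℕ} {T : BT} (hT : T.keys = List.range' 1 n) (h1 : 1 ≤ x) (h2 : x ≤ n) :
    (access T x).2 + pt β (access T x).1 0 (n + 1) false ≤ pt β T 0 (n + 1) false +
      6 * ((lftPath n x (rpar n T)).filter fun y => lpar T y / 2 ^ β ≠ y / 2 ^ β).card +
      6 * ((rgtPath n x (lpar T)).filter fun u => lpar (access T x).1 u ≠ x ∧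
        lpar (access T x).1 u / 2 ^ β ≠ u / 2 ^ β).card + (16 * β + 45) := by
  have o := ord_of_keys hT
  obtain ⟨l, r, π, e1, e2, hk⟩ := access_zip hT h1 h2
  have o' : Ord (plug (BT.node l x r) π) 0 (n + 1) := e1 ▸ o
  have oh := ord_hole π _ o'
  have nd := nodup_key π _ o'
  have bl : ∀ y, 1 ≤ y → lpar T y < y := fun y h => lo_lt T y 0 h
  have bh : ∀ y, y ≤ n → y < rpar n T y := fun y h => lt_hi T y _ (by omega)
  have a1 := amort β l r π o'
  have a2 := nl_le β (x := x) T π _ e1 o (Ord.lt oh.1)
  have a3 := xr_le β l r π o'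
  have a4 := pt_plug β 0 (n + 1) π (BT.node l x r)
  have a5 := pt_flag β oh.1
  have a6 := pt_flag β oh.2
  have a7 := ee_spec β x (cH (n + 1) π)
  rw [← e1] at a4
  have c1 : ((lftPath n x (rpar n T)).filter fun y => lpar T y / 2 ^ β ≠ y / 2 ^ β).card =
      (π.map key).countP fun y => y < x ∧ lo T y 0 / 2 ^ β ≠ y / 2 ^ β := by
    unfold lftPath
    rw [filter_filter]
    refine card_eq_countP _ nd _ _ fun y => ?_
    rw [hk, mem_Icc]
    have := bl y
    unfold lpar at *
    omega
  have c2 : ((rgtPath n x (lpar T)).filter fun u => lpar (splayUp x l r π) u ≠ x ∧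
        lpar (splayUp x l r π) u / 2 ^ β ≠ u / 2 ^ β).card =
      (π.map key).countP fun y => x < y ∧ lo (splayUp x l r π) y 0 ≠ x ∧
        lo (splayUp x l r π) y 0 / 2 ^ β ≠ y / 2 ^ β := by
    unfold rgtPath
    rw [filter_filter]
    refine card_eq_countP _ nd _ _ fun y => ?_
    rw [hk, mem_Icc]
    have := bh y
    unfold lpar at *
    omega
  rw [e2]
  simp only [pt] at a4 ⊢
  rw [c1, c2]
  omega

end Pool.Agent.P.MP_119182_lc.Blk
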