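import Pool.Agent.P.MP_119182_lc.Iface

set_option autoImplicit false

namespace Pool.Agent.P.MP_119182_lc

open Finset

namespace CountA

theorem level (b : ℕ) : ∀ x v u : ℕ, x < v → v < u → u < b → ∃ l < b,
    x / 2 ^ l < v / 2 ^ l ∧ v / 2 ^ l < u / 2 ^ l ∧ u / 2 ^ l < b / 2 ^ l ∧
      (u / 2 ^ l = v / 2 ^ l + 1 ∨ v / 2 ^ l = x / 2 ^ l + 1 ∨ b / 2 ^ l = u / 2 ^ l + 1) := by
  induction b using Nat.strong_induction_on with
  | _ b ih =>
    intro x v u h1 h2 h3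
    by_cases h : u = v + 1 ∨ v = x + 1 ∨ b = u + 1
    · exact ⟨0, by omega, by simpa using ⟨h1, h2, h3, h⟩⟩
    · obtain ⟨l, hl, h4⟩ := ih (b / 2) (by omega) (x / 2) (v / 2) (u / 2) (by omega) (by omega)
        (by omega)
      refine ⟨l + 1, by omega, ?_⟩
      simpa only [pow_succ', ← Nat.div_div_eq_div_mul] using h4

theorem sum1 (L : ℕ) : ∑ l ∈ range L, (1 : ℝ) / ((l + 1) * (l + 2)) = 1 - 1 / (L + 1) := by
  induction L with
  | zero => simp
  | succ L ih =>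
    rw [sum_range_succ, ih]
    push_cast
    field_simp
    ring

theorem sum2 (L : ℕ) : ∑ l ∈ range L, ((l : ℝ) + 1) * (l + 2) / 2 ^ l =
    16 - (2 * L ^ 2 + 10 * L + 16) / 2 ^ L := by
  induction L with
  | zero => simp
  | succ L ih =>
    rw [sum_range_succ, ih]
    push_cast
    field_simp
    ring

theorem sum3 {k : ℝ} (h0 : 0 ≤ k) {j : ℕ} (hk : k ≤ 2 ^ j) (L : ℕ) :
    ∑ l ∈ range L, min 1 (k / 2 ^ l) + 2 * min 1 (k / 2 ^ L) ≤ (min L j : ℕ) + 2 := by
  induction L with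
  | zero => simp
  | succ L ih =>
    rw [sum_range_succ]
    have h1 : k / 2 ^ (L + 1) = k / 2 ^ L / 2 := by rw [pow_succ, div_div]
    have h2 : 0 ≤ k / 2 ^ L := by positivity
    have h3 := min_le_left 1 (k / 2 ^ (L + 1))
    have h4 := min_le_right 1 (k / 2 ^ (L + 1))
    by_cases h : L < j
    · have h5 : min 1 (k / 2 ^ (L + 1)) ≤ min 1 (k / 2 ^ L) := min_le_min_left _ (by linarith)
      rw [show min (L + 1) j = min L j + 1 by omega]
      push_cast at ih ⊢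
      linarith
    · have h5 : k / 2 ^ L ≤ 1 := (div_le_one (by positivity)).2
        (hk.trans (pow_le_pow_right₀ one_le_two (by omega)))
      rw [show min (L + 1) j = min L j by omega]
      rw [min_eq_right h5] at ih ⊢
      linarith

variable {n m k : ℕ} {x b c : ℕ → ℕ} {lp rp : ℕ → ℕ → ℕ}

theorem link (R : Run n m k x b c lp rp) {p : ℕ × ℕ} (hp : p ∈ links n m x b lp rp) :
    p.1 < m ∧ p.2 ≤ n ∧ lp p.1 p.2 < x p.1 ∧ x p.1 < lp (p.1 + 1) p.2 ∧ lp (p.1 + 1) p.2 < p.2 ∧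
      rp p.1 (lp (p.1 + 1) p.2) = p.2 ∧ p.2 < b p.1 ∧ b p.1 ≤ n + 1 ∧ c p.1 < k := by
  simp only [links, mem_filter, mem_product, mem_range, mem_Icc] at hp
  obtain ⟨⟨h1, h2, h3⟩, h4, h5, h6, h7⟩ := hp
  obtain ⟨a1, a2, -, a4, -⟩ := (R.step _ h1).los _ h4 h3 h5 h6
  have := ((R.step _ h1).bnd _ h2 h3).2
  exact ⟨h1, h3, h5, a1, a2, a4, by omega, (R.rng _ h1).2.2.1, (R.rng _ h1).2.2.2⟩

theorem uniq (R : Run n m k x b c lp rp) {p p' : ℕ × ℕ} (hp : p ∈ links n m x b lp rp)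
    (hp' : p' ∈ links n m x b lp rp) (e : p.1 = p'.1) {h : ℕ} (h1 : lp (p.1 + 1) p.2 < h)
    (h2 : h ≤ p.2) (h3 : lp (p'.1 + 1) p'.2 < h) (h4 : h ≤ p'.2) : p = p' := by
  obtain ⟨t, u⟩ := p
  obtain ⟨t', u'⟩ := p'
  dsimp only at e h1 h2 h3 h4
  subst e
  have a := link R hp
  have a' := link R hp'
  dsimp only at a a'
  have l1 := ((R.step t a.1).lam u (lp (t + 1) u') (by omega) (by omega) (by omega) (by omega)).2
  have l2 := ((R.step t a.1).lam u' (lp (t + 1) u) (by omega) (by omega) (by omega) (by omega)).2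
  rw [show u = u' by omega]

/-- The window conditions. -/
def Win (x b : ℕ → ℕ) (lp : ℕ → ℕ → ℕ) (q h e : ℕ × ℕ → ℕ) (p : ℕ × ℕ) : Prop :=
  x p.1 < q p ∧ q p ≤ lp (p.1 + 1) p.2 ∧ lp (p.1 + 1) p.2 < h p ∧ h p ≤ p.2 ∧ p.2 < e p ∧
    e p ≤ b p.1

theorem heavy (R : Run n m k x b c lp rp) {S : Finset (ℕ × ℕ)} (hS : S ⊆ links n m x b lp rp)
    {q h e : ℕ × ℕ → ℕ} (hw : ∀ p ∈ S, Win x b lp q h e p)
    (hd : ∀ p ∈ S, ∀ p' ∈ S, p.1 = p'.1 → ∀ y, h p ≤ y → y < e p → h p' ≤ y → y < e p' →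
      h p = h p') :
    ∑ p ∈ S, ((rgtPath n (x p.1) (lp p.1)).filter fun y => h p ≤ y ∧ y < e p).card ≤
      ∑ t ∈ range m, (rgtPath n (x t) (lp t)).card := by
  rw [← card_sigma, ← card_sigma]
  refine card_le_card_of_injOn (fun z => ⟨z.1.1, z.2⟩) ?_ ?_
  · intro z hz
    simp only [coe_sigma, Set.mem_sigma_iff, mem_coe, mem_filter, mem_range] at hz ⊢
    exact ⟨(link R (hS hz.1)).1, hz.2.1⟩
  · rintro ⟨p, y⟩ hz ⟨p', y'⟩ hz' e1
    simp only [coe_sigma, Set.mem_sigma_iff, mem_coe, mem_filter] at hz hz'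
    simp only [Sigma.mk.injEq, heq_eq_eq] at e1
    obtain ⟨e1, rfl⟩ := e1
    have a := hw p hz.1
    have a' := hw p' hz'.1
    have e2 := hd p hz.1 p' hz'.1 e1 y hz.2.2.1 hz.2.2.2 hz'.2.2.1 hz'.2.2.2
    rw [uniq R (hS hz.1) (hS hz'.1) e1 a.2.2.1 a.2.2.2.1 (e2 ▸ a'.2.2.1) (e2 ▸ a'.2.2.2.1)]

theorem fib (hF : S_FIBER) (R : Run n m k x b c lp rp) {S : Finset (ℕ × ℕ)}
    (hS : S ⊆ links n m x b lp rp) {q h e : ℕ × ℕ → ℕ} (hw : ∀ p ∈ S, Win x b lp q h e p)
    {κ : ℕ × ℕ → (ℕ × ℕ) × ℕ} {K : Finset ((ℕ × ℕ) × ℕ)} (hK : ∀ p ∈ S, κ p ∈ K)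
    (hκ : ∀ p ∈ S, ∀ p' ∈ S, κ p = κ p' → c p.1 = c p'.1 ∧ q p = q p' ∧ h p = h p' ∧ e p = e p')
    (D : ℕ) (hD : (∀ p ∈ S, e p - h p ≤ D) ∨ ∃ θ, D = θ + k ∧ ∀ p ∈ S,
      ((rgtPath n (x p.1) (lp p.1)).filter fun y => h p ≤ y ∧ y < e p).card ≤ θ) :
    S.card ≤ D * K.card := by
  refine card_le_mul_card_image_of_maps_to hK D fun z _ => ?_
  rcases (S.filter fun p => κ p = z).eq_empty_or_nonempty with h0 | ⟨p, hp⟩
  · simp [h0]
  rw [mem_filter] at hp
  have key : ∀ p' ∈ S.filter fun p => κ p = z,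
      c p'.1 = c p.1 ∧ q p' = q p ∧ h p' = h p ∧ e p' = e p := fun p' hp' => by
    rw [mem_filter] at hp'
    exact hκ p' hp'.1 p hp.1 (hp'.2.trans hp.2.symm)
  have := hF n m k x b c lp rp R (c p.1) (q p) (h p) (e p) (S.filter fun p => κ p = z)
    ((filter_subset _ _).trans hS) fun p' hp' => by
      obtain ⟨e1, e2, e3, e4⟩ := key p' hp'
      have := hw p' (mem_filter.1 hp').1
      rw [← e2, ← e3, ← e4]
      exact ⟨e1, this⟩
  rcases hD with hD | ⟨θ, rfl, hD⟩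
  · exact this.1.trans (hD p hp.1)
  · refine this.2 θ fun p' hp' => ?_
    obtain ⟨-, -, e3, e4⟩ := key p' hp'
    rw [← e3, ← e4]
    exact hD p' (mem_filter.1 hp').1

/-- Admissible cells of size `s`. -/
def adm (n m k : ℕ) (x b c : ℕ → ℕ) (s : ℕ) : Finset (ℕ × ℕ) :=
  (range k ×ˢ range (n + 2)).filter fun z =>
    ∃ t ∈ range m, c t = z.1 ∧ x t < z.2 * s ∧ (z.2 + 1) * s ≤ b t

theorem adm_card (R : Run n m k x b c lp rp) (s : ℕ) :
    (adm n m k x b c s).card * s ≤ (spanSet n m k x b c).card := by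
  have : (adm n m k x b c s ×ˢ range s).card ≤ (spanSet n m k x b c).card := by
    refine card_le_card_of_injOn (fun z => (z.1.1, z.1.2 * s + z.2 + 1)) ?_ ?_
    · rintro ⟨⟨j, H⟩, i⟩ hz
      simp only [adm, spanSet, coe_product, Set.mem_prod, mem_coe, mem_filter, mem_product,
        mem_range] at hz ⊢
      obtain ⟨⟨⟨h1, -⟩, t, ht, h2, h3, h4⟩, h5⟩ := hz
      have := (R.rng t ht).2.2.1
      rw [add_mul, one_mul] at h4
      exact ⟨⟨h1, by omega⟩, t, ht, h2, by omega, by omega⟩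
    · rintro ⟨⟨j, H⟩, i⟩ hz ⟨⟨j', H'⟩, i'⟩ hz' e1
      simp only [coe_product, Set.mem_prod, mem_coe, mem_range, Prod.mk.injEq] at hz hz' e1 ⊢
      have h1 : H * s + i = H' * s + i' := by omega
      have h2 : H = H' := by
        have a : (H * s + i) / s = H := Nat.div_eq_of_lt_le (by omega) (by rw [add_mul]; omega)
        have a' : (H' * s + i') / s = H' := Nat.div_eq_of_lt_le (by omega) (by rw [add_mul]; omega)
        rw [← a, h1, a']
      subst h2
      exact ⟨⟨e1.1, rfl⟩, by omega⟩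
  rwa [card_product, card_range] at this

theorem bound (hF : S_FIBER) (R : Run n m k x b c lp rp) {S : Finset (ℕ × ℕ)}
    (hS : S ⊆ links n m x b lp rp) {q h e : ℕ × ℕ → ℕ} (hw : ∀ p ∈ S, Win x b lp q h e p) {s : ℕ}
    (hs : 0 < s) {κ : ℕ × ℕ → (ℕ × ℕ) × ℕ} (hK : ∀ p ∈ S, κ p ∈ adm n m k x b c s ×ˢ range 2)
    (hκ : ∀ p ∈ S, ∀ p' ∈ S, κ p = κ p' → c p.1 = c p'.1 ∧ q p = q p' ∧ h p = h p' ∧ e p = e p')
    (hd : ∀ p ∈ S, ∀ p' ∈ S, p.1 = p'.1 → ∀ y, h p ≤ y → y < e p → h p' ≤ y → y < e p' →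
      h p = h p')
    (h2 : (∀ p ∈ S, e p - h p ≤ s) ∨ ∀ p ∈ S, ∀ p' ∈ S, p.1 = p'.1 → h p = h p')
    {θ : ℕ} (hθ : 0 < θ) :
    (S.card : ℝ) ≤ (∑ t ∈ range m, (rgtPath n (x t) (lp t)).card : ℕ) * (1 / θ) +
      2 * (spanSet n m k x b c).card * (θ / s) +
      2 * ((spanSet n m k x b c).card + m) * min 1 ((k : ℝ) / s) := by
  have hA := adm_card R s
  have a1 : S.card ≤ 2 * ((spanSet n m k x b c).card + m) := by
    rcases h2 with h2 | h2
    · have := fib hF R hS hw hK hκ s (Or.inl h2)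
      rw [card_product, card_range] at this
      nlinarith
    · have : S.card ≤ (range m).card := by
        refine card_le_card_of_injOn Prod.fst (fun p hp => mem_coe.2 (mem_range.2
          (link R (hS hp)).1)) fun p hp p' hp' e1 => ?_
        have a := hw p hp
        have a' := hw p' hp'
        have e2 := h2 p hp p' hp' e1
        exact uniq R (hS hp) (hS hp') e1 a.2.2.1 a.2.2.2.1 (e2 ▸ a'.2.2.1) (e2 ▸ a'.2.2.2.1)
      rw [card_range] at this
      omega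
  set P : ℕ × ℕ → Prop := fun p =>
    ((rgtPath n (x p.1) (lp p.1)).filter fun y => h p ≤ y ∧ y < e p).card ≤ θ
  have a2 := fib hF R ((filter_subset P S).trans hS) (fun p hp => hw p (mem_filter.1 hp).1)
    (fun p hp => hK p (mem_filter.1 hp).1)
    (fun p hp p' hp' => hκ p (mem_filter.1 hp).1 p' (mem_filter.1 hp').1) (θ + k)
    (Or.inr ⟨θ, rfl, fun p hp => (mem_filter.1 hp).2⟩)
  rw [card_product, card_range] at a2
  have a3 : (S.filter fun p => ¬ P p).card * θ ≤ ∑ t ∈ range m, (rgtPath n (x t) (lp t)).card := by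
    refine le_trans ?_ ((sum_le_sum_of_subset (filter_subset (fun p => ¬ P p) S)).trans
      (heavy R hS hw hd))
    exact card_nsmul_le_sum _ _ θ fun p hp => (not_le.1 (mem_filter.1 hp).2).le
  have a4 := card_filter_add_card_filter_not (s := S) P
  generalize (S.filter P).card = N1 at *
  generalize (S.filter fun p => ¬ P p).card = N2 at *
  generalize (adm n m k x b c s).card = A at *
  generalize (spanSet n m k x b c).card = W at *
  generalize ∑ t ∈ range m, (rgtPath n (x t) (lp t)).card = Y at *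
  have s0 : (0 : ℝ) < s := by exact_mod_cast hs
  have t0 : (0 : ℝ) < θ := by exact_mod_cast hθ
  have b1 : (S.card : ℝ) ≤ 2 * (W + m) := by exact_mod_cast a1
  have b2 : (N1 : ℝ) ≤ (θ + k) * (A * 2) := by exact_mod_cast a2
  have b3 : (N2 : ℝ) ≤ Y * (1 / θ) := by
    rw [mul_one_div, le_div_iff₀ t0]
    exact_mod_cast a3
  have b4 : (N1 : ℝ) + N2 = S.card := by exact_mod_cast a4
  have b5 : (A : ℝ) ≤ W / s := by
    rw [le_div_iff₀ s0]
    exact_mod_cast hA
  have b6 : (0 : ℝ) ≤ Y * (1 / θ) := by positivity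
  have b7 : (0 : ℝ) ≤ 2 * W * (θ / s) := by positivity
  rcases le_total 1 ((k : ℝ) / s) with h5 | h5
  · rw [min_eq_left h5]
    linarith
  · rw [min_eq_right h5]
    have b8 : ((θ : ℝ) + k) * (A * 2) ≤ (θ + k) * (W / s * 2) := by gcongr
    have b9 : ((θ : ℝ) + k) * (W / s * 2) = 2 * W * (θ / s) + 2 * W * (k / s) := by ring
    have b10 : (0 : ℝ) ≤ 2 * m * (k / s) := by positivity
    linarith

theorem lo_le (y s : ℕ) : y / s * s ≤ y := Nat.div_mul_le_self y s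

theorem lt_hi (y : ℕ) {s : ℕ} (hs : 0 < s) : y < (y / s + 1) * s := by
  rw [add_mul, one_mul]
  exact Nat.lt_div_mul_add hs

/-- The links of level `s` and type `i`. -/
def Lk (n m : ℕ) (x b : ℕ → ℕ) (lp rp : ℕ → ℕ → ℕ) (s i : ℕ) : Finset (ℕ × ℕ) :=
  (links n m x b lp rp).filter fun p => x p.1 / s < lp (p.1 + 1) p.2 / s ∧
    lp (p.1 + 1) p.2 / s < p.2 / s ∧ p.2 / s < b p.1 / s ∧
    (i = 0 ∧ p.2 / s = lp (p.1 + 1) p.2 / s + 1 ∨ i = 1 ∧ lp (p.1 + 1) p.2 / s = x p.1 / s + 1 ∨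
      i = 2 ∧ b p.1 / s = p.2 / s + 1)

theorem same (R : Run n m k x b c lp rp) {t t' s : ℕ} (ht : t < m) (ht' : t' < m) (e : c t = c t')
    (e2 : x t / s + b t / s = x t' / s + b t' / s) : x t / s = x t' / s ∧ b t / s = b t' / s := by
  rcases le_total t t' with h | h
  · have a1 : x t / s ≤ x t' / s := Nat.div_le_div_right (R.dn t t' h ht' e.ge)
    have a2 : b t / s ≤ b t' / s := Nat.div_le_div_right (R.bmono t t' h ht' e)
    omega
  · have a1 : x t' / s ≤ x t / s := Nat.div_le_div_right (R.dn t' t h ht e.le)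
    have a2 : b t' / s ≤ b t / s := Nat.div_le_div_right (R.bmono t' t h ht e.symm)
    omega

theorem bound_Lk (hF : S_FIBER) (R : Run n m k x b c lp rp) {s : ℕ} (hs : 0 < s) (i : ℕ) {θ : ℕ}
    (hθ : 0 < θ) : ((Lk n m x b lp rp s i).card : ℝ) ≤
      (∑ t ∈ range m, (rgtPath n (x t) (lp t)).card : ℕ) * (1 / θ) +
      2 * (spanSet n m k x b c).card * (θ / s) +
      2 * ((spanSet n m k x b c).card + m) * min 1 ((k : ℝ) / s) := by
  have M : ∀ {a a' : ℕ}, a ≤ a' → a * s ≤ a' * s := fun h => Nat.mul_le_mul_right s h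
  have hadm : ∀ p ∈ Lk n m x b lp rp s i, ∀ H j, x p.1 / s < H → H < b p.1 / s → j < 2 →
      ((c p.1, H), j) ∈ adm n m k x b c s ×ˢ range 2 := fun p hp H j h1 h2 h3 => by
    have a := link R (mem_filter.1 hp).1
    have := Nat.div_le_self (b p.1) s
    simp only [adm, mem_product, mem_filter, mem_range]
    exact ⟨⟨⟨a.2.2.2.2.2.2.2.2, by omega⟩, p.1, a.1, rfl, (lt_hi _ hs).trans_le (M h1),
      (M h2).trans (lo_le _ _)⟩, h3⟩
  by_cases hi : i = 0
  · refine bound hF R (filter_subset _ _) (q := fun p => (p.2 / s - 1) * s)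
      (h := fun p => p.2 / s * s) (e := fun p => (p.2 / s + 1) * s) (fun p hp => ?_) hs
      (κ := fun p => ((c p.1, p.2 / s), 0)) (fun p hp => ?_) (fun p _ p' _ e1 => ?_)
      (fun p _ p' _ _ y h1 h2 h3 h4 => ?_) (Or.inl fun p _ => ?_) hθ
    · have a := (mem_filter.1 hp).2
      have := Nat.zero_le (x p.1 / s)
      exact ⟨(lt_hi _ hs).trans_le (M (by omega)), (M (by omega)).trans (lo_le _ s),
        (lt_hi _ hs).trans_le (M (by omega)), lo_le _ _, lt_hi _ hs,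
        (M (by omega)).trans (lo_le _ s)⟩
    · have a := (mem_filter.1 hp).2
      exact hadm p hp _ _ (by omega) (by omega) two_pos
    · simp only [Prod.mk.injEq, and_true] at e1
      simp only [e1.1, e1.2, and_self]
    · rw [← Nat.div_eq_of_lt_le h1 h2, Nat.div_eq_of_lt_le h3 h4]
    · rw [add_mul]
      omega
  · refine bound hF R (filter_subset _ _) (q := fun p => (x p.1 / s + 1) * s)
      (h := fun p => (if i = 1 then x p.1 / s + 2 else b p.1 / s - 1) * s)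
      (e := fun p => b p.1 / s * s) (fun p hp => ?_) hs
      (κ := fun p => ((c p.1, (x p.1 / s + b p.1 / s) / 2), (x p.1 / s + b p.1 / s) % 2))
      (fun p hp => ?_) (fun p hp p' hp' e1 => ?_)
      (fun p _ p' _ e1 y _ _ _ _ => by rw [e1]) (Or.inr fun p _ p' _ e1 => by rw [e1]) hθ
    · have a := (mem_filter.1 hp).2
      have := Nat.zero_le (x p.1 / s)
      refine ⟨lt_hi _ hs, (M (by omega)).trans (lo_le _ s), (lt_hi _ hs).trans_le (M ?_),
        (M ?_).trans (lo_le _ s), (lt_hi _ hs).trans_le (M (by omega)), lo_le _ s⟩ <;>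
        split_ifs <;> omega
    · have a := (mem_filter.1 hp).2
      exact hadm p hp _ _ (by omega) (by omega) (by omega)
    · simp only [Prod.mk.injEq] at e1
      obtain ⟨e2, e3⟩ := same R (s := s) (link R (mem_filter.1 hp).1).1
        (link R (mem_filter.1 hp').1).1 e1.1.1 (by omega)
      simp only [e1.1.1, e2, e3, and_self]

end CountA

open CountA in
theorem p_COUNT (hF : S_FIBER) : S_COUNT := by
  refine ⟨25000, fun n m k x b c lp rp R => ?_⟩
  have h1 : links n m x b lp rp ⊆ (range (n + 1)).biUnion fun l =>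
      (range 3).biUnion fun i => Lk n m x b lp rp (2 ^ l) i := fun p hp => by
    have a := link R hp
    obtain ⟨l, hl, b1, b2, b3, b4⟩ := level (b p.1) (x p.1) (lp (p.1 + 1) p.2) p.2 (by omega)
      (by omega) (by omega)
    simp only [mem_biUnion, mem_range, Lk, mem_filter]
    refine ⟨l, by omega, ?_⟩
    rcases b4 with h | h | h
    · exact ⟨0, by omega, hp, b1, b2, b3, by omega⟩
    · exact ⟨1, by omega, hp, b1, b2, b3, by omega⟩
    · exact ⟨2, by omega, hp, b1, b2, b3, by omega⟩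
  have h2 : (links n m x b lp rp).card ≤ ∑ l ∈ range (n + 1), ∑ i ∈ range 3,
      (Lk n m x b lp rp (2 ^ l) i).card :=
    (card_le_card h1).trans (card_biUnion_le.trans (sum_le_sum fun l _ => card_biUnion_le))
  have h3 := fun l i => bound_Lk hF R (s := 2 ^ l) (by positivity) i
    (θ := 16 * ((l + 1) * (l + 2))) (by positivity)
  generalize (spanSet n m k x b c).card = W at *
  generalize ∑ t ∈ range m, (rgtPath n (x t) (lp t)).card = Y at *
  have h4 : ((links n m x b lp rp).card : ℝ) ≤ ∑ l ∈ range (n + 1),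
      (3 * Y / 16 * ((1 : ℝ) / ((l + 1) * (l + 2))) + 96 * W * (((l : ℝ) + 1) * (l + 2) / 2 ^ l) +
        6 * (W + m) * min 1 ((k : ℝ) / 2 ^ l)) := by
    refine le_trans (by exact_mod_cast h2) (sum_le_sum (f := fun l => ∑ i ∈ range 3,
      ((Lk n m x b lp rp (2 ^ l) i).card : ℝ)) fun l _ => ?_)
    refine (sum_le_sum fun i _ => h3 l i).trans (le_of_eq ?_)
    rw [sum_const, card_range, nsmul_eq_mul]
    push_cast
    field_simp
    ring
  rw [sum_add_distrib, sum_add_distrib, ← mul_sum, ← mul_sum, ← mul_sum, sum1, sum2] at h4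
  have h5 := sum3 (Nat.cast_nonneg k) (j := Nat.size k)
    (by exact_mod_cast (Nat.lt_size_self k).le) (n + 1)
  have h6 : ((min (n + 1) (Nat.size k) : ℕ) : ℝ) ≤ Nat.size k := by exact_mod_cast min_le_right _ _
  have h7 : (0 : ℝ) ≤ min 1 ((k : ℝ) / 2 ^ (n + 1)) := by positivity
  have h8 : 6 * ((W : ℝ) + m) * ∑ l ∈ range (n + 1), min 1 ((k : ℝ) / 2 ^ l) ≤
      6 * (W + m) * (Nat.size k + 2) := by gcongr; linarith
  have h9 : (0 : ℝ) ≤ 3 * Y / 16 * (1 / ((n + 1 : ℕ) + 1)) := by positivity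
  have h10 : (0 : ℝ) ≤ 96 * W * ((2 * (n + 1 : ℕ) ^ 2 + 10 * (n + 1 : ℕ) + 16) / 2 ^ (n + 1)) := by
    positivity
  have h11 : (0 : ℝ) ≤ Nat.size k * (W + m) := by positivity
  have h12 : (16 * (links n m x b lp rp).card : ℝ) ≤
      3 * Y + 25000 * (Nat.size k + 1) * (W + m) := by
    have := Nat.cast_nonneg (α := ℝ) W
    have := Nat.cast_nonneg (α := ℝ) m
    nlinarith
  exact_mod_cast h12

end Pool.Agent.P.MP_119182_lc
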