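import Pool.Agent.P.MP_119182_lc.Struct

/-! A potential for blocks cut at the keys that are still to be accessed, and mirror images. -/

set_option autoImplicit false

namespace Pool.Agent.P.MP_119182_lc.Dyn

open Finset

variable (σ : ℕ → ℕ)

/-- One if `a` and `b` lie in different blocks. -/
def ee (a b : ℕ) : ℕ := if σ a = σ b then 0 else 1

/-- The potential of a tree. -/
def pt : BT → ℕ → ℕ → ℕ
  | BT.nil, _, _ => 0
  | BT.node l k r, a, b => 4 * ee σ a k + 2 * ee σ k b + pt l a k + pt r k b

/-- The potential of a context. -/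
def cx (c d : ℕ) : List Fr → ℕ
  | [] => 0
  | Fr.lft a y :: π => 4 * ee σ (cL c π) y + 2 * ee σ y (cH d π) + pt σ a (cL c π) y + cx c d π
  | Fr.rgt y b :: π => 4 * ee σ (cL c π) y + 2 * ee σ y (cH d π) + pt σ b y (cH d π) + cx c d π

/-- Left ancestors outside the block of `x`. -/
def nl (x : ℕ) : List Fr → ℕ
  | [] => 0
  | Fr.lft _ y :: π => ee σ y x + nl x π
  | Fr.rgt _ _ :: π => nl x π

/-- Right links between different blocks. -/
def xr : List Fr → ℕ
  | Fr.rgt p _ :: Fr.rgt g _ :: π => ee σ p g + xr π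
  | _ :: _ :: π => xr π
  | _ => 0

theorem pt_plug (c d : ℕ) : ∀ (π : List Fr) (t : BT),
    pt σ (plug t π) c d = pt σ t (cL c π) (cH d π) + cx σ c d π
  | [], _ => rfl
  | Fr.lft a y :: π, t => by
    rw [plug, pt_plug c d π]; simp only [ap, pt, cx, cL, cH]; omega
  | Fr.rgt y b :: π, t => by
    rw [plug, pt_plug c d π]; simp only [ap, pt, cx, cL, cH]; omega

theorem ee_le (a b : ℕ) : ee σ a b ≤ 1 := by unfold ee; split_ifs <;> omega

theorem pt_le : ∀ (t : BT) (a b : ℕ), pt σ t a b ≤ t.keys.length * 6
  | BT.nil, _, _ => by simp [pt]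
  | BT.node l k r, a, b => by
    have h1 := pt_le l a k
    have h2 := pt_le r k b
    have h3 := ee_le σ a k
    have h4 := ee_le σ k b
    simp only [pt, BT.keys, List.length_append, List.length_cons]
    omega

variable {σ}

theorem pt_mono {σ' : ℕ → ℕ} (h : ∀ a b, a < b → σ a = σ b → σ' a = σ' b) :
    ∀ {t : BT} {a b : ℕ}, Ord t a b → pt σ' t a b ≤ pt σ t a b
  | BT.nil, _, _, _ => le_rfl
  | BT.node l k r, a, b, o => by
    have h1 := pt_mono h o.1
    have h2 := pt_mono h o.2
    have h3 := h a k (Ord.lt o.1)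
    have h4 := h k b (Ord.lt o.2)
    simp only [pt, ee]
    split_ifs <;> omega

theorem tri (hσ : Antitone σ) {a b c : ℕ} (h1 : a < b) (h2 : b < c) :
    ee σ a b ≤ ee σ a c ∧ ee σ b c ≤ ee σ a c ∧ ee σ a c ≤ ee σ a b + ee σ b c := by
  have := hσ h1.le
  have := hσ h2.le
  unfold ee
  split_ifs <;> omega

theorem far (hσ : Antitone σ) {x a z : ℕ} (hx : ∀ z, x < z → σ z < σ x) (h1 : a ≤ x) (h2 : x < z) :
    ee σ a z = 1 := by
  have := hσ h1
  have := hx z h2
  exact if_neg (by omega)

theorem amort (hσ : Antitone σ) {x c d : ℕ} (hx : ∀ z, x < z → σ z < σ x) (l r : BT) (π : List Fr)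
    (h : Ord (plug (BT.node l x r) π) c d) :
    π.length + pt σ (splayUp x l r π) c d + 4 * ee σ (cL c π) x ≤
      pt σ l (cL c π) x + pt σ r x (cH d π) + cx σ c d π + 6 * nl σ x π + 2 * xr σ π + 11 := by
  fun_induction splayUp x l r π with
  | case1 l r =>
    have a3 := ee_le σ c x
    have a4 := ee_le σ x d
    simp only [pt, cx, cL, cH, nl, xr, List.length_nil]
    omega
  | case2 l r a p =>
    have t1 := tri hσ (Ord.lt h.2.1) (Ord.lt h.2.2)
    have a3 := ee_le σ c x
    have a4 := ee_le σ x d
    have a5 := ee_le σ p x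
    simp only [pt, cx, cL, cH, nl, xr, List.length_singleton]
    omega
  | case3 l r p b =>
    have t1 := tri hσ (Ord.lt h.1.1) (Ord.lt h.1.2)
    have a3 := ee_le σ c x
    have a4 := ee_le σ x d
    simp only [pt, cx, cL, cH, nl, xr, List.length_singleton]
    omega
  | case4 l r p b g e π ih =>
    have o := ord_hole π _ h
    have ih := ih (ord_repl π _ _ h (loc_RR l r b e o).ord)
    have o1 := Ord.lt o.1.1.1
    have o2 := Ord.lt o.1.1.2
    have o3 := Ord.lt o.1.2
    have a1 := tri hσ o1 o2
    have a2 := far hσ hx o1.le (o2.trans o3)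
    have a3 := ee_le σ p (cH d π)
    have a4 := ee_le σ p g
    simp only [pt, cx, cL, cH, nl, xr, List.length_cons] at ih ⊢
    omega
  | case5 l r b p a g π ih =>
    have o := ord_hole π _ h
    have ih := ih (ord_repl π _ _ h (loc_LL l r b a o).ord)
    have o1 := Ord.lt o.1
    have o2 := Ord.lt o.2.1
    have o3 := Ord.lt o.2.2.1
    have o4 := Ord.lt o.2.2.2
    have a1 := tri hσ o2 o3
    have a2 := tri hσ (o1.trans o2) o3
    have a3 := far hσ hx o3.le o4
    have a4 := far hσ hx (o2.trans o3).le o4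
    have a5 := ee_le σ g x
    have a6 := ee_le σ (cL c π) x
    simp only [pt, cx, cL, cH, nl, xr, List.length_cons] at ih ⊢
    omega
  | case6 l r p b a g π ih =>
    have o := ord_hole π _ h
    have ih := ih (ord_repl π _ _ h (loc_RL l r b a o).ord)
    have o1 := Ord.lt o.1
    have o2 := Ord.lt o.2.1.1
    have o3 := Ord.lt o.2.1.2
    have o4 := Ord.lt o.2.2
    have a1 := tri hσ o1 o2
    have a2 := tri hσ o2 o3
    have a4 := far hσ hx o2.le (o3.trans o4)
    simp only [pt, cx, cL, cH, nl, xr, List.length_cons] at ih ⊢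
    omega
  | case7 l r a p g e π ih =>
    have o := ord_hole π _ h
    have ih := ih (ord_repl π _ _ h (loc_LR l r a e o).ord)
    have o1 := Ord.lt o.1.1
    have o2 := Ord.lt o.1.2.1
    have o3 := Ord.lt o.1.2.2
    have a1 := tri hσ o1 o2
    have a2 := tri hσ (o1.trans o2) o3
    have a4 := far hσ hx o2.le o3
    simp only [pt, cx, cL, cH, nl, xr, List.length_cons] at ih ⊢
    omega

theorem nl_le {c d x : ℕ} : ∀ (π : List Fr) (t : BT), Ord (plug t π) c d →
    cL c π < x → nl σ x π ≤ (π.map key).countP fun y => y < x ∧ σ y ≠ σ x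
  | [], _, _, _ => by simp [nl]
  | f :: π, t, o, h => by
    have a := hole_le f π t o
    have ih := nl_le (x := x) π (ap f t) o (by omega)
    rw [List.map_cons, List.countP_cons]
    cases f with
    | rgt y b => simp only [nl]; omega
    | lft s y =>
      by_cases e : σ y = σ x
      · simp only [nl, ee, if_pos e]; omega
      · rw [if_pos (decide_eq_true ⟨h, e⟩)]; simp only [nl, ee, if_neg e]; omega

theorem xr_le {x c d : ℕ} (l r : BT) (π : List Fr) (h : Ord (plug (BT.node l x r) π) c d) :
    xr σ π ≤ (π.map key).countP fun y => x < y ∧ lo (splayUp x l r π) y c ≠ x ∧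
      σ (lo (splayUp x l r π) y c) ≠ σ y := by
  fun_induction splayUp x l r π with
  | case1 l r => simp [xr]
  | case2 l r a p => simp [xr]
  | case3 l r p b => simp [xr]
  | case4 l r p b g e π ih =>
    have o := ord_hole π _ h
    have h1 := ord_repl π _ _ h (loc_RR l r b e o).ord
    have ih := ih h1
    obtain ⟨_, -, f⟩ := facts_splay _ _ π h1
    have o1 := Ord.lt o.1.1.1
    have o2 := Ord.lt o.1.1.2
    have o3 := Ord.lt o.1.2
    have o4 := Ord.lt o.2
    have rg := hole_rng π _ h1
    have v := (f.off g (by omega) (by omega) (by omega) fun hm => by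
      have := key_out π _ h1 hm
      omega).1
    rw [(plug_in (y := g) π _ h1 (by omega) o4).1] at v
    have n1 : ¬ g < x := by omega
    have n2 : ¬ g < p := by omega
    simp only [lo, n1, n2, o2.trans o3, o3, if_true, if_false, lt_irrefl] at v
    simp only [List.map_cons, List.countP_cons, key, xr, v, ee, decide_eq_true_eq]
    split_ifs <;> omega
  | case5 l r b p a g π ih =>
    have ih := ih (ord_repl π _ _ h (loc_LL l r b a (ord_hole π _ h)).ord)
    simp only [List.map_cons, List.countP_cons, xr]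
    omega
  | case6 l r p b a g π ih =>
    have ih := ih (ord_repl π _ _ h (loc_RL l r b a (ord_hole π _ h)).ord)
    simp only [List.map_cons, List.countP_cons, xr]
    omega
  | case7 l r a p g e π ih =>
    have ih := ih (ord_repl π _ _ h (loc_LR l r a e (ord_hole π _ h)).ord)
    simp only [List.map_cons, List.countP_cons, xr]
    omega

/-- All right ancestors have their left parent at or above `μ`. -/
def ok (μ c : ℕ) : List Fr → Prop
  | [] => True
  | Fr.lft _ _ :: π => ok μ c π
  | Fr.rgt _ _ :: π => μ ≤ cL c π ∧ ok μ c π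

theorem ok_of {c d x μ : ℕ} (T : BT) : ∀ (π : List Fr) (t : BT), T = plug t π → Ord T c d →
    x < cH d π → (∀ y ∈ π.map key, x < y → μ ≤ lo T y c) → ok μ c π
  | [], _, _, _, _, _ => trivial
  | f :: π, t, e, o, h, hy => by
    have a := hole_le f π t (e ▸ o)
    have ih := ok_of (x := x) T π (ap f t) e o (by omega) fun y h => hy y (by
      rw [List.map_cons]; exact List.mem_cons_of_mem _ h)
    have v := (head_val f π t (e ▸ o)).1
    rw [← e] at v
    cases f with
    | lft s y => exact ih
    | rgt y b => exact ⟨v ▸ hy y (by simp [key]) h, ih⟩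

theorem rcount {x c d μ : ℕ} (hσ : ∀ p g, x < p → p < g → g < d → σ p ≠ σ g) (l r : BT)
    (π : List Fr) (h : Ord (plug (BT.node l x r) π) c d) (k : ok μ c π) :
    (π.map key).countP (fun y => x < y) ≤
      2 * xr σ π + (π.map key).countP (fun y => μ ≤ y ∧ y < x) + 1 := by
  fun_induction splayUp x l r π with
  | case1 l r => simp
  | case2 l r a p => exact List.countP_le_length.trans (by simp)
  | case3 l r p b => exact List.countP_le_length.trans (by simp)
  | case4 l r p b g e π ih =>
    have o := ord_hole π _ h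
    have ih := ih (ord_repl π _ _ h (loc_RR l r b e o).ord) k.2.2
    have := hσ p g (Ord.lt o.1.1.2) (Ord.lt o.1.2) ((Ord.lt o.2).trans_le (hole_rng π _ h).2)
    simp only [List.map_cons, List.countP_cons, xr, ee, if_neg this]
    split_ifs <;> omega
  | case5 l r b p a g π ih =>
    have o := ord_hole π _ h
    have ih := ih (ord_repl π _ _ h (loc_LL l r b a o).ord) k
    have o2 := Ord.lt o.2.1
    have o3 := Ord.lt o.2.2.1
    simp only [List.map_cons, List.countP_cons, xr, key, decide_eq_true_eq]
    split_ifs <;> omega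
  | case6 l r p b a g π ih =>
    have o := ord_hole π _ h
    have ih := ih (ord_repl π _ _ h (loc_RL l r b a o).ord) k.2
    have o2 := Ord.lt o.2.1.1
    have k1 : μ ≤ g := k.1
    simp only [List.map_cons, List.countP_cons, xr, key, decide_eq_true_eq]
    split_ifs <;> omega
  | case7 l r a p g e π ih =>
    have o := ord_hole π _ h
    have ih := ih (ord_repl π _ _ h (loc_LR l r a e o).ord) k.2
    have o1 := Ord.lt o.1.1
    have o2 := Ord.lt o.1.2.1
    have k1 := k.1
    simp only [List.map_cons, List.countP_cons, xr, key, decide_eq_true_eq]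
    split_ifs <;> omega

variable {n x : ℕ} {T : BT}

theorem xr_card {l r : BT} {π : List Fr} (o : Ord (plug (BT.node l x r) π) 0 (n + 1))
    (hk : ∀ y, y ∈ π.map key ↔ y ∈ Icc 1 n ∧ y ≠ x ∧ lpar T y < x ∧ x < rpar n T y) :
    xr σ π ≤ ((Icc 1 n).filter fun u => x < u ∧ lpar T u < x ∧ lpar (splayUp x l r π) u ≠ x ∧
      σ (lpar (splayUp x l r π) u) ≠ σ u).card := by
  refine (xr_le l r π o).trans_eq (card_eq_countP _ (nodup_key π _ o) _ _ fun y => ?_).symm
  rw [hk, mem_Icc]
  have : y ≤ n → y < rpar n T y := fun h => lt_hi T y _ (by omega)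
  unfold lpar at *
  omega

/-- The amortized cost of one access. -/
theorem dyn (hσ : Antitone σ) (hx : ∀ z, x < z → σ z < σ x) (hT : T.keys = List.range' 1 n)
    (h1 : 1 ≤ x) (h2 : x ≤ n) :
    (access T x).2 + pt σ (access T x).1 0 (n + 1) ≤ pt σ T 0 (n + 1) +
      (6 * ((lftPath n x (rpar n T)).filter fun y => σ y ≠ σ x).card +
      2 * ((Icc 1 n).filter fun u => x < u ∧ lpar T u < x ∧ lpar (access T x).1 u ≠ x ∧
        σ (lpar (access T x).1 u) ≠ σ u).card + 12) := by
  have o := ord_of_keys hT
  obtain ⟨l, r, π, e1, e2, hk⟩ := access_zip hT h1 h2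
  have o' : Ord (plug (BT.node l x r) π) 0 (n + 1) := e1 ▸ o
  have a1 := amort hσ hx l r π o'
  have a2 := nl_le (σ := σ) (x := x) π _ o' (Ord.lt (ord_hole π _ o').1)
  have a3 := xr_card (σ := σ) o' hk
  have a4 := pt_plug σ 0 (n + 1) π (BT.node l x r)
  rw [← e1] at a4
  have c1 : ((lftPath n x (rpar n T)).filter fun y => σ y ≠ σ x).card =
      (π.map key).countP fun y => y < x ∧ σ y ≠ σ x := by
    unfold lftPath
    rw [filter_filter]
    refine card_eq_countP _ (nodup_key π _ o') _ _ fun y => ?_
    rw [hk, mem_Icc]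
    have : 1 ≤ y → lpar T y < y := fun h => lo_lt T y 0 h
    omega
  rw [e2]
  simp only [pt] at a4 ⊢
  rw [c1]
  omega

theorem rgt_le {μ : ℕ} (hσ : ∀ p g, x < p → p < g → g < n + 1 → σ p ≠ σ g)
    (hT : T.keys = List.range' 1 n) (h1 : 1 ≤ x) (h2 : x ≤ n)
    (h : ∀ u ∈ rgtPath n x (lpar T), μ ≤ lpar T u) :
    (rgtPath n x (lpar T)).card ≤
      2 * ((Icc 1 n).filter fun u => x < u ∧ lpar T u < x ∧ lpar (access T x).1 u ≠ x ∧
        σ (lpar (access T x).1 u) ≠ σ u).card + (x - μ) + 1 := by
  have o := ord_of_keys hT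
  obtain ⟨l, r, π, e1, e2, hk⟩ := access_zip hT h1 h2
  have o' : Ord (plug (BT.node l x r) π) 0 (n + 1) := e1 ▸ o
  have nd := nodup_key π _ o'
  have a1 := rcount hσ l r π o' (ok_of (x := x) T π _ e1 o (Ord.lt (ord_hole π _ o').2)
    fun y hy hx => h y (mem_filter.2 ⟨((hk y).1 hy).1, hx, ((hk y).1 hy).2.2.1⟩))
  have a3 := xr_card (σ := σ) o' hk
  have cR : (rgtPath n x (lpar T)).card = (π.map key).countP (fun y => x < y) := by
    refine card_eq_countP _ nd _ _ fun y => ?_
    rw [hk, mem_Icc]
    have : y ≤ n → y < rpar n T y := fun h => lt_hi T y _ (by omega)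
    omega
  have c2 : (π.map key).countP (fun y => μ ≤ y ∧ y < x) ≤ x - μ := by
    rw [List.countP_eq_length_filter, ← List.toFinset_card_of_nodup (nd.filter _), ← Nat.card_Ico]
    exact card_le_card fun y hy => by simpa using (List.mem_filter.1 (List.mem_toFinset.1 hy)).2
  rw [e2, cR]
  simp only []
  omega

/-! ### Mirror images -/

/-- The mirror image of a tree. -/
def mir (N : ℕ) : BT → BT
  | BT.nil => BT.nil
  | BT.node l k r => BT.node (mir N r) (N - k) (mir N l)

/-- The mirror image of a frame. -/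
def mf (N : ℕ) : Fr → Fr
  | Fr.lft a y => Fr.rgt (N - y) (mir N a)
  | Fr.rgt y b => Fr.lft (mir N b) (N - y)

theorem splay_mir (N x : ℕ) (l r : BT) (π : List Fr) :
    splayUp (N - x) (mir N r) (mir N l) (π.map (mf N)) = mir N (splayUp x l r π) := by
  fun_induction splayUp x l r π with
  | case1 l r => rfl
  | case2 l r a p => rfl
  | case3 l r p b => rfl
  | case4 l r p b g e π ih => exact ih
  | case5 l r b p a g π ih => exact ih
  | case6 l r p b a g π ih => exact ih
  | case7 l r a p g e π ih => exact ih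

theorem find_mir {N x : ℕ} (hx : x ≤ N) : ∀ (t : BT) (π : List Fr), (∀ k ∈ t.keys, k ≤ N) →
    find (N - x) (mir N t) (π.map (mf N)) =
      (find x t π).map fun z => (mir N z.2.1, mir N z.1, z.2.2.map (mf N))
  | BT.nil, _, _ => rfl
  | BT.node l k r, π, h => by
    have hk := h k (by simp [BT.keys])
    have a := find_mir hx l (Fr.rgt k r :: π) fun y hy => h y (by simp [BT.keys, hy])
    have b := find_mir hx r (Fr.lft l k :: π) fun y hy => h y (by simp [BT.keys, hy])
    simp only [mir, find]
    rcases lt_trichotomy x k with e | e | e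
    · rw [if_neg (by omega), if_pos (by omega), if_pos e]; exact a
    · rw [if_neg (by omega), if_neg (by omega), if_neg (by omega), if_neg (by omega)]; rfl
    · rw [if_pos (by omega), if_neg (by omega), if_pos e]; exact b

theorem key_le (hT : T.keys = List.range' 1 n) : ∀ k ∈ T.keys, k ≤ n + 1 := fun k hk => by
  rw [hT, List.mem_range'_1] at hk
  omega

theorem access_mir (hT : T.keys = List.range' 1 n) (hx : x ≤ n) :
    access (mir (n + 1) T) (n + 1 - x) = (mir (n + 1) (access T x).1, (access T x).2) := by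
  have := find_mir (N := n + 1) (x := x) (by omega) T [] (key_le hT)
  rw [List.map_nil] at this
  unfold access
  rw [this]
  rcases find x T [] with _ | ⟨l, r, π⟩
  · rfl
  · simp only [Option.map_some, splay_mir, List.length_map]

theorem keys_mir (N : ℕ) : ∀ t : BT, (mir N t).keys = (t.keys.map (N - ·)).reverse
  | BT.nil => rfl
  | BT.node l k r => by simp [mir, BT.keys, keys_mir N l, keys_mir N r]

theorem keys_mir' (hT : T.keys = List.range' 1 n) : (mir (n + 1) T).keys = List.range' 1 n := by
  rw [keys_mir, hT]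
  refine List.ext_getElem (by simp) fun i h1 h2 => ?_
  simp only [List.length_range'] at h2
  simp only [List.getElem_reverse, List.getElem_map, List.getElem_range', List.length_map,
    List.length_range']
  omega

theorem lo_mir {N y : ℕ} (hy : y ≤ N) : ∀ (t : BT) (d : ℕ), (∀ k ∈ t.keys, k ≤ N) →
    lo (mir N t) (N - y) (N - d) = N - hi t y d
  | BT.nil, _, _ => rfl
  | BT.node l k r, d, h => by
    have hk := h k (by simp [BT.keys])
    have a := lo_mir hy l k fun y hy => h y (by simp [BT.keys, hy])
    have b := lo_mir hy r d fun y hy => h y (by simp [BT.keys, hy])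
    simp only [mir, lo, hi]
    rcases lt_trichotomy y k with e | e | e
    · rw [if_neg (by omega), if_pos (by omega), if_pos e]; exact a
    · rw [if_neg (by omega), if_neg (by omega), if_neg (by omega), if_neg (by omega)]
    · rw [if_pos (by omega), if_neg (by omega), if_pos e]; exact b

theorem lpar_mir (hT : T.keys = List.range' 1 n) {y : ℕ} (hy : y ≤ n + 1) :
    lpar (mir (n + 1) T) (n + 1 - y) = n + 1 - rpar n T y := by
  have := lo_mir hy T (n + 1) (key_le hT)
  rwa [Nat.sub_self] at this

theorem lft_card (hT : T.keys = List.range' 1 n) (hx : x ≤ n) :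
    (lftPath n x (rpar n T)).card ≤ (rgtPath n (n + 1 - x) (lpar (mir (n + 1) T))).card := by
  refine card_le_card_of_injOn (n + 1 - ·) (fun y hy => ?_) fun y hy z hz e => ?_
  · simp only [lftPath, rgtPath, coe_filter, mem_Icc, Set.mem_ofPred_eq] at hy ⊢
    rw [lpar_mir hT (by omega)]
    omega
  · simp only [lftPath, coe_filter, mem_Icc, Set.mem_ofPred_eq] at hy hz e
    omega

end Pool.Agent.P.MP_119182_lc.Dyn
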