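import Pool.Agent.P.MP_119182_lc.Iface

set_option autoImplicit false

namespace Pool.Agent.P.MP_119182_lc

open Finset

namespace FiberA

/-- Everything known about a pair of the fibre. -/
structure G (n m : ℕ) (x b c : ℕ → ℕ) (lp rp : ℕ → ℕ → ℕ) (j q h e t u : ℕ) : Prop where
  tm : t < m
  u1 : 1 ≤ u
  un : u ≤ n
  xu : x t < u
  lx : lp t u < x t
  ne : lp (t + 1) u ≠ x t
  rb : rp t u ≤ b t
  cj : c t = j
  xq : x t < q
  ql : q ≤ lp (t + 1) u
  lh : lp (t + 1) u < h
  hu : h ≤ u
  ue : u < e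
  eb : e ≤ b t

variable {n m k : ℕ} {x b c : ℕ → ℕ} {lp rp : ℕ → ℕ → ℕ} {j q h e : ℕ}

theorem dich (R : Run n m k x b c lp rp) {t u t' u' s : ℕ}
    (H : G n m x b c lp rp j q h e t u) (H' : G n m x b c lp rp j q h e t' u')
    (h1 : t ≤ s) (h2 : s ≤ t') : x s < q ∨ b t ≤ x s := by
  by_cases hc : c t' ≤ c s
  · left
    exact lt_of_le_of_lt (R.dn s t' h2 H'.tm hc) H'.xq
  · right
    refine R.up t s h1 (lt_of_le_of_lt h2 H'.tm) ?_
    have := H.cj
    have := H'.cj
    omega

theorem frozen (R : Run n m k x b c lp rp) {t u t' u' : ℕ}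
    (H : G n m x b c lp rp j q h e t u) (H' : G n m x b c lp rp j q h e t' u') :
    ∀ s, t + 1 ≤ s → s ≤ t' → lp s u = lp (t + 1) u ∧ rp s u = rp t u := by
  intro s hs
  induction s, hs using Nat.le_induction with
  | base =>
    intro _
    exact ⟨rfl, ((R.step t H.tm).los u H.xu H.un H.lx H.ne).2.2.2.2⟩
  | succ s hs ih =>
    intro h2
    obtain ⟨i1, i2⟩ := ih (by omega)
    have hsm : s < m := by have := H'.tm; omega
    have hd := dich R H H' (s := s) (by omega) (by omega)
    have a1 := H.ql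
    have a2 := H.lh
    have a3 := H.hu
    have a4 := H.ue
    have a5 := H.eb
    have a6 := H.rb
    have := (R.step s hsm).off u H.u1 H.un (by omega) (by omega)
    exact ⟨this.1.trans i1, this.2.trans i2⟩

theorem not_lt_time (R : Run n m k x b c lp rp) {t t' u : ℕ}
    (H : G n m x b c lp rp j q h e t u) (H' : G n m x b c lp rp j q h e t' u) : ¬ t < t' := by
  intro hlt
  have h1 := (frozen R H H' t' hlt le_rfl).1
  have := H.ql
  have := H'.lx
  have := H'.xq
  omega

theorem time_eq (R : Run n m k x b c lp rp) {t t' u : ℕ}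
    (H : G n m x b c lp rp j q h e t u) (H' : G n m x b c lp rp j q h e t' u) : t = t' := by
  have := not_lt_time R H H'
  have := not_lt_time R H' H
  omega

theorem low_mem (R : Run n m k x b c lp rp) {t u y : ℕ}
    (H : G n m x b c lp rp j q h e t u) (y1 : 1 ≤ y) (yn : y ≤ n) (hy : h ≤ y)
    (hl : lp t y < q) : y ∈ rgtPath n (x t) (lp t) := by
  have a1 := H.ql
  have a2 := H.lh
  have a3 := H.xq
  have h1 := ((R.step t H.tm).lam y (lp (t + 1) u) y1 yn (by omega) (by omega)).1
  have h2 := ((R.step t H.tm).los u H.xu H.un H.lx H.ne).2.2.1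
  simp only [rgtPath, mem_filter, mem_Icc]
  exact ⟨⟨y1, yn⟩, by omega, by omega⟩

/-- `s` is the first time from `t1` on at which the left parent of `y` drops below `q`. -/
structure D (lp : ℕ → ℕ → ℕ) (q t1 t y s : ℕ) : Prop where
  lo : t1 ≤ s
  hi : s < t
  drop : lp (s + 1) y < q
  before : ∀ r, t1 ≤ r → r ≤ s → q ≤ lp r y

theorem exists_D {t1 t y : ℕ} (H : G n m x b c lp rp j q h e t y) (h1 : t1 ≤ t)
    (hq : q ≤ lp t1 y) : ∃ s, D lp q t1 t y s := by
  classical
  have a1 := H.lx
  have a2 := H.xq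
  have hne : t1 ≠ t := by
    rintro rfl
    omega
  have hex : ∃ s, t1 ≤ s ∧ lp (s + 1) y < q := by
    refine ⟨t - 1, by omega, ?_⟩
    have : t - 1 + 1 = t := by omega
    rw [this]
    omega
  have hle : Nat.find hex ≤ t - 1 := by
    refine Nat.find_min' hex ⟨by omega, ?_⟩
    have : t - 1 + 1 = t := by omega
    rw [this]
    omega
  refine ⟨Nat.find hex, (Nat.find_spec hex).1, by omega, (Nat.find_spec hex).2, ?_⟩
  intro r hr1 hr2
  rcases Nat.eq_or_lt_of_le hr1 with rfl | hlt
  · exact hq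
  · have hm := Nat.find_min hex (m := r - 1) (by omega)
    have : r - 1 + 1 = r := by omega
    rw [this] at hm
    by_contra hcon
    exact hm ⟨by omega, by omega⟩

theorem D_high (R : Run n m k x b c lp rp) {t1 u1 t y s : ℕ}
    (H1 : G n m x b c lp rp j q h e t1 u1) (H : G n m x b c lp rp j q h e t y)
    (hD : D lp q t1 t y s) : e ≤ x s ∧ x s < rp s y := by
  have hsm : s < m := lt_trans hD.hi H.tm
  have hd := dich R H1 H hD.lo hD.hi.le
  have a1 := H.ql
  have a2 := H.lh
  have a3 := H.hu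
  have a4 := H.ue
  have a5 := H1.eb
  have a6 := hD.drop
  have a7 := hD.before s hD.lo le_rfl
  have hoff := (R.step s hsm).off y H.u1 H.un
  by_cases hp : lp s y < x s ∧ x s < rp s y
  · exact ⟨by omega, hp.2⟩
  · have := (hoff (by omega) hp).1
    omega

theorem D_same (R : Run n m k x b c lp rp) {t1 u1 t y t' z s : ℕ}
    (H1 : G n m x b c lp rp j q h e t1 u1) (H : G n m x b c lp rp j q h e t y)
    (H' : G n m x b c lp rp j q h e t' z)
    (hD : D lp q t1 t y s) (hD' : D lp q t1 t' z s) : ¬ y < z := by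
  intro hlt
  have hsm : s < m := lt_trans hD.hi H.tm
  obtain ⟨b1, b2⟩ := D_high R H1 H hD
  obtain ⟨-, b3⟩ := D_high R H1 H' hD'
  have a4 := H'.ue
  have := (R.step s hsm).mono y z H.u1 hlt (by omega) b2 b3
  have a6 := hD'.drop
  have a7 := hD.before s hD.lo le_rfl
  omega

theorem D_lt (R : Run n m k x b c lp rp) {t1 u1 t y t' z s s' : ℕ}
    (H1 : G n m x b c lp rp j q h e t1 u1) (H : G n m x b c lp rp j q h e t y)
    (H' : G n m x b c lp rp j q h e t' z)
    (hD : D lp q t1 t y s) (hD' : D lp q t1 t' z s') (hc : c s = c s') : ¬ s < s' := by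
  intro hlt
  have hsm : s < m := lt_trans hD.hi H.tm
  have hsm' : s' < m := lt_trans hD'.hi H'.tm
  obtain ⟨b1, -⟩ := D_high R H1 H hD
  obtain ⟨-, b3⟩ := D_high R H1 H' hD'
  have a1 := H'.ql
  have a2 := H'.lh
  have a3 := H'.hu
  have a4 := H'.ue
  have a5 := H1.eb
  have a8 := hD.lo
  have a9 := hD'.hi
  have key : ∀ r, s + 1 ≤ r → r ≤ s' → rp r z ≤ x s := by
    intro r hr
    induction r, hr using Nat.le_induction with
    | base =>
      intro _
      exact (R.step s hsm).root z H'.u1 (by omega)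
    | succ r hr ih =>
      intro h2
      have i1 := ih (by omega)
      have hrm : r < m := by omega
      have hd := dich R H1 H' (s := r) (by omega) (by omega)
      have a7 := hD'.before r (by omega) (by omega)
      by_cases hp : lp r z < x r ∧ x r < rp r z
      · have := (R.step r hrm).root z H'.u1 (by omega)
        omega
      · have := ((R.step r hrm).off z H'.u1 H'.un (by omega) hp).2
        omega
  have k1 := key s' hlt le_rfl
  have k2 := R.dn s s' hlt.le hsm' hc.ge
  omega

end FiberA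

open FiberA in
theorem p_FIBER : S_FIBER := by
  classical
  intro n m k x b c lp rp R j q h e S hS hP
  have hG : ∀ p ∈ S, G n m x b c lp rp j q h e p.1 p.2 := by
    intro p hp
    have h1 := hS hp
    simp only [links, mem_filter, mem_product, mem_range, mem_Icc] at h1
    obtain ⟨⟨a1, a2, a3⟩, a4, a5, a6, a7⟩ := h1
    obtain ⟨b1, b2, b3, b4, b5, b6, b7⟩ := hP p hp
    exact ⟨a1, a2, a3, a4, a5, a6, a7, b1, b2, b3, b4, b5, b6, b7⟩
  have hinj : Set.InjOn (Prod.snd : ℕ × ℕ → ℕ) (S : Set (ℕ × ℕ)) := by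
    intro p hp p' hp' hpp
    have H := hG p hp
    have H' := hG p' hp'
    have hpp' : p.2 = p'.2 := hpp
    rw [← hpp'] at H'
    exact Prod.ext (time_eq R H H') hpp'
  refine ⟨?_, ?_⟩
  · rw [← Nat.card_Ico h e]
    refine card_le_card_of_injOn Prod.snd ?_ hinj
    intro p hp
    have H := hG p hp
    simp only [coe_Ico, Set.mem_Ico]
    exact ⟨H.hu, H.ue⟩
  · intro θ hθ
    rcases S.eq_empty_or_nonempty with rfl | hne
    · simp
    obtain ⟨p1, hp1, hmin⟩ := S.exists_min_image Prod.fst hne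
    have H1 := hG p1 hp1
    have hsplit := card_filter_add_card_filter_not (s := S) (fun p => lp p1.1 p.2 < q)
    have hA : (S.filter fun p => lp p1.1 p.2 < q).card ≤ θ := by
      refine le_trans ?_ (hθ p1 hp1)
      refine card_le_card_of_injOn Prod.snd ?_ (hinj.mono (coe_subset.2 (filter_subset _ _)))
      intro p hp
      have hp' := mem_filter.1 (mem_coe.1 hp)
      have H := hG p hp'.1
      exact mem_coe.2 (mem_filter.2 ⟨low_mem R H1 H.u1 H.un H.hu hp'.2, H.hu, H.ue⟩)
    have hex : ∀ p : ℕ × ℕ, ∃ s, p ∈ S → ¬ lp p1.1 p.2 < q → D lp q p1.1 p.1 p.2 s := by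
      intro p
      by_cases hp : p ∈ S ∧ ¬ lp p1.1 p.2 < q
      · obtain ⟨s, hs⟩ := exists_D (hG p hp.1) (hmin p hp.1) (not_lt.1 hp.2)
        exact ⟨s, fun _ _ => hs⟩
      · exact ⟨0, fun a b => absurd ⟨a, b⟩ hp⟩
    choose g hg using hex
    have hE : (S.filter fun p => ¬ lp p1.1 p.2 < q).card ≤ k := by
      rw [← card_range k]
      refine card_le_card_of_injOn (fun p => c (g p)) ?_ ?_
      · intro p hp
        have hp' := mem_filter.1 (mem_coe.1 hp)
        have hD := hg p hp'.1 hp'.2
        have H := hG p hp'.1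
        exact mem_coe.2 (mem_range.2 (R.rng _ (lt_trans hD.hi H.tm)).2.2.2)
      · intro p hp p' hp' hc
        have hq := mem_filter.1 (mem_coe.1 hp)
        have hq' := mem_filter.1 (mem_coe.1 hp')
        have hD := hg p hq.1 hq.2
        have hD' := hg p' hq'.1 hq'.2
        have H := hG p hq.1
        have H' := hG p' hq'.1
        have hc' : c (g p) = c (g p') := hc
        have e1 := D_lt R H1 H H' hD hD' hc'
        have e2 := D_lt R H1 H' H hD' hD hc'.symm
        have e3 : g p = g p' := by omega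
        rw [← e3] at hD'
        have e4 := D_same R H1 H H' hD hD'
        have e5 := D_same R H1 H' H hD' hD
        exact hinj hq.1 hq'.1 (by omega)
    omega

end Pool.Agent.P.MP_119182_lc
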