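import Pool.Agent.P.MP_119182_lc.Iface

set_option autoImplicit false

namespace Pool.Agent.P.MP_119182_lc

open Finset

namespace FingA

/-- Positions of the fingers. -/
def pos (x f u : ℕ → ℕ) : ℕ → ℕ → ℕ
  | 0 => u
  | t + 1 => Function.update (pos x f u t) (f t) (x t)

variable {x f u v : ℕ → ℕ} {n k m : ℕ}

theorem pos_succ (t j : ℕ) : pos x f u (t + 1) j = if j = f t then x t else pos x f u t j := by
  simp [pos, Function.update_apply]

theorem pos_inv (t j : ℕ) : pos x f u t j = u j ∨ ∃ s < t, f s = j ∧ pos x f u t j = x s := by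
  induction t with
  | zero => exact Or.inl rfl
  | succ t ih =>
    rw [pos_succ]
    split_ifs with h
    · exact Or.inr ⟨t, Nat.lt_succ_self t, h.symm, rfl⟩
    · rcases ih with ih | ⟨s, h1, h2, h3⟩
      · exact Or.inl ih
      · exact Or.inr ⟨s, h1.trans (Nat.lt_succ_self t), h2, h3⟩

/-- The fingers above the access. -/
def abv (x f u : ℕ → ℕ) (k t : ℕ) : Finset ℕ := (range k).filter fun i => x t < pos x f u t i

/-- The next finger above the access. -/
def nxt (x f u : ℕ → ℕ) (n k t : ℕ) : ℕ :=
  (insert (n + 1) ((abv x f u k t).image (pos x f u t))).min' (insert_nonempty _ _)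

theorem mem_abv {t i : ℕ} : i ∈ abv x f u k t ↔ i < k ∧ x t < pos x f u t i := by
  simp [abv]

theorem nxt_le (t : ℕ) : nxt x f u n k t ≤ n + 1 := min'_le _ _ (mem_insert_self _ _)

theorem nxt_le_pos {t i : ℕ} (h : i ∈ abv x f u k t) : nxt x f u n k t ≤ pos x f u t i :=
  min'_le _ _ (mem_insert_of_mem (mem_image_of_mem _ h))

theorem nxt_cases (t : ℕ) : nxt x f u n k t = n + 1 ∨
    ∃ i ∈ abv x f u k t, pos x f u t i = nxt x f u n k t := by
  have := min'_mem (insert (n + 1) ((abv x f u k t).image (pos x f u t))) (insert_nonempty _ _)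
  rcases mem_insert.1 this with h | h
  · exact Or.inl h
  · exact Or.inr (mem_image.1 h)

theorem lt_nxt {t : ℕ} (h : x t ≤ n) : x t < nxt x f u n k t := by
  rcases nxt_cases (x := x) (f := f) (u := u) (n := n) (k := k) t with h1 | ⟨i, h1, h2⟩
  · omega
  · rw [← h2]
    exact (mem_abv.1 h1).2

end FingA

open FingA in
theorem p_FING : S_FING := by
  intro n k m x f u v hx hf hs
  have hA : ∀ t < m, pos x f u t (f t) ≤ x t := fun t ht => by
    rcases pos_inv (x := x) (f := f) (u := u) t (f t) with h | ⟨s, h1, h2, h3⟩
    · rw [h]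
      exact (hf t ht).2.1
    · rw [h3]
      exact hs s t h1 ht h2
  have hB1 : ∀ t < m, ∀ j, pos x f u t j ≤ pos x f u (t + 1) j := fun t ht j => by
    rw [pos_succ]
    split_ifs with h
    · rw [h]
      exact hA t ht
    · exact le_rfl
  have hB : ∀ s t, s ≤ t → t ≤ m → ∀ j, pos x f u s j ≤ pos x f u t j := fun s t hst => by
    induction t, hst using Nat.le_induction with
    | base => exact fun _ _ => le_rfl
    | succ t _ ih => exact fun ht j => (ih (by omega) j).trans (hB1 t (by omega) j)
  have hC : ∀ j, pos x f u m j - u j ≤ v j - u j := fun j => by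
    rcases pos_inv (x := x) (f := f) (u := u) m j with h | ⟨s, h1, h2, h3⟩
    · omega
    · have := (hf s h1).2.2
      rw [h2] at this
      omega
  have hN : ∀ t < m, f t ∉ abv x f u k t := fun t ht h => by
    have := (mem_abv.1 h).2
    have := hA t ht
    omega
  have hCs : ∑ j ∈ range k, (pos x f u m j - u j) ≤ ∑ j ∈ range k, (v j - u j) :=
    sum_le_sum fun j _ => hC j
  refine ⟨fun t => pos x f u t (f t), nxt x f u n k, fun t => (abv x f u k t).card,
    fun t => (range k).image (pos x f u t), fun t ht => ⟨?_, hA t ht, lt_nxt (hx t ht).2, nxt_le t,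
      mem_image_of_mem _ (mem_range.2 (hf t ht).1), fun h => ?_, fun y hy => ?_⟩,
    fun t => card_image_le.trans (card_range k).le, fun t s hts hsm h => ?_,
    fun s t hst htm h => ?_, fun s t hst htm h => ?_, le_trans (le_of_eq ?_) hCs, ?_⟩
  · have : abv x f u k t ⊂ range k :=
      (ssubset_iff_of_subset (filter_subset _ _)).2 ⟨f t, mem_range.2 (hf t ht).1, hN t ht⟩
    simpa using card_lt_card this
  · rcases nxt_cases (x := x) (f := f) (u := u) (n := n) (k := k) t with h1 | ⟨i, h1, h2⟩
    · omega
    · exact mem_image.2 ⟨i, mem_range.2 (mem_abv.1 h1).1, h2⟩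
  · obtain ⟨i, hi, rfl⟩ := mem_image.1 hy
    rw [pos_succ]
    split_ifs
    · exact mem_insert_self _ _
    · exact mem_insert_of_mem (mem_image_of_mem _ hi)
  · by_contra hlt
    have : abv x f u k t ⊆ abv x f u k s := fun i hi => mem_abv.2 ⟨(mem_abv.1 hi).1, by
      have := nxt_le_pos (n := n) hi
      have := hB t s hts hsm.le i
      omega⟩
    have := card_le_card this
    simp only at h
    omega
  · by_contra hlt
    have hne : s < t := lt_of_le_of_ne hst fun e => hlt (e ▸ le_rfl)
    have : insert (f s) (abv x f u k s) ⊆ abv x f u k t := fun i hi => by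
      rcases mem_insert.1 hi with rfl | hi
      · refine mem_abv.2 ⟨(hf s (by omega)).1, ?_⟩
        have := hB (s + 1) t hne htm.le (f s)
        rw [pos_succ, if_pos rfl] at this
        omega
      · refine mem_abv.2 ⟨(mem_abv.1 hi).1, ?_⟩
        have := (mem_abv.1 hi).2
        have := hB s t hst htm.le i
        omega
    have := card_le_card this
    rw [card_insert_of_notMem (hN s (by omega))] at this
    simp only at h
    omega
  · by_contra hlt
    have h0 := nxt_le (x := x) (f := f) (u := u) (n := n) (k := k) s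
    have h3 := lt_nxt (f := f) (u := u) (k := k) (hx t htm).2
    rcases nxt_cases (x := x) (f := f) (u := u) (n := n) (k := k) t with h1 | ⟨i, h1, h2⟩
    · omega
    have : abv x f u k s ⊆ abv x f u k t := fun i hi => mem_abv.2 ⟨(mem_abv.1 hi).1, by
      have := nxt_le_pos (n := n) hi
      have := hB s t hst htm.le i
      omega⟩
    rw [← eq_of_subset_of_card_le this (le_of_eq h.symm)] at h1
    have := nxt_le_pos (n := n) h1
    have := hB s t hst htm.le i
    omega
  · have : ∀ t ≤ m, ∑ s ∈ range t, (x s - pos x f u s (f s)) =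
        ∑ j ∈ range k, (pos x f u t j - u j) := fun t => by
      induction t with
      | zero => simp [pos]
      | succ t ih =>
        intro ht
        have e : ∀ j ∈ range k, pos x f u (t + 1) j - u j = (pos x f u t j - u j) +
            if j = f t then x t - pos x f u t (f t) else 0 := fun j _ => by
          rw [pos_succ]
          split_ifs with h
          · have h1 := hA t ht
            have h2 : u j ≤ pos x f u t j := hB 0 t (Nat.zero_le _) (by omega) j
            rw [← h] at h1 ⊢
            omega
          · rfl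
        rw [sum_range_succ, ih (by omega), sum_congr rfl e, sum_add_distrib, sum_ite_eq',
          if_pos (mem_range.2 (hf t ht).1)]
    exact this m le_rfl
  · let g : ℕ → ℕ → ℕ := fun t z => ((range k).filter fun i => z ≤ pos x f u t i).card
    let h : ℕ → ℕ := fun z => ((range k).filter fun i => u i < z ∧ z ≤ pos x f u m i).card
    have hg : ∀ s t z, s ≤ t → t ≤ m → g s z ≤ g t z := fun s t z hst htm =>
      card_le_card fun i hi => mem_filter.2
        ⟨(mem_filter.1 hi).1, (mem_filter.1 hi).2.trans (hB s t hst htm i)⟩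
    have hh : ∀ z, g m z ≤ g 0 z + h z := fun z => by
      refine le_trans (card_le_card fun i hi => ?_) (card_union_le _ _)
      rw [mem_filter] at hi
      rw [mem_union, mem_filter, mem_filter]
      by_cases hz : z ≤ u i
      · exact Or.inl ⟨hi.1, hz⟩
      · exact Or.inr ⟨hi.1, not_le.1 hz, hi.2⟩
    have hsub : spanSet n m k x (nxt x f u n k) (fun t => (abv x f u k t).card) ⊆
        (range (n + 2)).biUnion fun z => (Icc (g 0 z) (g m z)).image fun j => (j, z) := by
      rintro ⟨j, z⟩ hp
      obtain ⟨h1, t, ht, h2, h3, h4⟩ := mem_filter.1 hp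
      simp only at h2 h3 h4
      have ht := mem_range.1 ht
      have e : j = g t z := by
        rw [← h2]
        congr 1
        ext i
        rw [mem_filter, mem_range]
        refine ⟨fun hi => ⟨(mem_abv.1 hi).1, h4.trans (nxt_le_pos hi)⟩, fun hi => ?_⟩
        exact mem_abv.2 ⟨hi.1, h3.trans_le hi.2⟩
      refine mem_biUnion.2 ⟨z, (mem_product.1 h1).2, mem_image.2 ⟨j, mem_Icc.2 ?_, rfl⟩⟩
      rw [e]
      exact ⟨hg 0 t z (Nat.zero_le _) ht.le, hg t m z ht.le le_rfl⟩
    have h1 : ∑ z ∈ range (n + 2), h z ≤ ∑ j ∈ range k, (pos x f u m j - u j) := by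
      simp only [h, card_filter]
      rw [sum_comm]
      refine sum_le_sum fun i _ => ?_
      rw [← card_filter, ← Nat.card_Ioc]
      exact card_le_card fun z hz => mem_Ioc.2 (mem_filter.1 hz).2
    have h2 : ∑ z ∈ range (n + 2), ((Icc (g 0 z) (g m z)).image fun j => (j, z)).card ≤
        ∑ z ∈ range (n + 2), (h z + 1) := sum_le_sum fun z _ => by
      refine card_image_le.trans ?_
      have := hh z
      rw [Nat.card_Icc]
      omega
    have h3 := (card_le_card hsub).trans card_biUnion_le
    rw [sum_add_distrib] at h2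
    simp only [sum_const, card_range, smul_eq_mul, mul_one] at h2
    omega

end Pool.Agent.P.MP_119182_lc
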