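import Pool.Agent.P.MP_119182_lc.Defs
import Pool.Agent.P.MP_119182_lc.DefsU

set_option autoImplicit false

namespace Pool.Agent.P.MP_119182_lc

open Finset

/-- Last key smaller than `y` met on the search for `y` (`c` if there is none). -/
def lo : BT → ℕ → ℕ → ℕ
  | BT.nil, _, c => c
  | BT.node l k r, y, c => if y < k then lo l y c else if k < y then lo r y k else c

/-- Last key larger than `y` met on the search for `y` (`d` if there is none). -/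
def hi : BT → ℕ → ℕ → ℕ
  | BT.nil, _, d => d
  | BT.node l k r, y, d => if y < k then hi l y k else if k < y then hi r y d else d

/-- Left parent: the subtree of `y` holds the keys strictly between `lpar T y` and `rpar n T y`. -/
def lpar (T : BT) (y : ℕ) : ℕ := lo T y 0

/-- Right parent. -/
def rpar (n : ℕ) (T : BT) (y : ℕ) : ℕ := hi T y (n + 1)

/-- Ancestors of `x` larger than `x`. -/
def rgtPath (n x : ℕ) (lp : ℕ → ℕ) : Finset ℕ :=
  (Icc 1 n).filter fun y => x < y ∧ lp y < x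

/-- Ancestors of `x` smaller than `x`. -/
def lftPath (n x : ℕ) (rp : ℕ → ℕ) : Finset ℕ :=
  (Icc 1 n).filter fun y => y < x ∧ x < rp y

/-- What one splay at `x` does to left and right parents (`lp`, `rp` before, `lq`, `rq` after). -/
structure Step (n x : ℕ) (lp rp lq rq : ℕ → ℕ) : Prop where
  off : ∀ y, 1 ≤ y → y ≤ n → y ≠ x → ¬ (lp y < x ∧ x < rp y) → lq y = lp y ∧ rq y = rp y
  root : ∀ y, 1 ≤ y → y < x → rq y ≤ x
  mono : ∀ y z, 1 ≤ y → y < z → z < x → x < rp y → x < rp z → lp y ≤ lq z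
  los : ∀ u, x < u → u ≤ n → lp u < x → lq u ≠ x →
    x < lq u ∧ lq u < u ∧ lp (lq u) < x ∧ rp (lq u) = u ∧ rq u = rp u
  lam : ∀ y z, 1 ≤ y → y ≤ n → lp y < z → z < y → lp y ≤ lp z ∧ rp z ≤ y
  bnd : ∀ y, 1 ≤ y → y ≤ n → lp y < y ∧ y < rp y

/-- A run of `m` splays at `x 0, x 1, …`; `c t` is the class of the access at time `t` (the number
of fingers above it) and `b t` the position of the next finger above it. -/
structure Run (n m k : ℕ) (x b c : ℕ → ℕ) (lp rp : ℕ → ℕ → ℕ) : Prop where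
  step : ∀ t < m, Step n (x t) (lp t) (rp t) (lp (t + 1)) (rp (t + 1))
  rng : ∀ t < m, 1 ≤ x t ∧ x t ≤ n ∧ b t ≤ n + 1 ∧ c t < k
  up : ∀ t s, t ≤ s → s < m → c s < c t → b t ≤ x s
  dn : ∀ s t, s ≤ t → t < m → c t ≤ c s → x s ≤ x t
  bmono : ∀ s t, s ≤ t → t < m → c s = c t → b s ≤ b t

/-- Pairs (time, upper node of a right zig-zig step) whose right parent is at most `b t`. -/
def links (n m : ℕ) (x b : ℕ → ℕ) (lp rp : ℕ → ℕ → ℕ) : Finset (ℕ × ℕ) :=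
  (range m ×ˢ Icc 1 n).filter fun p =>
    x p.1 < p.2 ∧ lp p.1 p.2 < x p.1 ∧ lp (p.1 + 1) p.2 ≠ x p.1 ∧ rp p.1 p.2 ≤ b p.1

/-- Pairs (class, point lying between an access of that class and the next finger). -/
def spanSet (n m k : ℕ) (x b c : ℕ → ℕ) : Finset (ℕ × ℕ) :=
  (range k ×ˢ range (n + 2)).filter fun p =>
    ∃ t ∈ range m, c t = p.1 ∧ x t < p.2 ∧ p.2 ≤ b t

def S_STRUCT : Prop :=
  ∀ (n x : ℕ) (T : BT), T.keys = List.range' 1 n → 1 ≤ x → x ≤ n →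
    (access T x).1.keys = List.range' 1 n ∧
    Step n x (lpar T) (rpar n T) (lpar (access T x).1) (rpar n (access T x).1) ∧
    (access T x).2 = (lftPath n x (rpar n T)).card + (rgtPath n x (lpar T)).card + 1 ∧
    (rgtPath n x (lpar T)).card ≤
      2 * ((rgtPath n x (lpar T)).filter fun u => lpar (access T x).1 u ≠ x).card +
        (lftPath n x (rpar n T)).card + 1

def S_POT : Prop :=
  ∃ Φ : Finset ℕ → BT → ℕ,
    (∀ (n k : ℕ) (T : BT) (F : Finset ℕ), T.keys = List.range' 1 n → F.card ≤ k →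
      Φ F T ≤ n * Nat.size k) ∧
    ∀ (n k x a b : ℕ) (T : BT) (F G : Finset ℕ), T.keys = List.range' 1 n → 1 ≤ x → x ≤ n →
      F.card ≤ k → G.card ≤ k → G ⊆ insert x F → a ≤ x → x < b → b ≤ n + 1 → a ∈ F →
      (b ≤ n → b ∈ F) →
      ((lftPath n x (rpar n T) ∪ rgtPath n x (lpar T)).filter
          fun y => lpar T y < a ∨ b < rpar n T y).card + 2 * Φ G (access T x).1 ≤
        2 * Φ F T + 8 * Nat.size k + 1

def S_FIBER : Prop :=
  ∀ (n m k : ℕ) (x b c : ℕ → ℕ) (lp rp : ℕ → ℕ → ℕ), Run n m k x b c lp rp →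
    ∀ (j q h e : ℕ) (S : Finset (ℕ × ℕ)), S ⊆ links n m x b lp rp →
      (∀ p ∈ S, c p.1 = j ∧ x p.1 < q ∧ q ≤ lp (p.1 + 1) p.2 ∧ lp (p.1 + 1) p.2 < h ∧
        h ≤ p.2 ∧ p.2 < e ∧ e ≤ b p.1) →
      S.card ≤ e - h ∧
      ∀ θ : ℕ, (∀ p ∈ S,
        ((rgtPath n (x p.1) (lp p.1)).filter fun y => h ≤ y ∧ y < e).card ≤ θ) →
        S.card ≤ θ + k

def S_COUNT : Prop :=
  ∃ C : ℕ, ∀ (n m k : ℕ) (x b c : ℕ → ℕ) (lp rp : ℕ → ℕ → ℕ), Run n m k x b c lp rp →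
    16 * (links n m x b lp rp).card ≤
      3 * ∑ t ∈ range m, (rgtPath n (x t) (lp t)).card +
        C * (Nat.size k + 1) * ((spanSet n m k x b c).card + m)

def S_FING : Prop :=
  ∀ (n k m : ℕ) (x f u v : ℕ → ℕ), (∀ t < m, 1 ≤ x t ∧ x t ≤ n) →
    (∀ t < m, f t < k ∧ u (f t) ≤ x t ∧ x t ≤ v (f t)) →
    (∀ s t, s < t → t < m → f s = f t → x s ≤ x t) →
    ∃ (a b c : ℕ → ℕ) (F : ℕ → Finset ℕ),
      (∀ t < m, c t < k ∧ a t ≤ x t ∧ x t < b t ∧ b t ≤ n + 1 ∧ a t ∈ F t ∧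
        (b t ≤ n → b t ∈ F t) ∧ F (t + 1) ⊆ insert (x t) (F t)) ∧
      (∀ t, (F t).card ≤ k) ∧
      (∀ t s, t ≤ s → s < m → c s < c t → b t ≤ x s) ∧
      (∀ s t, s ≤ t → t < m → c t ≤ c s → x s ≤ x t) ∧
      (∀ s t, s ≤ t → t < m → c s = c t → b s ≤ b t) ∧
      ∑ t ∈ range m, (x t - a t) ≤ ∑ j ∈ range k, (v j - u j) ∧
      (spanSet n m k x b c).card ≤ ∑ j ∈ range k, (v j - u j) + (n + 2)

def S_MAIN : Prop :=
  ∃ C : ℝ, ∀ (n k m : ℕ) (T : BT) (x f u v : ℕ → ℕ), T.keys = List.range' 1 n →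
    (∀ t < m, 1 ≤ x t ∧ x t ≤ n) →
    (∀ t < m, f t < k ∧ u (f t) ≤ x t ∧ x t ≤ v (f t)) →
    (∀ s t, s < t → t < m → f s = f t → x s ≤ x t) →
    (cost T ((List.range m).map x) : ℝ) ≤
      C * Real.logb 2 (k + 1) * (n + m + ∑ j ∈ range k, ((v j - u j : ℕ) : ℝ))

def S_RR : Prop :=
  ∃ C : ℝ, ∀ (k l r : ℕ) (T : BT) (σ : ℕ → ℕ → ℕ), k ≤ l → l ≤ r →
    T.keys = List.range' 1 (k * l) →
    (∀ q, Set.BijOn (σ q) (Set.Iio k) (Set.Iio k)) →
    (cost T ((List.range (r * k)).map fun t => σ (t / k) (t % k) * l + t / k % l + 1) : ℝ) ≤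
      C * unified (k * l) (r * k) fun t => σ (t / k) (t % k) * l + t / k % l + 1

end Pool.Agent.P.MP_119182_lc
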