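import Pool.Agent.P.MP_119182_lc.Iface

set_option autoImplicit false

namespace Pool.Agent.P.MP_119182_lc

open Finset

namespace MainA

/-- The tree after the first `t` accesses. -/
def Tr (T : BT) (x : ℕ → ℕ) : ℕ → BT
  | 0 => T
  | t + 1 => (access (Tr T x t) (x t)).1

theorem Tr_shift (T : BT) (x : ℕ → ℕ) : ∀ t,
    Tr (access T (x 0)).1 (fun s => x (s + 1)) t = Tr T x (t + 1)
  | 0 => rfl
  | t + 1 => by rw [Tr, Tr_shift T x t]; rfl

theorem cost_eq : ∀ (m : ℕ) (T : BT) (x : ℕ → ℕ),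
    cost T ((List.range m).map x) = ∑ t ∈ range m, (access (Tr T x t) (x t)).2
  | 0, _, _ => rfl
  | m + 1, T, x => by
    have ih := cost_eq m (access T (x 0)).1 fun s => x (s + 1)
    simp only [Tr_shift] at ih
    rw [List.range_succ_eq_map, List.map_cons, List.map_map, cost, sum_range_succ', add_comm, ← ih]
    rfl

theorem lft_le {n x a b : ℕ} {lp rp lq rq : ℕ → ℕ} (h : Step n x lp rp lq rq) :
    (lftPath n x rp).card ≤
      ((lftPath n x rp ∪ rgtPath n x lp).filter fun y => lp y < a ∨ b < rp y).card + (x - a) := by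
  rw [← Nat.card_Ico]
  refine (card_le_card fun y hy => ?_).trans (card_union_le _ _)
  have hy' := mem_filter.1 hy
  have h1 := mem_Icc.1 hy'.1
  have h2 := h.bnd y h1.1 h1.2
  by_cases e : lp y < a
  · exact mem_union_left _ (mem_filter.2 ⟨mem_union_left _ hy, Or.inl e⟩)
  · exact mem_union_right _ (mem_Ico.2 ⟨by omega, hy'.2.1⟩)

theorem los_le (n x a b : ℕ) (lp rp lq : ℕ → ℕ) :
    ((rgtPath n x lp).filter fun u => lq u ≠ x).card ≤
      ((Icc 1 n).filter fun u => x < u ∧ lp u < x ∧ lq u ≠ x ∧ rp u ≤ b).card +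
      ((lftPath n x rp ∪ rgtPath n x lp).filter fun y => lp y < a ∨ b < rp y).card := by
  refine (card_le_card fun y hy => ?_).trans (card_union_le _ _)
  have hy' := mem_filter.1 hy
  have h1 := mem_filter.1 hy'.1
  by_cases e : rp y ≤ b
  · exact mem_union_left _ (mem_filter.2 ⟨h1.1, h1.2.1, h1.2.2, hy'.2, e⟩)
  · exact mem_union_right _ (mem_filter.2 ⟨mem_union_right _ hy'.1, Or.inr (not_le.1 e)⟩)

theorem links_eq (n m : ℕ) (x b : ℕ → ℕ) (lp rp : ℕ → ℕ → ℕ) :
    (links n m x b lp rp).card = ∑ t ∈ range m, ((Icc 1 n).filter fun u =>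
      x t < u ∧ lp t u < x t ∧ lp (t + 1) u ≠ x t ∧ rp t u ≤ b t).card := by
  simp only [links, card_filter, sum_product]

theorem tele (A P : ℕ → ℕ) (c : ℕ) : ∀ m, (∀ t < m, A t + 2 * P (t + 1) ≤ 2 * P t + c) →
    ∑ t ∈ range m, A t + 2 * P m ≤ 2 * P 0 + m * c
  | 0, _ => by simp
  | m + 1, h => by
    have h1 := tele A P c m fun t ht => h t (by omega)
    have h2 := h m (by omega)
    rw [sum_range_succ, add_mul]
    omega

theorem size_le {k : ℕ} (hk : 1 ≤ k) : ((Nat.size k + 1 : ℕ) : ℝ) ≤ 3 * Real.logb 2 (k + 1) := by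
  have h0 : 0 < Nat.size k := Nat.size_pos.2 hk
  obtain ⟨s, hs⟩ : ∃ s, Nat.size k = s + 1 := ⟨Nat.size k - 1, by omega⟩
  have h1 : (2 : ℝ) ^ s ≤ k := by exact_mod_cast Nat.lt_size.1 (show s < Nat.size k by omega)
  have h2 : (1 : ℝ) ≤ k := by exact_mod_cast hk
  have h3 : (s : ℝ) ≤ Real.logb 2 (k + 1) := by
    rw [Real.le_logb_iff_rpow_le (by norm_num) (by linarith), Real.rpow_natCast]
    linarith
  have h4 : (1 : ℝ) ≤ Real.logb 2 (k + 1) := by
    rw [Real.le_logb_iff_rpow_le (by norm_num) (by linarith), Real.rpow_one]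
    linarith
  rw [hs]
  push_cast
  linarith

theorem arith (C s n m D Y L K Top Sp co : ℕ) (hn : 1 ≤ n) (h1 : co = L + Y + m)
    (h2 : Y ≤ 2 * (K + Top) + L + m) (h3 : L ≤ Top + D) (h4 : Top ≤ 2 * (n * s) + m * (8 * s + 1))
    (h5 : 16 * K ≤ 3 * Y + C * (s + 1) * (Sp + m)) (h6 : Sp ≤ D + (n + 2)) :
    co ≤ (3 * C + 209) * (s + 1) * (n + m + D) := by
  have a1 : C * (s + 1) * (Sp + m) ≤ C * (s + 1) * (3 * (n + m + D)) :=
    Nat.mul_le_mul_left _ (by omega)
  have a2 : Top ≤ 8 * ((s + 1) * (n + m + D)) := by nlinarith [Nat.zero_le (n * s), Nat.zero_le (s * D)]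
  have a3 : n + m + D ≤ (s + 1) * (n + m + D) := Nat.le_mul_of_pos_left _ (by omega)
  have a4 : C * (s + 1) * (3 * (n + m + D)) = 3 * (C * ((s + 1) * (n + m + D))) := by ring
  have a5 : (3 * C + 209) * (s + 1) * (n + m + D) =
      3 * (C * ((s + 1) * (n + m + D))) + 209 * ((s + 1) * (n + m + D)) := by ring
  omega

end MainA

open MainA in
theorem p_MAIN (h1 : S_STRUCT) (h2 : S_POT) (h3 : S_COUNT) (h4 : S_FING) : S_MAIN := by
  obtain ⟨Φ, hΦ0, hΦ⟩ := h2
  obtain ⟨C, hC⟩ := h3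
  refine ⟨3 * (3 * C + 209), fun n k m T x f u v hT hx hf hmono => ?_⟩
  have hlog : 0 ≤ Real.logb 2 (k + 1) :=
    Real.logb_nonneg (by norm_num) (by linarith [Nat.cast_nonneg (α := ℝ) k])
  rcases Nat.eq_zero_or_pos m with rfl | hm
  · simp only [List.range_zero, List.map_nil, cost, Nat.cast_zero]
    positivity
  obtain ⟨a, b, c, F, f1, f2, f3, f4, f5, f6, f7⟩ := h4 n k m x f u v hx hf hmono
  have hK : ∀ t ≤ m, (Tr T x t).keys = List.range' 1 n := fun t => by
    induction t with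
    | zero => exact fun _ => hT
    | succ t ih => exact fun ht => (h1 n (x t) _ (ih (by omega)) (hx t ht).1 (hx t ht).2).1
  have hS := fun t (ht : t < m) => (h1 n (x t) _ (hK t ht.le) (hx t ht).1 (hx t ht).2).2
  have hR : Run n m k x b c (fun t => lpar (Tr T x t)) (fun t => rpar n (Tr T x t)) :=
    ⟨fun t ht => (hS t ht).1, fun t ht => ⟨(hx t ht).1, (hx t ht).2, (f1 t ht).2.2.2.1, (f1 t ht).1⟩,
      f3, f4, f5⟩
  have e5 := hC n m k x b c _ _ hR
  rw [links_eq] at e5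
  have e4 := tele _ (fun t => Φ (F t) (Tr T x t)) (8 * Nat.size k + 1) m fun t ht => by
    obtain ⟨-, g1, g2, g3, g4, g5, g6⟩ := f1 t ht
    exact (hΦ n k (x t) (a t) (b t) _ (F t) (F (t + 1)) (hK t ht.le) (hx t ht).1 (hx t ht).2
      (f2 t) (f2 _) g6 g1 g2 g3 g4 g5).trans_eq (add_assoc _ _ _)
  have e0 := hΦ0 n k T (F 0) hT (f2 0)
  have key := arith C (Nat.size k) n m (∑ j ∈ range k, (v j - u j))
    (∑ t ∈ range m, (rgtPath n (x t) (lpar (Tr T x t))).card)
    (∑ t ∈ range m, (lftPath n (x t) (rpar n (Tr T x t))).card) _ _ _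
    (cost T ((List.range m).map x)) ((hx 0 hm).1.trans (hx 0 hm).2) ?_ ?_ ?_
    ((Nat.le_add_right _ _).trans (e4.trans (Nat.add_le_add_right (Nat.mul_le_mul_left 2 e0) _)))
    e5 f7
  · have hk : 1 ≤ k := lt_of_le_of_lt (Nat.zero_le _) (hf 0 hm).1
    have a1 := size_le hk
    rw [← Nat.cast_sum]
    calc (cost T ((List.range m).map x) : ℝ)
        ≤ (3 * C + 209) * ((Nat.size k + 1 : ℕ) : ℝ) *
          (n + m + ((∑ j ∈ range k, (v j - u j) : ℕ) : ℝ)) := by exact_mod_cast key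
      _ ≤ (3 * C + 209) * (3 * Real.logb 2 (k + 1)) *
          (n + m + ((∑ j ∈ range k, (v j - u j) : ℕ) : ℝ)) := by gcongr
      _ = _ := by ring
  · rw [cost_eq, sum_congr rfl fun t ht => (hS t (mem_range.1 ht)).2.1, sum_add_distrib,
      sum_add_distrib, sum_const, card_range, smul_eq_mul, mul_one]
  · refine (sum_le_sum fun t ht => ((hS t (mem_range.1 ht)).2.2.trans (Nat.add_le_add_right
      (Nat.add_le_add_right (Nat.mul_le_mul_left 2 (los_le n (x t) (a t) (b t) _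
        (rpar n (Tr T x t)) _)) _) _))).trans_eq ?_
    rw [sum_add_distrib, sum_add_distrib, ← mul_sum, sum_add_distrib, sum_const, card_range,
      smul_eq_mul, mul_one]
    rfl
  · refine (sum_le_sum fun t ht => lft_le (a := a t) (b := b t) (hS t (mem_range.1 ht)).1).trans ?_
    rw [sum_add_distrib]
    exact Nat.add_le_add_left f6 _

end Pool.Agent.P.MP_119182_lc
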