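import Pool.Agent.P.MP_119182_lc.Struct

set_option autoImplicit false

namespace Pool.Agent.P.MP_119182_lc

open Finset

/-- Number of marked keys in a tree. -/
def cnt (F : Finset ℕ) : BT → ℕ
  | BT.nil => 0
  | BT.node l k r => cnt F l + cnt F r + if k ∈ F then 1 else 0

/-- Sum over the nodes of the binary length of the number of marked keys below the node. -/
def pot (F : Finset ℕ) : BT → ℕ
  | BT.nil => 0
  | BT.node l k r => pot F l + pot F r + Nat.size (cnt F (BT.node l k r))

/-- Number of frames whose subtree holds a marked key. -/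
def topc (F : Finset ℕ) : BT → List Fr → ℕ
  | _, [] => 0
  | t, f :: π => (if 1 ≤ cnt F (ap f t) then 1 else 0) + topc F (ap f t) π

theorem cnt_eq (F : Finset ℕ) : ∀ t : BT, cnt F t = t.keys.countP (fun y => y ∈ F)
  | BT.nil => by simp [cnt, BT.keys]
  | BT.node l k r => by
    simp only [cnt, BT.keys, List.countP_append, List.countP_cons, cnt_eq F l, cnt_eq F r,
      decide_eq_true_eq]
    omega

theorem cnt_le_card (F : Finset ℕ) (t : BT) (h : t.keys.Nodup) : cnt F t ≤ F.card := by
  rw [cnt_eq, List.countP_eq_length_filter, ← List.toFinset_card_of_nodup (h.filter _)]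
  refine card_le_card fun y hy => ?_
  simpa using (List.mem_filter.1 (List.mem_toFinset.1 hy)).2

theorem cnt_pos {F : Finset ℕ} {t : BT} {y : ℕ} (h : y ∈ t.keys) (hF : y ∈ F) : 1 ≤ cnt F t := by
  rw [cnt_eq]
  exact List.countP_pos_iff.2 ⟨y, h, by simpa using hF⟩

theorem cnt_mono {F G : Finset ℕ} (t : BT) (h : ∀ y ∈ t.keys, y ∈ G → y ∈ F) :
    cnt G t ≤ cnt F t := by
  rw [cnt_eq, cnt_eq]
  exact List.countP_mono_left fun y hy hg => by simpa using h y hy (by simpa using hg)

theorem pot_mono {F G : Finset ℕ} : ∀ t : BT, (∀ y ∈ t.keys, y ∈ G → y ∈ F) → pot G t ≤ pot F t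
  | BT.nil, _ => le_rfl
  | BT.node l k r, h => by
    have a := pot_mono l fun y hy => h y (by simp [BT.keys, hy])
    have b := pot_mono r fun y hy => h y (by simp [BT.keys, hy])
    have c := Nat.size_le_size (cnt_mono _ h)
    simp only [pot]
    omega

theorem pot_le {F : Finset ℕ} {k : ℕ} : ∀ t : BT, cnt F t ≤ k →
    pot F t ≤ t.keys.length * Nat.size k
  | BT.nil, _ => by simp [pot]
  | BT.node l y r, h => by
    have c := Nat.size_le_size h
    simp only [cnt] at h
    have a := pot_le (F := F) (k := k) l (by omega)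
    have b := pot_le (F := F) (k := k) r (by omega)
    simp only [pot, BT.keys, List.length_append, List.length_cons]
    nlinarith

theorem cnt_ap (F : Finset ℕ) (f : Fr) {t t' : BT} (h : cnt F t = cnt F t') :
    cnt F (ap f t) = cnt F (ap f t') := by
  cases f <;> simp [ap, cnt, h]

theorem ctx_congr (F : Finset ℕ) : ∀ (π : List Fr) (t t' : BT), cnt F t = cnt F t' →
    topc F t π = topc F t' π ∧ cnt F (plug t π) = cnt F (plug t' π) ∧
      pot F (plug t π) + pot F t' = pot F (plug t' π) + pot F t
  | [], _, _, h => ⟨rfl, h, by simp only [plug]; omega⟩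
  | f :: π, t, t', h => by
    have e := cnt_ap F f h
    have ih := ctx_congr F π _ _ e
    refine ⟨by simp only [topc, e, ih.1], ih.2.1, ?_⟩
    have g : pot F (ap f t) + pot F t' = pot F (ap f t') + pot F t := by
      cases f <;> simp only [ap] at e ⊢ <;> simp only [pot, e] <;> omega
    simp only [plug]
    omega

theorem size_two {a b s : ℕ} (h : a + b ≤ s) (h1 : 1 ≤ a + b) :
    Nat.size a + Nat.size b + 1 ≤ 2 * Nat.size s := by
  have key : ∀ a b : ℕ, a ≤ b → a + b ≤ s → 1 ≤ a + b →
      Nat.size a + Nat.size b + 1 ≤ 2 * Nat.size s := by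
    intro a b hab h h1
    have hb := Nat.size_le_size (show b ≤ s by omega)
    have hs : 0 < Nat.size s := Nat.size_pos.2 (by omega)
    rcases Nat.eq_zero_or_pos a with h0 | h0
    · subst h0
      simp only [Nat.size_zero]
      omega
    · have p : 0 < Nat.size a := Nat.size_pos.2 h0
      have q : 2 ^ (Nat.size a - 1) ≤ a := Nat.lt_size.1 (by omega)
      have r : Nat.size a < Nat.size s := Nat.lt_size.2 (by
        have : 2 ^ Nat.size a = 2 * 2 ^ (Nat.size a - 1) := by
          rw [← pow_succ']; congr 1; omega
        omega)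
      omega
  rcases le_total a b with hab | hab
  · exact key a b hab h h1
  · have := key b a hab (by omega) (by omega)
    omega

theorem zz_ineq {s sp S s1 s2 : ℕ} (h1 : s ≤ sp) (h2 : sp ≤ S) (h3 : s1 ≤ S) (h4 : s + s2 ≤ S) :
    (if 1 ≤ sp then 1 else 0) + (if 1 ≤ S then 1 else 0) + 2 * (Nat.size s1 + Nat.size s2) +
      4 * Nat.size s ≤ 2 * Nat.size sp + 6 * Nat.size S := by
  have a1 := Nat.size_le_size h1
  have a3 := Nat.size_le_size h3
  have a4 := Nat.size_le_size (show s2 ≤ S by omega)
  rcases Nat.eq_zero_or_pos S with h0 | h0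
  · subst h0
    have e1 : sp = 0 := by omega
    have e2 : s = 0 := by omega
    have e3 : s1 = 0 := by omega
    have e4 : s2 = 0 := by omega
    subst e1 e2 e3 e4
    simp
  · have p : 0 < Nat.size S := Nat.size_pos.2 h0
    rcases Nat.eq_zero_or_pos s with h5 | h5
    · subst h5
      simp only [Nat.size_zero]
      split_ifs <;> omega
    · have := size_two h4 (by omega)
      split_ifs <;> omega

theorem zag_ineq {s sp S s1 s2 : ℕ} (h1 : s ≤ sp) (h2 : sp ≤ S) (h4 : s1 + s2 ≤ S) :
    (if 1 ≤ sp then 1 else 0) + (if 1 ≤ S then 1 else 0) + 2 * (Nat.size s1 + Nat.size s2) +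
      4 * Nat.size s ≤ 2 * Nat.size sp + 6 * Nat.size S := by
  have a1 := Nat.size_le_size h1
  have a2 := Nat.size_le_size h2
  rcases Nat.eq_zero_or_pos S with h0 | h0
  · subst h0
    have e1 : sp = 0 := by omega
    have e2 : s = 0 := by omega
    have e3 : s1 = 0 := by omega
    have e4 : s2 = 0 := by omega
    subst e1 e2 e3 e4
    simp
  · have p : 0 < Nat.size S := Nat.size_pos.2 h0
    rcases Nat.eq_zero_or_pos (s1 + s2) with h5 | h5
    · have e3 : s1 = 0 := by omega
      have e4 : s2 = 0 := by omega
      subst e3 e4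
      simp only [Nat.size_zero]
      split_ifs <;> omega
    · have := size_two h4 (by omega)
      split_ifs <;> omega

theorem pot_step {F : Finset ℕ} (π : List Fr) (f g : Fr) (t t1 T1 : BT)
    (e : cnt F (ap g (ap f t)) = cnt F t1)
    (loc : (if 1 ≤ cnt F (ap f t) then 1 else 0) + (if 1 ≤ cnt F (ap g (ap f t)) then 1 else 0) +
      2 * pot F t1 + 6 * Nat.size (cnt F t) ≤
        2 * pot F (ap g (ap f t)) + 6 * Nat.size (cnt F t1))
    (ih : topc F t1 π + 2 * pot F T1 + 6 * Nat.size (cnt F t1) ≤
      2 * pot F (plug t1 π) + 6 * Nat.size (cnt F (plug t1 π)) + 1) :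
    topc F t (f :: g :: π) + 2 * pot F T1 + 6 * Nat.size (cnt F t) ≤
      2 * pot F (plug t (f :: g :: π)) + 6 * Nat.size (cnt F (plug t (f :: g :: π))) + 1 := by
  have c := ctx_congr F π _ _ e
  simp only [topc, plug]
  rw [c.1, c.2.1]
  omega

theorem pot_splay (F : Finset ℕ) (x : ℕ) (l r : BT) (π : List Fr) :
    topc F (BT.node l x r) π + 2 * pot F (splayUp x l r π) +
        6 * Nat.size (cnt F (BT.node l x r)) ≤
      2 * pot F (plug (BT.node l x r) π) + 6 * Nat.size (cnt F (plug (BT.node l x r) π)) + 1 := by
  fun_induction splayUp x l r π with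
  | case1 l r => simp only [topc, plug]; omega
  | case2 l r a p =>
    have e : cnt F (BT.node (BT.node a p l) x r) = cnt F (BT.node a p (BT.node l x r)) := by
      simp only [cnt]; omega
    have a1 := Nat.size_le_size
      (show cnt F (BT.node a p l) ≤ cnt F (BT.node a p (BT.node l x r)) by simp only [cnt]; omega)
    have a2 := Nat.size_le_size
      (show cnt F (BT.node l x r) ≤ cnt F (BT.node a p (BT.node l x r)) by simp only [cnt]; omega)
    simp only [topc, plug, ap, pot, e]
    split_ifs <;> omega
  | case3 l r p b =>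
    have e : cnt F (BT.node l x (BT.node r p b)) = cnt F (BT.node (BT.node l x r) p b) := by
      simp only [cnt]; omega
    have a1 := Nat.size_le_size
      (show cnt F (BT.node r p b) ≤ cnt F (BT.node (BT.node l x r) p b) by simp only [cnt]; omega)
    have a2 := Nat.size_le_size
      (show cnt F (BT.node l x r) ≤ cnt F (BT.node (BT.node l x r) p b) by simp only [cnt]; omega)
    simp only [topc, plug, ap, pot, e]
    split_ifs <;> omega
  | case4 l r p b g e π ih =>
    have e1 : cnt F (BT.node (BT.node (BT.node l x r) p b) g e) =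
        cnt F (BT.node l x (BT.node r p (BT.node b g e))) := by simp only [cnt]; omega
    refine pot_step π _ _ _ _ _ e1 ?_ ih
    have := zz_ineq (s := cnt F (BT.node l x r)) (sp := cnt F (BT.node (BT.node l x r) p b))
      (S := cnt F (BT.node l x (BT.node r p (BT.node b g e))))
      (s1 := cnt F (BT.node r p (BT.node b g e))) (s2 := cnt F (BT.node b g e))
      (by simp only [cnt]; omega) (by simp only [cnt]; omega) (by simp only [cnt]; omega)
      (by simp only [cnt]; omega)
    simp only [ap, pot, e1]
    split_ifs at this ⊢ <;> omega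
  | case5 l r b p a g π ih =>
    have e1 : cnt F (BT.node a g (BT.node b p (BT.node l x r))) =
        cnt F (BT.node (BT.node (BT.node a g b) p l) x r) := by simp only [cnt]; omega
    refine pot_step π _ _ _ _ _ e1 ?_ ih
    have := zz_ineq (s := cnt F (BT.node l x r)) (sp := cnt F (BT.node b p (BT.node l x r)))
      (S := cnt F (BT.node (BT.node (BT.node a g b) p l) x r))
      (s1 := cnt F (BT.node (BT.node a g b) p l)) (s2 := cnt F (BT.node a g b))
      (by simp only [cnt]; omega) (by simp only [cnt]; omega) (by simp only [cnt]; omega)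
      (by simp only [cnt]; omega)
    simp only [ap, pot, e1]
    split_ifs at this ⊢ <;> omega
  | case6 l r p b a g π ih =>
    have e1 : cnt F (BT.node a g (BT.node (BT.node l x r) p b)) =
        cnt F (BT.node (BT.node a g l) x (BT.node r p b)) := by simp only [cnt]; omega
    refine pot_step π _ _ _ _ _ e1 ?_ ih
    have := zag_ineq (s := cnt F (BT.node l x r)) (sp := cnt F (BT.node (BT.node l x r) p b))
      (S := cnt F (BT.node (BT.node a g l) x (BT.node r p b)))
      (s1 := cnt F (BT.node a g l)) (s2 := cnt F (BT.node r p b))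
      (by simp only [cnt]; omega) (by simp only [cnt]; omega) (by simp only [cnt]; omega)
    simp only [ap, pot, e1]
    split_ifs at this ⊢ <;> omega
  | case7 l r a p g e π ih =>
    have e1 : cnt F (BT.node (BT.node a p (BT.node l x r)) g e) =
        cnt F (BT.node (BT.node a p l) x (BT.node r g e)) := by simp only [cnt]; omega
    refine pot_step π _ _ _ _ _ e1 ?_ ih
    have := zag_ineq (s := cnt F (BT.node l x r)) (sp := cnt F (BT.node a p (BT.node l x r)))
      (S := cnt F (BT.node (BT.node a p l) x (BT.node r g e)))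
      (s1 := cnt F (BT.node a p l)) (s2 := cnt F (BT.node r g e))
      (by simp only [cnt]; omega) (by simp only [cnt]; omega) (by simp only [cnt]; omega)
    simp only [ap, pot, e1]
    split_ifs at this ⊢ <;> omega

theorem hole_mem {c d z : ℕ} : ∀ (π : List Fr) (t : BT), Ord (plug t π) c d → cL c π < z →
    z < cH d π → z ∈ (plug t π).keys → z ∈ t.keys
  | [], _, _, _, _, h => h
  | f :: π, t, h, h1, h2, hz => by
    have a := hole_le f π t h
    have m := hole_mem π _ h (by omega) (by omega) hz
    have o := ord_hole π _ h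
    cases f with
    | lft s k =>
      simp only [ap, BT.keys, List.mem_append, List.mem_cons] at m
      simp only [cL] at h1
      rcases m with m | m | m
      · have := (Ord.mem o.1 m).2
        omega
      · omega
      · exact m
    | rgt k s =>
      simp only [ap, BT.keys, List.mem_append, List.mem_cons] at m
      simp only [cH] at h2
      rcases m with m | m | m
      · exact m
      · omega
      · have := (Ord.mem o.2 m).1
        omega

theorem top_le {c d : ℕ} (F : Finset ℕ) (T : BT) (P : ℕ → Prop) [DecidablePred P] :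
    ∀ (π : List Fr) (t : BT), T = plug t π → Ord T c d →
      (∀ y ∈ π.map key, P y → ∃ z ∈ F, z ∈ T.keys ∧ lo T y c < z ∧ z < hi T y d) →
      (π.map key).countP (fun y => P y) ≤ topc F t π
  | [], _, _, _, _ => by simp
  | f :: π, t, e, o, h => by
    have ih := top_le F T P π (ap f t) e o fun y hy => h y (by
      rw [List.map_cons]; exact List.mem_cons_of_mem _ hy)
    rw [List.map_cons, List.countP_cons]
    simp only [topc, decide_eq_true_eq]
    by_cases hp : P (key f)
    · obtain ⟨z, z1, z2, z3, z4⟩ := h (key f) (by simp) hp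
      subst e
      have v := head_val f π t o
      rw [v.1] at z3
      rw [v.2] at z4
      have := cnt_pos (hole_mem π (ap f t) o z3 z4 z2) z1
      rw [if_pos hp, if_pos this]
      omega
    · rw [if_neg hp]
      omega

theorem p_POT : S_POT := by
  refine ⟨pot, fun n k T F hT hF => ?_, ?_⟩
  · have := pot_le (k := k) T ((cnt_le_card F T (hT ▸ List.nodup_range')).trans hF)
    rwa [hT, List.length_range'] at this
  intro n k x a b T F G hT h1 h2 hF hG hGF ha hb hb' haF hbF
  have o := ord_of_keys hT
  obtain ⟨l, r, π, e1, e2, hk⟩ := access_zip hT h1 h2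
  have o' : Ord (plug (BT.node l x r) π) 0 (n + 1) := e1 ▸ o
  obtain ⟨e, -, f⟩ := facts_splay l r π o'
  have ps := pot_splay F x l r π
  rw [← e1] at f ps
  have nd := nodup_key π _ o'
  have bl : ∀ y, 1 ≤ y → lpar T y < y := fun y h => lo_lt T y 0 h
  have bh : ∀ y, y ≤ n → y < rpar n T y := fun y h => lt_hi T y _ (by omega)
  have mem : ∀ y, y ∈ T.keys ↔ 1 ≤ y ∧ y ≤ n := fun y => by
    rw [hT, List.mem_range'_1]; omega
  have c1 : ((lftPath n x (rpar n T) ∪ rgtPath n x (lpar T)).filter
      fun y => lpar T y < a ∨ b < rpar n T y).card =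
      (π.map key).countP (fun y => lpar T y < a ∨ b < rpar n T y) := by
    unfold lftPath rgtPath
    rw [← filter_or, filter_filter]
    refine card_eq_countP _ nd _ _ fun y => ?_
    rw [hk, mem_Icc]
    have := bh y
    have := bl y
    omega
  have c2 := top_le (c := 0) (d := n + 1) F T (fun y => lpar T y < a ∨ b < rpar n T y) π _ e1 o
    (fun y hy hp => by
      have p := (hk y).1 hy
      have q : rpar n T y ≤ n + 1 := hi_le y o
      rcases hp with hp | hp
      · exact ⟨a, haF, (mem a).2 (by omega), hp, by
          have := p.2.2.2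
          unfold rpar at this
          omega⟩
      · exact ⟨b, hbF (by omega), (mem b).2 (by omega), by
          have := p.2.2.1
          unfold lpar at this
          omega, hp⟩)
  have c3 := Nat.size_le_size ((cnt_le_card F T (hT ▸ List.nodup_range')).trans hF)
  have c4 : pot G (splayUp x l r π) ≤ pot F (splayUp x l r π) + Nat.size k := by
    obtain ⟨l', r', e3⟩ := f.root
    have o1 := f.ord
    have nd1 : (splayUp x l r π).keys.Nodup := by rw [f.keys, hT]; exact List.nodup_range'
    have s1 := Nat.size_le_size ((cnt_le_card G _ nd1).trans hG)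
    rw [e3] at o1 s1 ⊢
    have m1 := pot_mono (F := F) (G := G) l' fun y hy hg => by
      have := Ord.mem o1.1 hy
      rcases mem_insert.1 (hGF hg) with h | h
      · omega
      · exact h
    have m2 := pot_mono (F := F) (G := G) r' fun y hy hg => by
      have := Ord.mem o1.2 hy
      rcases mem_insert.1 (hGF hg) with h | h
      · omega
      · exact h
    simp only [pot]
    omega
  rw [e2, c1]
  simp only []
  omega

end Pool.Agent.P.MP_119182_lc
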