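import Pool.Agent.P.MP_119182_lc.Blk
import Pool.Agent.P.MP_119182_lc.Pot
import Pool.Agent.P.MP_119182_lc.Fiber
import Pool.Agent.P.MP_119182_lc.Count
import Pool.Agent.P.MP_119182_lc.Fing
import Pool.Agent.P.MP_119182_lc.Main

/-! Splaying merges of `k` nondecreasing sequences at cost `O((n + m) log k)`. -/

set_option autoImplicit false

namespace Pool.Agent.P.MP_119182_lc.Opt

open Finset CountA MainA

variable {n m k : ℕ} {x b c : ℕ → ℕ} {lp rp : ℕ → ℕ → ℕ}

/-- Links whose four points lie in four different blocks. -/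
def L4 (n m : ℕ) (x b : ℕ → ℕ) (lp rp : ℕ → ℕ → ℕ) (s : ℕ) : Finset (ℕ × ℕ) :=
  (links n m x b lp rp).filter fun p => x p.1 / s < lp (p.1 + 1) p.2 / s ∧
    lp (p.1 + 1) p.2 / s < p.2 / s ∧ p.2 / s < b p.1 / s

theorem count4 (R : Run n m k x b c lp rp) (β : ℕ) (hk : 1 ≤ k) (hB : k ≤ 2 ^ β)
    (hW : (spanSet n m k x b c).card * k ≤ 2 ^ β * n) :
    12 * (L4 n m x b lp rp (2 ^ β)).card ≤
      ∑ t ∈ range m, (rgtPath n (x t) (lp t)).card + 42624 * (n + m) := by
  have h1 : L4 n m x b lp rp (2 ^ β) ⊆ (range (n + 1)).biUnion fun l =>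
      (range 3).biUnion fun i => Lk n m x b lp rp (2 ^ (β + l)) i := fun p hp => by
    obtain ⟨hp, a1, a2, a3⟩ := mem_filter.1 hp
    have a := link R hp
    obtain ⟨l, hl, b1, b2, b3, b4⟩ := level _ _ _ _ a1 a2 a3
    have := Nat.div_le_self (b p.1) (2 ^ β)
    simp only [Nat.div_div_eq_div_mul, ← pow_add] at b1 b2 b3 b4
    simp only [mem_biUnion, mem_range, Lk, mem_filter]
    refine ⟨l, by omega, ?_⟩
    rcases b4 with h | h | h
    · exact ⟨0, by omega, hp, b1, b2, b3, by omega⟩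
    · exact ⟨1, by omega, hp, b1, b2, b3, by omega⟩
    · exact ⟨2, by omega, hp, b1, b2, b3, by omega⟩
  have h2 := (card_le_card h1).trans
    (card_biUnion_le.trans (sum_le_sum fun l _ => card_biUnion_le))
  have h3 := fun l i => bound_Lk p_FIBER R (s := 2 ^ (β + l)) (by positivity) i
    (θ := 36 * ((l + 1) * (l + 2))) (by positivity)
  generalize (spanSet n m k x b c).card = W at *
  generalize ∑ t ∈ range m, (rgtPath n (x t) (lp t)).card = Y at *
  have B0 : (0 : ℝ) < 2 ^ β := by positivity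
  have k1 : (1 : ℝ) ≤ k := by exact_mod_cast hk
  have w1 : (W : ℝ) * k ≤ 2 ^ β * n := by exact_mod_cast hW
  have w2 : (k : ℝ) ≤ 2 ^ β := by exact_mod_cast hB
  have w0 : (0 : ℝ) ≤ W := Nat.cast_nonneg W
  have m0 : (0 : ℝ) ≤ m := Nat.cast_nonneg m
  have w3 : (W : ℝ) / 2 ^ β ≤ n + m := by
    rw [div_le_iff₀ B0]
    nlinarith
  have w4 : ((W : ℝ) + m) * (k / 2 ^ β) ≤ n + m := by
    rw [← mul_div_assoc, div_le_iff₀ B0]
    nlinarith
  have h4 : ((L4 n m x b lp rp (2 ^ β)).card : ℝ) ≤ ∑ l ∈ range (n + 1),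
      (Y / 12 * ((1 : ℝ) / ((l + 1) * (l + 2))) +
        222 * (n + m) * (((l : ℝ) + 1) * (l + 2) / 2 ^ l)) := by
    refine le_trans (by exact_mod_cast h2) (sum_le_sum (f := fun l => ∑ i ∈ range 3,
      ((Lk n m x b lp rp (2 ^ (β + l)) i).card : ℝ)) fun l _ => ?_)
    refine (sum_le_sum fun i _ => h3 l i).trans ?_
    rw [sum_const, card_range, nsmul_eq_mul]
    push_cast
    have l0 : (0 : ℝ) ≤ l := Nat.cast_nonneg l
    have e1 : (Y : ℝ) * (1 / (36 * ((l + 1) * (l + 2)))) = Y / 36 * (1 / ((l + 1) * (l + 2))) := by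
      field_simp
    have e2 : 2 * (W : ℝ) * (36 * ((l + 1) * (l + 2)) / 2 ^ (β + l)) =
        72 * (W / 2 ^ β) * ((l + 1) * (l + 2) / 2 ^ l) := by
      rw [pow_add]; field_simp; ring
    have e3 : min 1 ((k : ℝ) / 2 ^ (β + l)) ≤ k / 2 ^ β * ((l + 1) * (l + 2) / 2 ^ l) := by
      refine (min_le_right _ _).trans ?_
      rw [pow_add, ← div_div, div_eq_mul_one_div _ (2 ^ l)]
      gcongr
      nlinarith
    have e4 : 2 * ((W : ℝ) + m) * min 1 ((k : ℝ) / 2 ^ (β + l)) ≤
        2 * ((W + m) * (k / 2 ^ β)) * ((l + 1) * (l + 2) / 2 ^ l) := by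
      refine (mul_le_mul_of_nonneg_left e3 (by positivity)).trans_eq ?_
      ring
    have z : (0 : ℝ) ≤ (l + 1) * (l + 2) / 2 ^ l := by positivity
    have e5 := mul_le_mul_of_nonneg_right w3 z
    have e6 := mul_le_mul_of_nonneg_right w4 z
    rw [e1, e2]
    linarith
  rw [sum_add_distrib, ← mul_sum, ← mul_sum, sum1, sum2] at h4
  have h9 : (0 : ℝ) ≤ Y / 12 * (1 / ((n + 1 : ℕ) + 1)) := by positivity
  have h10 : (0 : ℝ) ≤ 222 * (n + m) *
      ((2 * (n + 1 : ℕ) ^ 2 + 10 * (n + 1 : ℕ) + 16) / 2 ^ (n + 1)) := by positivity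
  have h12 : (12 * (L4 n m x b lp rp (2 ^ β)).card : ℝ) ≤ Y + 42624 * (n + m) := by linarith
  exact_mod_cast h12

theorem once (R : Run n m k x b c lp rp) {S : Finset (ℕ × ℕ)} (hS : S ⊆ links n m x b lp rp)
    (h : ℕ → ℕ) (hh : ∀ p ∈ S, lp (p.1 + 1) p.2 < h p.1 ∧ h p.1 ≤ p.2) : S.card ≤ m := by
  rw [← card_range m]
  refine card_le_card_of_injOn Prod.fst (fun p hp => mem_coe.2 (mem_range.2
    (link R (hS hp)).1)) fun p hp p' hp' e => ?_
  have a := hh p hp
  have a' := hh p' hp'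
  exact uniq R (hS hp) (hS hp') e a.1 a.2 (e ▸ a'.1) (e ▸ a'.2)

theorem cross (R : Run n m k x b c lp rp) {s : ℕ} (hs : 0 < s) :
    ((links n m x b lp rp).filter fun p => lp (p.1 + 1) p.2 / s ≠ p.2 / s).card ≤
      (L4 n m x b lp rp s).card + 2 * m := by
  have M : ∀ {a a' : ℕ}, a ≤ a' → a * s ≤ a' * s := fun h => Nat.mul_le_mul_right s h
  have h1 := once R (filter_subset (fun p => x p.1 / s = lp (p.1 + 1) p.2 / s ∧
    lp (p.1 + 1) p.2 / s < p.2 / s) _) (fun t => (x t / s + 1) * s) fun p hp => by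
      have a := (mem_filter.1 hp).2
      exact ⟨a.1 ▸ CountA.lt_hi _ hs, (M (by omega)).trans (lo_le _ s)⟩
  have h2 := once R (filter_subset (fun p => p.2 / s = b p.1 / s ∧
    lp (p.1 + 1) p.2 / s < p.2 / s) _) (fun t => b t / s * s) fun p hp => by
      have a := (mem_filter.1 hp).2
      exact ⟨(CountA.lt_hi _ hs).trans_le (M (by omega)), a.1 ▸ lo_le _ s⟩
  refine le_trans (card_le_card fun p hp => ?_) ((card_union_le _ _).trans
    (Nat.add_le_add_left ((card_union_le _ _).trans ((add_le_add h1 h2).trans_eq (two_mul m).symm)) _))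
  obtain ⟨hp, e⟩ := mem_filter.1 hp
  have a := link R hp
  have a1 : x p.1 / s ≤ lp (p.1 + 1) p.2 / s := Nat.div_le_div_right (by omega)
  have a2 : lp (p.1 + 1) p.2 / s ≤ p.2 / s := Nat.div_le_div_right (by omega)
  have a3 : p.2 / s ≤ b p.1 / s := Nat.div_le_div_right (by omega)
  simp only [L4, mem_union, mem_filter, hp, true_and]
  omega

theorem left_le {n x a b s : ℕ} {lp rp lq rq : ℕ → ℕ} (h : Step n x lp rp lq rq) :
    ((lftPath n x rp).filter fun y => lp y / s ≠ y / s).card ≤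
      ((lftPath n x rp ∪ rgtPath n x lp).filter fun y => lp y < a ∨ b < rp y).card +
        (x / s - a / s) := by
  have h1 : ((lftPath n x rp).filter fun y => a ≤ lp y ∧ lp y / s ≠ y / s).card ≤
      (Ioc (a / s) (x / s)).card := by
    have key : ∀ y z, y ∈ (lftPath n x rp).filter (fun y => a ≤ lp y ∧ lp y / s ≠ y / s) →
        z ∈ (lftPath n x rp).filter (fun y => a ≤ lp y ∧ lp y / s ≠ y / s) → y < z →
        y / s < z / s := fun y z hy hz e => by
      simp only [lftPath, mem_filter, mem_Icc] at hy hz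
      have a1 := h.lam z y hz.1.1.1 hz.1.1.2
      have a2 := (h.bnd z hz.1.1.1 hz.1.1.2).1
      have a3 : y / s ≤ lp z / s := Nat.div_le_div_right (by omega)
      have a4 : lp z / s ≤ z / s := Nat.div_le_div_right a2.le
      omega
    refine card_le_card_of_injOn (fun y => y / s) (fun y hy => ?_) fun y hy z hz e => ?_
    · simp only [lftPath, coe_filter, mem_filter, mem_Icc, Set.mem_ofPred_eq] at hy
      have a2 := (h.bnd y hy.1.1.1 hy.1.1.2).1
      have a3 : a / s ≤ lp y / s := Nat.div_le_div_right hy.2.1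
      have a4 : lp y / s ≤ y / s := Nat.div_le_div_right a2.le
      have a5 : y / s ≤ x / s := Nat.div_le_div_right hy.1.2.1.le
      exact mem_coe.2 (mem_Ioc.2 ⟨by dsimp only; omega, a5⟩)
    · have a1 := key y z hy hz
      have a2 := key z y hz hy
      dsimp only at e
      omega
  rw [Nat.card_Ioc] at h1
  refine le_trans (card_le_card fun y hy => ?_) ((card_union_le _ _).trans
    (Nat.add_le_add_left h1 _))
  obtain ⟨hy, e⟩ := mem_filter.1 hy
  by_cases e1 : lp y < a
  · exact mem_union_left _ (mem_filter.2 ⟨mem_union_left _ hy, Or.inl e1⟩)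
  · exact mem_union_right _ (mem_filter.2 ⟨hy, not_lt.1 e1, e⟩)

theorem right_le (n x a b s : ℕ) (lp rp lq : ℕ → ℕ) :
    ((rgtPath n x lp).filter fun u => lq u ≠ x ∧ lq u / s ≠ u / s).card ≤
      ((Icc 1 n).filter fun u => (x < u ∧ lp u < x ∧ lq u ≠ x ∧ rp u ≤ b) ∧ lq u / s ≠ u / s).card +
      ((lftPath n x rp ∪ rgtPath n x lp).filter fun y => lp y < a ∨ b < rp y).card := by
  refine (card_le_card fun y hy => ?_).trans (card_union_le _ _)
  have hy' := mem_filter.1 hy
  have h1 := mem_filter.1 hy'.1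
  by_cases e : rp y ≤ b
  · exact mem_union_left _ (mem_filter.2 ⟨h1.1, ⟨h1.2.1, h1.2.2, hy'.2.1, e⟩, hy'.2.2⟩)
  · exact mem_union_right _ (mem_filter.2 ⟨mem_union_right _ hy'.1, Or.inr (not_le.1 e)⟩)

theorem tel (A P E : ℕ → ℕ) : ∀ m, (∀ t < m, A t + P (t + 1) ≤ P t + E t) →
    ∑ t ∈ range m, A t + P m ≤ P 0 + ∑ t ∈ range m, E t
  | 0, _ => by simp
  | m + 1, h => by
    have h1 := tel A P E m fun t ht => h t (by omega)
    have h2 := h m (by omega)
    rw [sum_range_succ, sum_range_succ]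
    omega

theorem jump_le {a x s : ℕ} (hs : 0 < s) : s * (x / s - a / s) ≤ x - a + s := by
  have h1 := Nat.mul_div_le x s
  have h2 := Nat.lt_mul_div_succ a hs
  rw [Nat.mul_sub, mul_add, mul_one] at *
  omega

theorem main_nat {T : BT} {f : ℕ → ℕ} (hT : T.keys = List.range' 1 n)
    (hx : ∀ t < m, 1 ≤ x t ∧ x t ≤ n) (hf : ∀ t < m, f t < k)
    (hmono : ∀ s t, s < t → t < m → f s = f t → x s ≤ x t) :
    cost T ((List.range m).map x) ≤ 50000 * ((Nat.size k + 1) * (n + m)) := by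
  obtain ⟨Φ, hΦ0, hΦ⟩ := p_POT
  rcases Nat.eq_zero_or_pos m with rfl | hm
  · simp [cost]
  have hn : 1 ≤ n := (hx 0 hm).1.trans (hx 0 hm).2
  have hk : 1 ≤ k := lt_of_le_of_lt (Nat.zero_le _) (hf 0 hm)
  obtain ⟨a, b, c, F, f1, f2, f3, f4, f5, f6, f7⟩ := p_FING n k m x f (fun _ => 0) (fun _ => n) hx
    (fun t ht => ⟨hf t ht, Nat.zero_le _, (hx t ht).2⟩) hmono
  simp only [Nat.sub_zero, sum_const, card_range, smul_eq_mul] at f6 f7
  have hK : ∀ t ≤ m, (Tr T x t).keys = List.range' 1 n := fun t => by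
    induction t with
    | zero => exact fun _ => hT
    | succ t ih => exact fun ht => (p_STRUCT n (x t) _ (ih (by omega)) (hx t ht).1 (hx t ht).2).1
  have hS := fun t (ht : t < m) => (p_STRUCT n (x t) _ (hK t ht.le) (hx t ht).1 (hx t ht).2).2
  have hR : Run n m k x b c (fun t => lpar (Tr T x t)) (fun t => rpar n (Tr T x t)) :=
    ⟨fun t ht => (hS t ht).1, fun t ht => ⟨(hx t ht).1, (hx t ht).2, (f1 t ht).2.2.2.1, (f1 t ht).1⟩,
      f3, f4, f5⟩
  obtain ⟨s, hs⟩ : ∃ s, s = Nat.size k := ⟨_, rfl⟩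
  have k1 : k < 2 ^ s := hs ▸ Nat.lt_size_self k
  have k2 : 4 * (k * k) ≤ 2 ^ (2 * s + 2) := by
    rw [pow_add, two_mul, pow_add]
    nlinarith
  have k3 : k ≤ 2 ^ (2 * s + 2) := by nlinarith
  have e5 := count4 hR (2 * s + 2) hk k3 (by
    refine (Nat.mul_le_mul_right k f7).trans (le_trans ?_ (Nat.mul_le_mul_right n k2))
    nlinarith [Nat.mul_le_mul hk hn, Nat.mul_le_mul_left (k * n) hk, Nat.mul_le_mul_left k hn])
  have e6 := cross hR (s := 2 ^ (2 * s + 2)) (by positivity)
  have e4 := tele _ (fun t => Φ (F t) (Tr T x t)) (8 * Nat.size k + 1) m fun t ht => by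
    obtain ⟨-, g1, g2, g3, g4, g5, g6⟩ := f1 t ht
    exact (hΦ n k (x t) (a t) (b t) _ (F t) (F (t + 1)) (hK t ht.le) (hx t ht).1 (hx t ht).2
      (f2 t) (f2 _) g6 g1 g2 g3 g4 g5).trans_eq (add_assoc _ _ _)
  have e0 : Φ (F 0) (Tr T x 0) ≤ _ := hΦ0 n k T (F 0) hT (f2 0)
  have e1 := tel _ (fun t => Blk.pt (2 * s + 2) (Tr T x t) 0 (n + 1) false) _ m fun t ht =>
    (Blk.blk (2 * s + 2) (hK t ht.le) (hx t ht).1 (hx t ht).2).trans_eq
      (by rw [add_assoc, add_assoc])
  have e2 : Blk.pt (2 * s + 2) (Tr T x 0) 0 (n + 1) false ≤ _ := Blk.pt_le _ T _ _ _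
  rw [hT, List.length_range'] at e2
  have e3 := sum_le_sum fun t (ht : t ∈ range m) =>
    left_le (a := a t) (b := b t) (s := 2 ^ (2 * s + 2)) (hS t (mem_range.1 ht)).1
  have e7 := sum_le_sum fun t (_ : t ∈ range m) => right_le n (x t) (a t) (b t) (2 ^ (2 * s + 2))
    (lpar (Tr T x t)) (rpar n (Tr T x t)) (lpar (access (Tr T x t) (x t)).1)
  have e8 : ∑ t ∈ range m, (x t / 2 ^ (2 * s + 2) - a t / 2 ^ (2 * s + 2)) ≤ n + m := by
    refine Nat.le_of_mul_le_mul_left ?_ (Nat.two_pow_pos (2 * s + 2))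
    rw [mul_sum]
    refine (sum_le_sum fun t _ => jump_le (Nat.two_pow_pos _)).trans ?_
    rw [sum_add_distrib, sum_const, card_range, smul_eq_mul, mul_add, mul_comm m]
    exact Nat.add_le_add_right (f6.trans (Nat.mul_le_mul_right n k3)) _
  have e9 : ∑ t ∈ range m, (rgtPath n (x t) (lpar (Tr T x t))).card ≤
      ∑ t ∈ range m, (access (Tr T x t) (x t)).2 := sum_le_sum fun t ht => by
    rw [(hS t (mem_range.1 ht)).2.1]
    omega
  have e10 : ((links n m x b (fun t => lpar (Tr T x t)) fun t => rpar n (Tr T x t)).filter fun p =>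
      lpar (Tr T x (p.1 + 1)) p.2 / 2 ^ (2 * s + 2) ≠ p.2 / 2 ^ (2 * s + 2)).card =
      ∑ t ∈ range m, ((Icc 1 n).filter fun u => (x t < u ∧ lpar (Tr T x t) u < x t ∧
        lpar (access (Tr T x t) (x t)).1 u ≠ x t ∧ rpar n (Tr T x t) u ≤ b t) ∧
        lpar (access (Tr T x t) (x t)).1 u / 2 ^ (2 * s + 2) ≠ u / 2 ^ (2 * s + 2)).card := by
    simp only [links, filter_filter, card_filter, sum_product]
    rfl
  rw [e10] at e6
  simp only [sum_add_distrib, ← mul_sum, sum_const, card_range, smul_eq_mul] at e1 e3 e7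
  rw [← hs] at e4 e0 ⊢
  rw [cost_eq]
  have z1 : (s + 1) * (n + m) = n * s + m * s + n + m := by ring
  have z2 : m * (8 * s + 1) = 8 * (m * s) + m := by ring
  have z3 : m * (16 * (2 * s + 2) + 45) = 32 * (m * s) + 77 * m := by ring
  have z4 : n * (4 * (2 * s + 2) + 10) = 8 * (n * s) + 18 * n := by ring
  omega

/-- The length of the longest strictly decreasing subsequence ending just before time `t` and
continued by `x t`. -/
def rk (x : ℕ → ℕ) (t : ℕ) : ℕ :=
  ((range t).attach.filter fun s => x t < x s.1).sup fun s => rk x s.1 + 1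
decreasing_by exact mem_range.1 s.2

theorem rk_lt {s t : ℕ} (h : s < t) (e : x t < x s) : rk x s < rk x t := by
  rw [rk.eq_1 x t]
  exact le_sup (f := fun s : {s // s ∈ range t} => rk x s.1 + 1) (b := ⟨s, mem_range.2 h⟩)
    (mem_filter.2 ⟨mem_attach _ _, e⟩)

theorem rk_chain (x : ℕ → ℕ) (t : ℕ) : ∃ D : List ℕ, D.Sublist ((List.range t).map x) ∧
    (D ++ [x t]).Pairwise (· > ·) ∧ D.length = rk x t := by
  induction t using Nat.strong_induction_on with
  | _ t ih =>
    rcases ((range t).attach.filter fun s => x t < x s.1).eq_empty_or_nonempty with h | h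
    · exact ⟨[], List.nil_sublist _, by simp, by rw [rk, h]; rfl⟩
    · obtain ⟨⟨s, hs⟩, h1, h2⟩ := exists_mem_eq_sup _ h fun s => rk x s.1 + 1
      have hs' := mem_range.1 hs
      obtain ⟨D, d1, d2, d3⟩ := ih s hs'
      refine ⟨D ++ [x s], ?_, ?_, by rw [rk, h2, List.length_append, d3]; rfl⟩
      · refine List.Sublist.trans ?_ ((List.range_sublist.2 (Nat.succ_le_of_lt hs')).map x)
        rw [List.range_succ, List.map_append]
        exact d1.append (List.Sublist.refl _)
      · have e : x t < x s := (mem_filter.1 h1).2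
        refine List.pairwise_append.2 ⟨d2, by simp, fun y hy z hz => ?_⟩
        rw [List.mem_singleton.1 hz]
        rcases List.mem_append.1 hy with hy | hy
        · exact e.trans ((List.pairwise_append.1 d2).2.2 y hy _ (by simp))
        · rwa [List.mem_singleton.1 hy]

theorem main {T : BT} {A : List ℕ} (hT : T.keys = List.range' 1 n) (hA : ∀ a ∈ A, 1 ≤ a ∧ a ≤ n)
    (hD : ∀ D : List ℕ, D.Sublist A → D.Pairwise (· > ·) → D.length ≤ k) :
    (cost T A : ℝ) ≤ 150000 * Real.logb 2 (k + 1) * (n + A.length) := by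
  have e : (List.range A.length).map (fun t => A.getD t 0) = A :=
    List.ext_getElem (by simp) fun i h1 h2 => by simp [h2]
  have hk : ∀ t < A.length, rk (fun t => A.getD t 0) t < k := fun t ht => by
    obtain ⟨D, d1, d2, d3⟩ := rk_chain (fun t => A.getD t 0) t
    have := hD _ (by
      rw [← e]
      refine List.Sublist.trans ?_ ((List.range_sublist.2 (Nat.succ_le_of_lt ht)).map _)
      rw [List.range_succ, List.map_append, e]
      exact d1.append (List.Sublist.refl _)) d2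
    rw [List.length_append, d3] at this
    exact this
  have h := main_nat (x := fun t => A.getD t 0) hT (fun t ht => hA _ (by simp [ht])) hk
    fun s t hst _ h => not_lt.1 fun h' => (rk_lt hst h').ne h
  rw [e] at h
  rcases Nat.eq_zero_or_pos A.length with h0 | h0
  · rw [List.length_eq_zero_iff.1 h0]
    have : 0 ≤ Real.logb 2 (k + 1) :=
      Real.logb_nonneg (by norm_num) (by linarith [Nat.cast_nonneg (α := ℝ) k])
    simp only [cost, Nat.cast_zero]
    positivity
  · have a1 := size_le (lt_of_le_of_lt (Nat.zero_le _) (hk 0 h0))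
    calc (cost T A : ℝ) ≤ 50000 * (((Nat.size k + 1 : ℕ) : ℝ) * (n + A.length)) := by
          exact_mod_cast h
      _ ≤ 50000 * (3 * Real.logb 2 (k + 1) * (n + A.length)) := by gcongr
      _ = _ := by ring

theorem cost_append : ∀ (A A' : List ℕ) (T : BT), T.keys = List.range' 1 n →
    (∀ a ∈ A, 1 ≤ a ∧ a ≤ n) →
    ∃ T' : BT, T'.keys = List.range' 1 n ∧ cost T (A ++ A') = cost T A + cost T' A'
  | [], _, T, hT, _ => ⟨T, hT, by simp [cost]⟩
  | a :: A, A', T, hT, h => by
    obtain ⟨T', h1, h2⟩ := cost_append A A' (access T a).1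
      (p_STRUCT n a T hT (h a (by simp)).1 (h a (by simp)).2).1 fun y hy => h y (by simp [hy])
    exact ⟨T', h1, by simp only [List.cons_append, cost, h2, add_assoc]⟩

theorem windows (m : ℕ) : ∀ (T : BT) (A : List ℕ), A.length = m → T.keys = List.range' 1 n →
    (∀ a ∈ A, 1 ≤ a ∧ a ≤ n) →
    (∀ (i : ℕ) (D : List ℕ), D.Sublist ((A.drop i).take n) → D.Pairwise (· > ·) → D.length ≤ k) →
    (cost T A : ℝ) ≤ 150000 * Real.logb 2 (k + 1) * (n + 2 * m) := by
  induction m using Nat.strong_induction_on with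
  | _ m ih =>
    intro T A hm hT hA hD
    have hl : 0 ≤ Real.logb 2 (k + 1) :=
      Real.logb_nonneg (by norm_num) (by linarith [Nat.cast_nonneg (α := ℝ) k])
    have h1 := main (k := k) hT (fun a ha => hA a (List.mem_of_mem_take (i := n) ha)) (hD 0)
    rcases le_or_gt m n with h | h
    · rw [List.take_of_length_le (hm ▸ h), hm] at h1
      refine h1.trans ?_
      gcongr
      linarith [Nat.cast_nonneg (α := ℝ) m]
    · have hn : 1 ≤ n := by
        obtain ⟨a, ha⟩ := List.exists_mem_of_length_pos (l := A) (by omega)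
        exact (hA a ha).1.trans (hA a ha).2
      obtain ⟨T', h2, h3⟩ := cost_append (A.take n) (A.drop n) T hT
        fun a ha => hA a (List.mem_of_mem_take ha)
      have h4 := ih (m - n) (by omega) T' (A.drop n) (by simp [hm]) h2
        (fun a ha => hA a (List.mem_of_mem_drop ha)) fun i D d => hD (n + i) D (by
          rwa [List.drop_drop] at d)
      rw [List.take_append_drop] at h3
      rw [List.length_take, hm, min_eq_left h.le] at h1
      rw [Nat.cast_sub h.le] at h4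
      rw [h3, Nat.cast_add]
      linarith

end Pool.Agent.P.MP_119182_lc.Opt
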