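import Pool.Agent.P.MP_119182_lc.Tok
import Pool.Agent.P.MP_119182_lc.Dyn
import Pool.Agent.P.MP_119182_lc.Opt

/-! Splaying a sequence that avoids the pattern 132 or 312 takes linear time. -/

set_option autoImplicit false

namespace Pool.Agent.P.MP_119182_lc.Post

open Finset MainA Tok Dyn

/-- The least key accessed before time `t`. -/
def mu (n : ℕ) (x : ℕ → ℕ) : ℕ → ℕ
  | 0 => n + 1
  | t + 1 => min (mu n x t) (x t)

/-- The last time at which `y` is accessed. -/
def lst (m : ℕ) (x : ℕ → ℕ) (y : ℕ) : ℕ := ((range m).filter fun t => x t = y).sup id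

theorem ex (m : ℕ) (x : ℕ → ℕ) (y : ℕ) : ∃ t, m ≤ t ∨ y ≤ x t := ⟨m, Or.inl le_rfl⟩

variable {n m : ℕ} {x : ℕ → ℕ} {T : BT}

theorem mu_le {s : ℕ} : ∀ t, s < t → mu n x t ≤ x s
  | t + 1, h => by
    rcases Nat.lt_succ_iff_lt_or_eq.1 h with e | rfl
    · exact (min_le_left _ _).trans (mu_le t e)
    · exact min_le_right _ _

theorem mu_eq : ∀ t, mu n x t = n + 1 ∨ ∃ s < t, x s = mu n x t
  | 0 => Or.inl rfl
  | t + 1 => by
    rcases le_total (mu n x t) (x t) with e | e
    · rw [mu, min_eq_left e]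
      exact (mu_eq t).imp_right fun ⟨s, h1, h2⟩ => ⟨s, by omega, h2⟩
    · exact Or.inr ⟨t, by omega, (min_eq_right e).symm⟩

theorem mu_top : ∀ t, mu n x t ≤ n + 1
  | 0 => le_rfl
  | t + 1 => (min_le_left _ _).trans (mu_top t)

theorem mu_sum : ∀ m, ∑ t ∈ range m, (mu n x t - x t) + mu n x m = n + 1
  | 0 => by simp [mu]
  | m + 1 => by
    have := mu_sum m
    rw [sum_range_succ, mu]
    omega

theorem le_lst {t : ℕ} (h : t < m) : t ≤ lst m x (x t) :=
  le_sup (f := id) (mem_filter.2 ⟨mem_range.2 h, rfl⟩)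

theorem lst_spec {y : ℕ} (h : y ∈ (range m).image x) : lst m x y < m ∧ x (lst m x y) = y := by
  obtain ⟨t, h1, h2⟩ := mem_image.1 h
  obtain ⟨s, h3, h4⟩ := exists_mem_eq_sup ((range m).filter fun t => x t = y)
    ⟨t, mem_filter.2 ⟨h1, h2⟩⟩ id
  rw [lst, h4]
  exact ⟨mem_range.1 (mem_filter.1 h3).1, (mem_filter.1 h3).2⟩

theorem coarse {Θ : Finset ℕ} {δ : ℕ → ℕ} {t : ℕ} (a b : ℕ) (h : a < b)
    (e : sg Θ δ t a = sg Θ δ t b) : sg Θ δ (t + 1) a = sg Θ δ (t + 1) b :=
  congrArg card (filter_congr fun y hy => and_congr_right fun ht => ⟨fun e1 => not_lt.1 fun e2 => by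
    have := sg_lt hy (Nat.le_of_succ_le ht) e2
    have := sg_anti (Θ := Θ) (δ := δ) t e1
    omega, h.le.trans⟩)

theorem xl_eq {lp : ℕ → ℕ → ℕ} {Θ : Finset ℕ} {δ : ℕ → ℕ} (lq : ℕ → ℕ → ℕ)
    (h : ∀ t, lp (t + 1) = lq t) : (XL n m x lp Θ δ).card =
    ∑ t ∈ range m, ((Icc 1 n).filter fun u => x t < u ∧ lp t u < x t ∧ lq t u ≠ x t ∧
      sg Θ δ t (lq t u) ≠ sg Θ δ t u).card := by
  simp only [XL, card_filter, sum_product, h]

theorem main_nat (hT : T.keys = List.range' 1 n) (hx : ∀ t < m, 1 ≤ x t ∧ x t ≤ n)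
    (hp : ∀ s t u, s < t → t < u → u < m → x s < x u → ¬ x u < x t) :
    cost T ((List.range m).map x) ≤ 113000 * (n + m) := by
  rcases Nat.eq_zero_or_pos m with rfl | hm
  · simp [cost]
  have hK : ∀ t ≤ m, (Tr T x t).keys = List.range' 1 n := fun t => by
    induction t with
    | zero => exact fun _ => hT
    | succ t ih => exact fun ht => (p_STRUCT n (x t) _ (ih (by omega)) (hx t ht).1 (hx t ht).2).1
  have hS := fun t (ht : t < m) => (p_STRUCT n (x t) _ (hK t ht.le) (hx t ht).1 (hx t ht).2).2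
  have hM := fun t (ht : t < m) => access_mir (hK t ht.le) (hx t ht).2
  have hS' := fun t (ht : t < m) => (p_STRUCT n (n + 1 - x t) _ (keys_mir' (hK t ht.le))
    (by have := hx t ht; omega) (by have := hx t ht; omega)).2
  have inv : ∀ t ≤ m, ∀ v, 1 ≤ v → v < mu n x t → rpar n (Tr T x t) v ≤ mu n x t := fun t => by
    induction t with
    | zero => exact fun _ v _ _ => hi_le v (ord_of_keys hT)
    | succ t ih =>
      intro ht v h1 h2
      have a := mu_top (n := n) (x := x) t
      rw [mu] at h2 ⊢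
      rcases le_or_gt (x t) (mu n x t) with e | e
      · rw [min_eq_right e] at h2 ⊢
        exact (hS t ht).1.root v h1 h2
      · rw [min_eq_left e.le] at h2 ⊢
        have b := ih (by omega) v h1 h2
        exact ((hS t ht).1.off v h1 (by omega) (by omega) (by omega)).2.trans_le b
  have S1 : Sys n m x (fun t => lpar (Tr T x t)) (fun t => rpar n (Tr T x t)) ((range m).image x)
      (lst m x) := ⟨fun t ht => (hS t ht).1, fun y hy => (lst_spec hy).1.le,
    fun y hy _ => (lst_spec hy).2.ge, fun t t' y hy h1 h2 _ h4 h5 => not_lt.1 fun e => by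
      have a := lst_spec hy
      have b : t ≠ t' := fun e1 => by subst e1; omega
      exact hp t t' _ (by omega) e a.1 (by omega) (by omega)⟩
  have S2 : Sys n m (fun t => n + 1 - x t) (fun t => lpar (mir (n + 1) (Tr T x t)))
      (fun t => rpar n (mir (n + 1) (Tr T x t))) (Icc 1 n)
      (fun y => Nat.find (ex m (fun t => n + 1 - x t) y)) :=
    ⟨fun t ht => by simpa only [hM t ht, Tr] using (hS' t ht).1,
      fun y _ => Nat.find_le (Or.inl le_rfl),
      fun y _ h => (Nat.find_spec (ex m (fun t => n + 1 - x t) y)).resolve_left h.not_ge,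
      fun t t' y _ _ _ _ _ h => Nat.find_le (Or.inr h.le)⟩
  have c1 := count S1
  have c2 := count S2
  rw [xl_eq (fun t => lpar (access (Tr T x t) (x t)).1) fun _ => rfl] at c1
  rw [xl_eq _ fun _ => rfl, Nat.card_Icc] at c2
  have c3 : ((range m).image x).card ≤ n := (card_le_card fun y hy => by
    obtain ⟨t, h1, rfl⟩ := mem_image.1 hy
    exact mem_Icc.2 (hx t (mem_range.1 h1))).trans_eq (Nat.card_Icc 1 n)
  have e1 := Opt.tel _ (fun t => pt (sg ((range m).image x) (lst m x) t) (Tr T x t) 0 (n + 1)) _ m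
    fun t ht => (Nat.add_le_add_left (pt_mono coarse (ord_of_keys (hK _ ht))) _).trans
      (dyn (fun _ _ => sg_anti t)
        (fun _ => sg_lt (mem_image_of_mem x (mem_range.2 ht)) (le_lst ht))
        (hK t ht.le) (hx t ht).1 (hx t ht).2)
  have e2 : pt (sg ((range m).image x) (lst m x) 0) (Tr T x 0) 0 (n + 1) ≤ _ := pt_le _ T _ _
  rw [hT, List.length_range'] at e2
  have e3 : ∀ t ∈ range m, ((lftPath n (x t) (rpar n (Tr T x t))).filter fun y =>
      sg ((range m).image x) (lst m x) t y ≠ sg ((range m).image x) (lst m x) t (x t)).card ≤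
      2 * ((Icc 1 n).filter fun u => n + 1 - x t < u ∧
        lpar (mir (n + 1) (Tr T x t)) u < n + 1 - x t ∧
        lpar (mir (n + 1) (Tr T x (t + 1))) u ≠ n + 1 - x t ∧
        sg (Icc 1 n) (fun y => Nat.find (ex m (fun t => n + 1 - x t) y)) t
          (lpar (mir (n + 1) (Tr T x (t + 1))) u) ≠
        sg (Icc 1 n) (fun y => Nat.find (ex m (fun t => n + 1 - x t) y)) t u).card +
      (mu n x t - x t) + 1 := fun t ht => by
    have ht := mem_range.1 ht
    have a := hx t ht
    have a' := mu_top (n := n) (x := x) t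
    rcases le_or_gt (mu n x t) (x t) with e | e
    · refine le_trans (card_le_card (t := {mu n x t}) fun y hy => ?_) (by simp)
      simp only [lftPath, mem_filter, mem_Icc] at hy
      obtain ⟨⟨⟨h1, -⟩, h2, h3⟩, h4⟩ := hy
      have b := inv t ht.le y h1
      obtain ⟨s, h5, h6⟩ := (mu_eq (n := n) (x := x) t).resolve_left (by omega)
      refine mem_singleton.2 (by_contra fun h7 => h4 (congrArg card (filter_congr fun z hz =>
        and_congr_right fun h8 => ⟨fun h9 => not_lt.1 fun h10 => ?_, h2.le.trans⟩)))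
      have c := lst_spec hz
      have d : t ≠ lst m x z := fun e1 => by rw [← e1] at c; omega
      exact hp s t _ h5 (by omega) c.1 (by omega) (by omega)
    · have b := rgt_le (σ := sg (Icc 1 n) (fun y => Nat.find (ex m (fun t => n + 1 - x t) y)) t)
        (μ := n + 1 - mu n x t) (x := n + 1 - x t) (fun p g h1 h2 h3 => (sg_lt
          (mem_Icc.2 ⟨by omega, by omega⟩) ((Nat.le_find_iff _ _).2 fun s hs => by
            have := mu_le (n := n) (x := x) t hs
            omega) h2).ne') (keys_mir' (hK t ht.le)) (by omega) (by omega) fun u hu => by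
          simp only [rgtPath, mem_filter, mem_Icc] at hu
          have c := inv t ht.le (n + 1 - u) (by omega) (by omega)
          have d := lpar_mir (hK t ht.le) (y := n + 1 - u) (by omega)
          rw [show n + 1 - (n + 1 - u) = u by omega] at d
          omega
      rw [hM t ht, show n + 1 - x t - (n + 1 - mu n x t) = mu n x t - x t by omega] at b
      exact ((card_filter_le _ _).trans (lft_card (hK t ht.le) a.2)).trans b
  have e4 := sum_le_sum e3
  have e5 := mu_sum (n := n) (x := x) m
  have e6 : ∑ t ∈ range m, (rgtPath n (x t) (lpar (Tr T x t))).card ≤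
      ∑ t ∈ range m, (access (Tr T x t) (x t)).2 := sum_le_sum fun t ht => by
    rw [(hS t (mem_range.1 ht)).2.1]
    omega
  have e7 : ∑ t ∈ range m, (rgtPath n (n + 1 - x t) (lpar (mir (n + 1) (Tr T x t)))).card ≤
      ∑ t ∈ range m, (access (Tr T x t) (x t)).2 := sum_le_sum fun t ht => by
    have := (hS' t (mem_range.1 ht)).2.1
    rw [hM t (mem_range.1 ht)] at this
    dsimp only at this
    omega
  simp only [sum_add_distrib, ← mul_sum, sum_const, card_range, smul_eq_mul] at e1 e4
  rw [cost_eq]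
  omega

theorem cost_mir : ∀ (A : List ℕ) (T : BT), T.keys = List.range' 1 n → (∀ a ∈ A, 1 ≤ a ∧ a ≤ n) →
    cost (mir (n + 1) T) (A.map (n + 1 - ·)) = cost T A
  | [], _, _, _ => rfl
  | a :: A, T, hT, h => by
    have a1 := h a (by simp)
    rw [List.map_cons, cost, cost, access_mir hT a1.2,
      cost_mir A _ (p_STRUCT n a T hT a1.1 a1.2).1 fun y hy => h y (by simp [hy])]

theorem main {A : List ℕ} (hT : T.keys = List.range' 1 n) (hA : ∀ a ∈ A, 1 ≤ a ∧ a ≤ n)
    (hp : ∀ a b c, [c, a, b].Sublist A → ¬ (a < b ∧ b < c)) :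
    cost T A ≤ 113000 * (n + A.length) := by
  have e : (List.range A.length).map (fun t => A.getD t 0) = A :=
    List.ext_getElem (by simp) fun i h1 h2 => by simp [h2]
  have hx : ∀ t < A.length, 1 ≤ A.getD t 0 ∧ A.getD t 0 ≤ n := fun t ht => hA _ (by simp [ht])
  have h := main_nat (x := fun t => n + 1 - A.getD t 0) (m := A.length) (keys_mir' hT)
    (fun t ht => by have := hx t ht; omega) fun s t u h1 h2 h3 h4 h5 => by
      refine hp (A.getD t 0) (A.getD u 0) (A.getD s 0) ?_ (by omega)
      have : [s, t, u].Sublist (List.range A.length) :=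
        List.sublist_of_subperm_of_pairwise (r := (· < ·))
          (List.subperm_of_subset (by simp; omega) (by simp; omega)) (by simp; omega)
          List.pairwise_lt_range
      have := this.map fun t => A.getD t 0
      rwa [e] at this
  rw [← cost_mir A T hT hA]
  refine le_of_eq_of_le ?_ h
  conv_lhs => rw [← e, List.map_map]
  rfl

end Pool.Agent.P.MP_119182_lc.Post
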