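import Pool.Agent.P.MP_119182_lc.Iface

set_option autoImplicit false

namespace Pool.Agent.P.MP_119182_lc

open Finset

namespace RRA

/-- The tree after a sequence of accesses. -/
def run (T : BT) (A : List ℕ) : BT := A.foldl (fun T y => (access T y).1) T

theorem cost_append (A B : List ℕ) : ∀ T : BT, cost T (A ++ B) = cost T A + cost (run T A) B := by
  induction A with
  | nil => intro T; simp [cost, run]
  | cons x A ih => intro T; simp [cost, run, ih, add_assoc]

theorem run_keys (h1 : S_STRUCT) (n : ℕ) (A : List ℕ) (hA : ∀ x ∈ A, 1 ≤ x ∧ x ≤ n) :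
    ∀ T : BT, T.keys = List.range' 1 n → (run T A).keys = List.range' 1 n := by
  induction A with
  | nil => intro T h; exact h
  | cons x A ih =>
    intro T h
    have hx := hA x List.mem_cons_self
    exact ih (fun y hy => hA y (List.mem_cons_of_mem _ hy)) _ (h1 n x T h hx.1 hx.2).1

/-- The access sequence. -/
def sq (k l : ℕ) (σ : ℕ → ℕ → ℕ) (t : ℕ) : ℕ := σ (t / k) (t % k) * l + t / k % l + 1

variable {k l : ℕ} {σ : ℕ → ℕ → ℕ} (hk : 0 < k) (hl : k ≤ l)
  (hσ : ∀ q, Set.BijOn (σ q) (Set.Iio k) (Set.Iio k))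
include hk hl hσ

theorem sq_mem (t : ℕ) : 1 ≤ sq k l σ t ∧ sq k l σ t ≤ k * l := by
  have a1 : σ (t / k) (t % k) < k := (hσ _).mapsTo (Nat.mod_lt t hk)
  have a2 : t / k % l < l := Nat.mod_lt _ (hk.trans_le hl)
  have := Nat.mul_le_mul_right l (Nat.succ_le_of_lt a1)
  rw [Nat.succ_mul] at this
  unfold sq
  omega

theorem phase {C : ℝ} (hC : 0 ≤ C)
    (h2 : ∀ (n k m : ℕ) (T : BT) (x f u v : ℕ → ℕ), T.keys = List.range' 1 n →
      (∀ t < m, 1 ≤ x t ∧ x t ≤ n) → (∀ t < m, f t < k ∧ u (f t) ≤ x t ∧ x t ≤ v (f t)) →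
      (∀ s t, s < t → t < m → f s = f t → x s ≤ x t) →
      (cost T ((List.range m).map x) : ℝ) ≤
        C * Real.logb 2 (k + 1) * (n + m + ∑ j ∈ range k, ((v j - u j : ℕ) : ℝ)))
    (T : BT) (hT : T.keys = List.range' 1 (k * l)) (p : ℕ) :
    (cost T ((List.range (k * l)).map fun t => sq k l σ (p * (k * l) + t)) : ℝ) ≤
      C * Real.logb 2 (k + 1) * (3 * (k * l)) := by
  have e : ∀ t < k * l, (p * (k * l) + t) / k % l = t / k := fun t ht => by
    rw [show p * (k * l) + t = t + k * (l * p) by ring, Nat.add_mul_div_left _ _ hk,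
      Nat.add_mul_mod_self_left, Nat.mod_eq_of_lt (Nat.div_lt_of_lt_mul ht)]
  refine (h2 (k * l) k (k * l) T (fun t => sq k l σ (p * (k * l) + t))
    (fun t => σ ((p * (k * l) + t) / k) ((p * (k * l) + t) % k)) (fun j => j * l + 1)
    (fun j => j * l + l) hT (fun t _ => sq_mem hk hl hσ _) (fun t _ => ?_)
    (fun s t hst ht h => ?_)).trans ?_
  · have a2 : (p * (k * l) + t) / k % l < l := Nat.mod_lt _ (hk.trans_le hl)
    refine ⟨(hσ _).mapsTo (Nat.mod_lt _ hk), ?_, ?_⟩ <;> simp only [sq] <;> omega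
  · simp only [sq] at h ⊢
    rw [h, e s (hst.trans ht), e t ht]
    have := Nat.div_le_div_right (c := k) hst.le
    omega
  · refine mul_le_mul_of_nonneg_left ?_ (mul_nonneg hC (Real.logb_nonneg one_lt_two (by simp)))
    have : ∑ j ∈ range k, ((j * l + l - (j * l + 1) : ℕ) : ℝ) ≤ ∑ _j ∈ range k, (l : ℝ) :=
      sum_le_sum fun j _ => Nat.cast_le.2 (by omega)
    rw [sum_const, card_range, nsmul_eq_mul] at this
    push_cast
    linarith

theorem upper (h1 : S_STRUCT) {K : ℝ} (T : BT) (hT : T.keys = List.range' 1 (k * l))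
    (h : ∀ T : BT, T.keys = List.range' 1 (k * l) → ∀ p : ℕ,
      (cost T ((List.range (k * l)).map fun t => sq k l σ (p * (k * l) + t)) : ℝ) ≤ K) (p : ℕ) :
    (cost T ((List.range (p * (k * l))).map (sq k l σ)) : ℝ) ≤ p * K := by
  induction p with
  | zero => simp [cost]
  | succ p ih =>
    rw [Nat.succ_mul, List.range_add, List.map_append, cost_append, List.map_map]
    have := h _ (run_keys h1 _ ((List.range (p * (k * l))).map (sq k l σ)) (fun x hx => by
      obtain ⟨t, -, rfl⟩ := List.mem_map.1 hx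
      exact sq_mem hk hl hσ t) T hT) p
    push_cast
    rw [add_mul, one_mul]
    exact add_le_add ih this

theorem wset_ge (t j : ℕ) :
    ((t % k : ℕ) : ℝ) ≤ (wset (sq k l σ) t j : ℝ) + |(sq k l σ t : ℝ) - (j : ℝ)| := by
  have ht := Nat.div_add_mod t k
  have hp := Nat.mod_lt t hk
  have hq : ∀ s, k * (t / k) ≤ s → s ≤ t → s / k = t / k := fun s a b =>
    le_antisymm (Nat.div_le_div_right b) ((Nat.le_div_iff_mul_le hk).2 (by rwa [mul_comm]))
  have hinj : ∀ s s', s / k = s' / k → σ (s / k) (s % k) = σ (s' / k) (s' % k) → s = s' := by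
    intro s s' a b
    rw [a] at b
    rw [← Nat.div_add_mod s k, ← Nat.div_add_mod s' k, a,
      (hσ _).injOn (Nat.mod_lt s hk) (Nat.mod_lt s' hk) b]
  rcases le_or_gt (lastIdx (sq k l σ) t j) (k * (t / k)) with h | h
  · refine le_add_of_le_of_nonneg (Nat.cast_le.2 ?_) (abs_nonneg _)
    refine le_trans ?_ (card_le_card (image_subset_image (Ioc_subset_Ioc_left h)))
    rw [card_image_of_injOn, Nat.card_Ioc]
    · omega
    · intro s hs s' hs' e
      rw [coe_Ioc] at hs hs'
      have a := (hq s hs.1.le hs.2).trans (hq s' hs'.1.le hs'.2).symm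
      refine hinj s s' a (Nat.eq_of_mul_eq_mul_right (hk.trans_le hl) ?_)
      simp only [sq, a] at e ⊢
      omega
  · refine le_add_of_nonneg_of_le (Nat.cast_nonneg _) ?_
    have hne : ((range t).filter fun s => sq k l σ s = j).Nonempty := by
      rw [nonempty_iff_ne_empty]
      intro h0
      simp [lastIdx, h0] at h
    obtain ⟨L, hL, e⟩ := exists_mem_eq_sup _ hne id
    rw [mem_filter, mem_range] at hL
    rw [lastIdx, e, id] at h
    have a := hq L h.le hL.1.le
    have b : σ (L / k) (L % k) ≠ σ (t / k) (t % k) := fun b => hL.1.ne (hinj L t a b)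
    have c : (sq k l σ t : ℝ) - (j : ℝ) =
        (((σ (t / k) (t % k) : ℤ) - (σ (L / k) (L % k) : ℤ) : ℤ) : ℝ) * l := by
      rw [← hL.2]
      simp only [sq, a]
      push_cast
      ring
    have d : (1 : ℝ) ≤ |(((σ (t / k) (t % k) : ℤ) - (σ (L / k) (L % k) : ℤ) : ℤ) : ℝ)| := by
      rw [← Int.cast_abs]
      exact_mod_cast Int.one_le_abs (sub_ne_zero.2 (Nat.cast_injective.ne b.symm))
    rw [c, abs_mul, Nat.abs_cast]
    exact (Nat.cast_le.2 (hp.le.trans hl)).trans (le_mul_of_one_le_left (Nat.cast_nonneg _) d)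

omit hk hl hσ in
theorem log_le {p y : ℝ} (hp : 0 ≤ p) (h : p ≤ y) :
    Real.logb 2 (p + 2) / 2 ≤ max 1 (Real.logb 2 y) := by
  rw [div_le_iff₀ two_pos]
  rcases le_total y 2 with h2 | h2
  · have : Real.logb 2 (p + 2) ≤ 2 := by
      rw [Real.logb_le_iff_le_rpow one_lt_two (by linarith)]
      norm_num
      linarith
    linarith [le_max_left 1 (Real.logb 2 y)]
  · have : Real.logb 2 (p + 2) ≤ Real.logb 2 (y ^ 2) :=
      Real.logb_le_logb_of_le one_lt_two (by linarith) (by nlinarith)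
    rw [Real.logb_pow] at this
    push_cast at this
    linarith [le_max_right 1 (Real.logb 2 y)]

omit hk hl hσ in
theorem round : (k : ℝ) * Real.logb 2 (k + 1) ≤ 2 * ∑ p ∈ range k, Real.logb 2 ((p : ℝ) + 2) := by
  have e := sum_range_reflect (fun p : ℕ => Real.logb 2 ((p : ℝ) + 2)) k
  rw [two_mul]
  nth_rewrite 1 [← e]
  rw [← sum_add_distrib, ← nsmul_eq_mul]
  nth_rewrite 1 [← card_range k]
  refine card_nsmul_le_sum _ _ _ fun p hp => ?_
  rw [mem_range] at hp
  obtain ⟨m, rfl⟩ : ∃ m, k = p + 1 + m := ⟨k - (p + 1), by omega⟩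
  rw [show p + 1 + m - 1 - p = m by omega, ← Real.logb_mul (by positivity) (by positivity)]
  refine Real.logb_le_logb_of_le one_lt_two (by positivity) ?_
  push_cast
  nlinarith [Nat.cast_nonneg (α := ℝ) p, Nat.cast_nonneg (α := ℝ) m,
    mul_nonneg (Nat.cast_nonneg (α := ℝ) p) (Nat.cast_nonneg (α := ℝ) m)]

omit hk hl hσ in
theorem sum_mod (g : ℕ → ℝ) (r : ℕ) :
    ∑ t ∈ range (r * k), g (t % k) = r * ∑ p ∈ range k, g p := by
  induction r with
  | zero => simp
  | succ r ih =>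
    rw [Nat.succ_mul, sum_range_add, ih, Nat.cast_succ, add_mul, one_mul]
    congr 1
    refine sum_congr rfl fun p hp => ?_
    rw [Nat.mul_add_mod_of_lt (mem_range.1 hp)]

theorem lower (r : ℕ) :
    (r : ℝ) * k * Real.logb 2 (k + 1) ≤ 4 * unified (k * l) (r * k) (sq k l σ) := by
  have h1 : ∑ t ∈ range (r * k), Real.logb 2 (((t % k : ℕ) : ℝ) + 2) / 2 ≤
      unified (k * l) (r * k) (sq k l σ) := by
    refine sum_le_sum fun t _ => le_csInf ⟨_, _, sq_mem hk hl hσ t, rfl⟩ ?_
    rintro _ ⟨j, -, rfl⟩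
    exact log_le (Nat.cast_nonneg _) (wset_ge hk hl hσ t j)
  rw [sum_mod (fun p => Real.logb 2 ((p : ℝ) + 2) / 2), ← sum_div] at h1
  have h2 := mul_le_mul_of_nonneg_left (round (k := k)) (Nat.cast_nonneg (α := ℝ) r)
  linarith

end RRA

theorem p_RR (h1 : S_STRUCT) (h2 : S_MAIN) : S_RR := by
  obtain ⟨C, hC⟩ := h2
  refine ⟨24 * max C 0, fun k l r T σ hl hr hT hσ => ?_⟩
  rcases Nat.eq_zero_or_pos k with rfl | hk
  · simp [cost, unified]
  have h0 : 0 ≤ max C 0 := le_max_right _ _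
  have hlog : 0 ≤ Real.logb 2 ((k : ℝ) + 1) := Real.logb_nonneg one_lt_two (by simp)
  have hup := RRA.upper hk hl hσ h1 T hT (RRA.phase hk hl hσ h0
    fun n k m T x f u v a b c d => (hC n k m T x f u v a b c d).trans (by
      have : 0 ≤ Real.logb 2 ((k : ℝ) + 1) := Real.logb_nonneg one_lt_two (by simp)
      gcongr
      exact le_max_left _ _)) (r / l + 1)
  have hd := Nat.div_add_mod r l
  have hm := Nat.mod_lt r (hk.trans_le hl)
  have e : (r / l + 1) * (k * l) = (l * (r / l) + l) * k := by ring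
  obtain ⟨m, hm'⟩ : ∃ m, (r / l + 1) * (k * l) = r * k + m :=
    Nat.exists_eq_add_of_le (e ▸ Nat.mul_le_mul_right k (by omega))
  have e2 : (((r / l + 1) * (k * l) : ℕ) : ℝ) ≤ ((2 * r * k : ℕ) : ℝ) :=
    Nat.cast_le.2 (e ▸ Nat.mul_le_mul_right k (by omega))
  rw [hm', List.range_add, List.map_append, RRA.cost_append, Nat.cast_add] at hup
  have hlow := mul_le_mul_of_nonneg_left (RRA.lower hk hl hσ r) h0
  have e3 := mul_le_mul_of_nonneg_left e2 (mul_nonneg h0 hlog)
  change (cost T ((List.range (r * k)).map (RRA.sq k l σ)) : ℝ) ≤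
    24 * max C 0 * unified (k * l) (r * k) (RRA.sq k l σ)
  rw [Nat.cast_mul, Nat.cast_mul, Nat.cast_mul, Nat.cast_mul, Nat.cast_ofNat] at e3
  have e4 := le_trans (le_add_of_nonneg_right (Nat.cast_nonneg _)) hup
  linarith

end Pool.Agent.P.MP_119182_lc
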