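import Pool.Agent.P.MP_119182_lc.Zip

set_option autoImplicit false

namespace Pool.Agent.P.MP_119182_lc

open Finset

structure Facts (x c d : ℕ) (T0 T1 : BT) (ks : List ℕ) (e : ℕ) : Prop where
  ord : Ord T1 c d
  keys : T1.keys = T0.keys
  root : ∃ l r, T1 = BT.node l x r
  off : ∀ y, c < y → y < d → y ≠ x → y ∉ ks → lo T1 y c = lo T0 y c ∧ hi T1 y d = hi T0 y d
  mono : ∀ y ∈ ks, ∀ z ∈ ks, y < z → z < x → lo T0 y c ≤ lo T1 z c
  los : ∀ u ∈ ks, x < u → lo T1 u c ≠ x → lo T1 u c ∈ ks ∧ x < lo T1 u c ∧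
    hi T0 (lo T1 u c) d = u ∧ hi T1 u d = hi T0 u d
  cnt : ks.countP (fun y => x < y) ≤
    2 * ks.countP (fun y => x < y ∧ lo T1 y c ≠ x) + ks.countP (fun y => y < x) + e

theorem facts_base {x c d : ℕ} (l r : BT) (h : Ord (BT.node l x r) c d) :
    Facts x c d (BT.node l x r) (BT.node l x r) [] 0 :=
  ⟨h, rfl, ⟨l, r, rfl⟩, fun _ _ _ _ _ => ⟨rfl, rfl⟩, fun _ h => by simp at h,
    fun _ h => by simp at h, by simp⟩

theorem facts_step {x c d e e' : ℕ} (π : List Fr) (t0 t1 T1 : BT) (S : List ℕ)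
    (h0 : Ord (plug t0 π) c d) (hx : cL c π < x ∧ x < cH d π)
    (loc : Facts x (cL c π) (cH d π) t0 t1 S e')
    (hS : ∀ s ∈ S, cL c π < s ∧ s < cH d π ∧ s ≠ x)
    (ih : Facts x c d (plug t1 π) T1 (π.map key) e) :
    Facts x c d (plug t0 π) T1 (S ++ π.map key) (e' + e) := by
  have h1 : Ord (plug t1 π) c d := ord_repl π t0 t1 h0 loc.ord
  have rg := hole_rng π _ h0
  have out : ∀ y ∈ π.map key, lo (plug t1 π) y c = lo (plug t0 π) y c ∧
      hi (plug t1 π) y d = hi (plug t0 π) y d := by
    intro y hy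
    have := key_out π _ h0 hy
    exact plug_out this.2.1 this.2.2 π _ _ h1 h0 this.1
  have inS : ∀ s ∈ S, lo T1 s c = lo t1 s (cL c π) ∧ hi T1 s d = hi t1 s (cH d π) ∧
      lo (plug t0 π) s c = lo t0 s (cL c π) ∧ hi (plug t0 π) s d = hi t0 s (cH d π) := by
    intro s hs
    have a := hS s hs
    have nm : s ∉ π.map key := fun hm => by
      have := key_out π _ h0 hm
      omega
    have b := ih.off s (by omega) (by omega) a.2.2 nm
    have b1 := plug_in (y := s) π _ h1 a.1 a.2.1
    have b0 := plug_in (y := s) π _ h0 a.1 a.2.1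
    exact ⟨b.1.trans b1.1, b.2.trans b1.2, b0.1, b0.2⟩
  refine ⟨ih.ord, ih.keys.trans (keys_plug π _ _ loc.keys), ih.root, ?_, ?_, ?_, ?_⟩
  · intro y a1 a2 a3 a4
    rw [List.mem_append, not_or] at a4
    have b := ih.off y a1 a2 a3 a4.2
    rw [b.1, b.2]
    by_cases hin : cL c π < y ∧ y < cH d π
    · have b1 := plug_in (y := y) π _ h1 hin.1 hin.2
      have b0 := plug_in (y := y) π _ h0 hin.1 hin.2
      rw [b1.1, b1.2, b0.1, b0.2]
      exact loc.off y hin.1 hin.2 a3 a4.1
    · exact plug_out a1 a2 π _ _ h1 h0 (by omega)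
  · intro y hy z hz a1 a2
    rw [List.mem_append] at hy hz
    rcases hy with hy | hy <;> rcases hz with hz | hz
    · rw [(inS y hy).2.2.1, (inS z hz).1]
      exact loc.mono y hy z hz a1 a2
    · have := key_out π _ h0 hz
      have := hS y hy
      omega
    · have a := key_out π _ h0 hy
      have b := lo_lt (plug t0 π) y c a.2.1
      have f := le_lo z loc.ord
      rw [(inS z hz).1]
      omega
    · rw [← (out y hy).1]
      exact ih.mono y hy z hz a1 a2
  · intro u hu a1 a2
    rw [List.mem_append] at hu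
    rcases hu with hu | hu
    · have b := inS u hu
      rw [b.1] at a2 ⊢
      have f := loc.los u hu a1 a2
      refine ⟨List.mem_append_left _ f.1, f.2.1, ?_, ?_⟩
      · rw [(inS _ f.1).2.2.2]; exact f.2.2.1
      · rw [b.2.1, b.2.2.2]; exact f.2.2.2
    · have f := ih.los u hu a1 a2
      refine ⟨List.mem_append_right _ f.1, f.2.1, ?_, ?_⟩
      · rw [← (out _ f.1).2]; exact f.2.2.1
      · rw [← (out _ hu).2]; exact f.2.2.2
  · have a := loc.cnt
    have b := ih.cnt
    have f : S.countP (fun y => x < y ∧ lo T1 y c ≠ x) =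
        S.countP (fun y => x < y ∧ lo t1 y (cL c π) ≠ x) :=
      List.countP_congr fun s hs => by rw [(inS s hs).1]
    simp only [List.countP_append]
    omega

theorem loc_zigL {x c d p : ℕ} (l r a : BT) (h : Ord (BT.node a p (BT.node l x r)) c d) :
    Facts x c d (BT.node a p (BT.node l x r)) (BT.node (BT.node a p l) x r) [p] 1 := by
  have o1 := Ord.lt h.2.1
  have n1 : ¬ x < p := by omega
  refine ⟨⟨⟨h.1, h.2.1⟩, h.2.2⟩, by simp [BT.keys], ⟨_, _, rfl⟩, ?_, ?_, ?_, by simp [n1]⟩
  · intro y _ _ a3 a4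
    simp only [List.mem_singleton] at a4
    simp only [lo, hi]
    split_ifs <;> omega
  · intro y hy z hz a1 _
    simp only [List.mem_singleton] at hy hz
    omega
  · intro u hu a1 _
    simp only [List.mem_singleton] at hu
    omega

theorem loc_zigR {x c d p : ℕ} (l r b : BT) (h : Ord (BT.node (BT.node l x r) p b) c d) :
    Facts x c d (BT.node (BT.node l x r) p b) (BT.node l x (BT.node r p b)) [p] 1 := by
  have o1 := Ord.lt h.1.2
  have n1 : ¬ p < x := by omega
  refine ⟨⟨h.1.1, h.1.2, h.2⟩, by simp [BT.keys], ⟨_, _, rfl⟩, ?_, ?_, ?_, ?_⟩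
  · intro y _ _ a3 a4
    simp only [List.mem_singleton] at a4
    simp only [lo, hi]
    split_ifs <;> omega
  · intro y hy z hz a1 _
    simp only [List.mem_singleton] at hy hz
    omega
  · intro u hu a1 a2
    simp only [List.mem_singleton] at hu
    subst hu
    simp [lo, o1, n1] at a2
  · have := List.countP_le_length (p := fun y => decide (x < y)) (l := [p])
    simp only [List.length_singleton] at this
    omega

theorem loc_RR {x c d p g : ℕ} (l r b e : BT)
    (h : Ord (BT.node (BT.node (BT.node l x r) p b) g e) c d) :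
    Facts x c d (BT.node (BT.node (BT.node l x r) p b) g e)
      (BT.node l x (BT.node r p (BT.node b g e))) [p, g] 0 := by
  have o1 := Ord.lt h.1.1.2
  have o2 := Ord.lt h.1.2
  have o3 : x < g := by omega
  have n1 : ¬ p < x := by omega
  have n2 : ¬ g < p := by omega
  have n3 : ¬ g < x := by omega
  have n4 : p ≠ x := by omega
  refine ⟨⟨h.1.1.1, h.1.1.2, h.1.2, h.2⟩, by simp [BT.keys], ⟨_, _, rfl⟩, ?_, ?_, ?_, ?_⟩
  · intro y _ _ a3 a4
    simp only [List.mem_cons, List.not_mem_nil, or_false, not_or] at a4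
    simp only [lo, hi]
    split_ifs <;> omega
  · intro y hy z hz a1 _
    simp only [List.mem_cons, List.not_mem_nil, or_false] at hy hz
    omega
  · intro u hu a1 a2
    simp only [List.mem_cons, List.not_mem_nil, or_false] at hu
    rcases hu with hu | hu <;> subst hu
    · simp [lo, o1, n1] at a2
    · simp [lo, hi, o1, o2, o3, n2, n3]
  · simp [lo, o1, o2, o3, n1, n2, n3, n4]

theorem loc_LL {x c d p g : ℕ} (l r b a : BT)
    (h : Ord (BT.node a g (BT.node b p (BT.node l x r))) c d) :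
    Facts x c d (BT.node a g (BT.node b p (BT.node l x r)))
      (BT.node (BT.node (BT.node a g b) p l) x r) [p, g] 0 := by
  have o1 := Ord.lt h.2.2.1
  have o2 := Ord.lt h.2.1
  have o3 : g < x := by omega
  have n1 : ¬ x < p := by omega
  have n2 : ¬ p < g := by omega
  have n3 : ¬ x < g := by omega
  refine ⟨⟨⟨⟨h.1, h.2.1⟩, h.2.2.1⟩, h.2.2.2⟩, by simp [BT.keys], ⟨_, _, rfl⟩, ?_, ?_, ?_, ?_⟩
  · intro y _ _ a3 a4
    simp only [List.mem_cons, List.not_mem_nil, or_false, not_or] at a4
    simp only [lo, hi]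
    split_ifs <;> omega
  · intro y hy z hz a1 _
    simp only [List.mem_cons, List.not_mem_nil, or_false] at hy hz
    have e1 : y = g := by omega
    have e2 : z = p := by omega
    subst e1 e2
    simp [lo, o1]
  · intro u hu a1 a2
    simp only [List.mem_cons, List.not_mem_nil, or_false] at hu
    omega
  · simp [n1, n3]

theorem loc_RL {x c d p g : ℕ} (l r b a : BT)
    (h : Ord (BT.node a g (BT.node (BT.node l x r) p b)) c d) :
    Facts x c d (BT.node a g (BT.node (BT.node l x r) p b))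
      (BT.node (BT.node a g l) x (BT.node r p b)) [p, g] 0 := by
  have o1 := Ord.lt h.2.1.1
  have o2 := Ord.lt h.2.1.2
  have n1 : ¬ x < g := by omega
  have n2 : ¬ p < x := by omega
  refine ⟨⟨⟨h.1, h.2.1.1⟩, h.2.1.2, h.2.2⟩, by simp [BT.keys], ⟨_, _, rfl⟩, ?_, ?_, ?_, ?_⟩
  · intro y _ _ a3 a4
    simp only [List.mem_cons, List.not_mem_nil, or_false, not_or] at a4
    simp only [lo, hi]
    split_ifs <;> omega
  · intro y hy z hz a1 _
    simp only [List.mem_cons, List.not_mem_nil, or_false] at hy hz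
    omega
  · intro u hu a1 a2
    simp only [List.mem_cons, List.not_mem_nil, or_false] at hu
    have e1 : u = p := by omega
    subst e1
    simp [lo, o2, n2] at a2
  · simp [lo, o1, o2, n1, n2]

theorem loc_LR {x c d p g : ℕ} (l r a e : BT)
    (h : Ord (BT.node (BT.node a p (BT.node l x r)) g e) c d) :
    Facts x c d (BT.node (BT.node a p (BT.node l x r)) g e)
      (BT.node (BT.node a p l) x (BT.node r g e)) [p, g] 0 := by
  have o1 := Ord.lt h.1.2.1
  have o2 := Ord.lt h.1.2.2
  have n1 : ¬ x < p := by omega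
  have n2 : ¬ g < x := by omega
  refine ⟨⟨⟨h.1.1, h.1.2.1⟩, h.1.2.2, h.2⟩, by simp [BT.keys], ⟨_, _, rfl⟩, ?_, ?_, ?_, ?_⟩
  · intro y _ _ a3 a4
    simp only [List.mem_cons, List.not_mem_nil, or_false, not_or] at a4
    simp only [lo, hi]
    split_ifs <;> omega
  · intro y hy z hz a1 _
    simp only [List.mem_cons, List.not_mem_nil, or_false] at hy hz
    omega
  · intro u hu a1 a2
    simp only [List.mem_cons, List.not_mem_nil, or_false] at hu
    have e1 : u = g := by omega
    subst e1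
    simp [lo, o2, n2] at a2
  · simp [lo, o1, o2, n1, n2]

theorem two_in {c d x : ℕ} (f g : Fr) (π : List Fr) (l r : BT)
    (h : Ord (plug (BT.node l x r) (f :: g :: π)) c d) :
    (cL c π < x ∧ x < cH d π) ∧ ∀ s ∈ [key f, key g], cL c π < s ∧ s < cH d π ∧ s ≠ x := by
  have o := ord_hole _ _ h
  have o1 := Ord.lt o.1
  have o2 := Ord.lt o.2
  have a := hole_le f (g :: π) _ h
  have b := hole_le g π _ h
  refine ⟨by omega, fun s hs => ?_⟩
  simp only [List.mem_cons, List.not_mem_nil, or_false] at hs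
  omega

theorem facts_splay {x c d : ℕ} (l r : BT) (π : List Fr)
    (h : Ord (plug (BT.node l x r) π) c d) :
    ∃ e ≤ 1, Facts x c d (plug (BT.node l x r) π) (splayUp x l r π) (π.map key) e := by
  fun_induction splayUp x l r π with
  | case1 l r => exact ⟨0, by omega, facts_base l r h⟩
  | case2 l r a p => exact ⟨1, le_rfl, loc_zigL l r a h⟩
  | case3 l r p b => exact ⟨1, le_rfl, loc_zigR l r b h⟩
  | case4 l r p b g e π ih =>
    have loc := loc_RR l r b e (ord_hole π _ h)
    obtain ⟨e, he, f⟩ := ih (ord_repl π _ _ h loc.ord)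
    have w := two_in _ _ π l r h
    exact ⟨0 + e, by omega, facts_step π _ _ _ [p, g] h w.1 loc w.2 f⟩
  | case5 l r b p a g π ih =>
    have loc := loc_LL l r b a (ord_hole π _ h)
    obtain ⟨e, he, f⟩ := ih (ord_repl π _ _ h loc.ord)
    have w := two_in _ _ π l r h
    exact ⟨0 + e, by omega, facts_step π _ _ _ [p, g] h w.1 loc w.2 f⟩
  | case6 l r p b a g π ih =>
    have loc := loc_RL l r b a (ord_hole π _ h)
    obtain ⟨e, he, f⟩ := ih (ord_repl π _ _ h loc.ord)
    have w := two_in _ _ π l r h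
    exact ⟨0 + e, by omega, facts_step π _ _ _ [p, g] h w.1 loc w.2 f⟩
  | case7 l r a p g e π ih =>
    have loc := loc_LR l r a e (ord_hole π _ h)
    obtain ⟨e, he, f⟩ := ih (ord_repl π _ _ h loc.ord)
    have w := two_in _ _ π l r h
    exact ⟨0 + e, by omega, facts_step π _ _ _ [p, g] h w.1 loc w.2 f⟩

theorem card_eq_countP {n : ℕ} (ks : List ℕ) (hn : ks.Nodup) (P Q : ℕ → Prop) [DecidablePred P]
    [DecidablePred Q] (h : ∀ y, (y ∈ Icc 1 n ∧ P y) ↔ (y ∈ ks ∧ Q y)) :
    ((Icc 1 n).filter P).card = ks.countP (fun y => Q y) := by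
  rw [List.countP_eq_length_filter, ← List.toFinset_card_of_nodup (hn.filter _)]
  congr 1
  ext y
  simp only [mem_filter, List.mem_toFinset, List.mem_filter, decide_eq_true_eq]
  exact h y

/-- The zipper of an access. -/
theorem access_zip {n x : ℕ} {T : BT} (hT : T.keys = List.range' 1 n) (h1 : 1 ≤ x) (h2 : x ≤ n) :
    ∃ l r π, T = plug (BT.node l x r) π ∧ access T x = (splayUp x l r π, π.length + 1) ∧
      ∀ y, y ∈ π.map key ↔ y ∈ Icc 1 n ∧ y ≠ x ∧ lpar T y < x ∧ x < rpar n T y := by
  have o := ord_of_keys hT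
  have mem : ∀ y, y ∈ T.keys ↔ y ∈ Icc 1 n := fun y => by
    rw [hT, List.mem_range'_1, mem_Icc]; omega
  obtain ⟨l, r, π, e1, e2⟩ := find_plug x T [] 0 (n + 1) o ((mem x).2 (mem_Icc.2 ⟨h1, h2⟩))
  simp only [plug] at e2
  refine ⟨l, r, π, e2.symm, by simp [access, e1], fun y => ?_⟩
  subst e2
  constructor
  · intro hy
    have a := key_out π _ o hy
    have b : y ∈ Icc 1 n := mem_Icc.2 (by omega)
    exact ⟨b, (key_iff π l r o ((mem y).2 b)).1 hy⟩
  · rintro ⟨b, hy⟩
    exact (key_iff π l r o ((mem y).2 b)).2 hy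

theorem p_STRUCT : S_STRUCT := by
  intro n x T hT h1 h2
  have o := ord_of_keys hT
  obtain ⟨l, r, π, e1, e2, hk⟩ := access_zip hT h1 h2
  have o' : Ord (plug (BT.node l x r) π) 0 (n + 1) := e1 ▸ o
  obtain ⟨e, he, f⟩ := facts_splay l r π o'
  rw [← e1] at f
  have nd := nodup_key π _ o'
  have bl : ∀ y, 1 ≤ y → lpar T y < y := fun y h => lo_lt T y 0 h
  have bh : ∀ y, y ≤ n → y < rpar n T y := fun y h => lt_hi T y _ (by omega)
  have cR : (rgtPath n x (lpar T)).card = (π.map key).countP (fun y => x < y) := by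
    refine card_eq_countP _ nd _ _ fun y => ?_
    rw [hk, mem_Icc]
    have := bh y
    omega
  have cLf : (lftPath n x (rpar n T)).card = (π.map key).countP (fun y => y < x) := by
    refine card_eq_countP _ nd _ _ fun y => ?_
    rw [hk, mem_Icc]
    have := bl y
    omega
  have cU : ((rgtPath n x (lpar T)).filter fun u => lpar (splayUp x l r π) u ≠ x).card =
      (π.map key).countP (fun y => x < y ∧ lo (splayUp x l r π) y 0 ≠ x) := by
    unfold rgtPath
    rw [filter_filter]
    refine card_eq_countP _ nd _ _ fun y => ?_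
    rw [hk, mem_Icc]
    have := bh y
    unfold lpar at *
    omega
  rw [e2]
  refine ⟨f.keys.trans hT, ⟨?_, ?_, ?_, ?_, ?_, fun y a b => ⟨bl y a, bh y b⟩⟩, ?_, ?_⟩
  · intro y a1 a2 a3 a4
    exact f.off y (by omega) (by omega) a3 fun hm => a4 ((hk y).1 hm).2.2
  · intro y _ a2
    obtain ⟨l', r', e3⟩ := f.root
    have := f.ord
    simp only [rpar]
    rw [e3] at this ⊢
    simp only [hi, a2, if_true]
    exact hi_le y this.1
  · intro y z a1 a2 a3 a4 a5
    have b1 := bl y a1
    have b2 := bl z (by omega)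
    exact f.mono y ((hk y).2 ⟨mem_Icc.2 (by omega), by omega, by omega, a4⟩) z
      ((hk z).2 ⟨mem_Icc.2 (by omega), by omega, by omega, a5⟩) a2 a3
  · intro u a1 a2 a3 a4
    have b1 := bh u a2
    have g := f.los u ((hk u).2 ⟨mem_Icc.2 (by omega), by omega, a3, by omega⟩) a1 a4
    exact ⟨g.2.1, lo_lt _ u 0 (by omega), ((hk _).1 g.1).2.2.1, g.2.2.1, g.2.2.2⟩
  · intro y z a1 a2 a3 a4
    exact lam_ord y z o (by rw [hT, List.mem_range'_1]; omega) a3 a4
  · rw [cR, cLf]
    have a := List.length_eq_countP_add_countP (fun y => decide (y < x)) (l := π.map key)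
    have b : (π.map key).countP (fun y => decide ¬ (decide (y < x) = true)) =
        (π.map key).countP (fun y => x < y) :=
      List.countP_congr fun y hy => by
        have := ((hk y).1 hy).2.1
        simp only [decide_eq_true_eq]
        omega
    rw [List.length_map] at a
    simp only []
    omega
  · simp only []
    rw [cR, cLf, cU]
    have := f.cnt
    omega

end Pool.Agent.P.MP_119182_lc
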