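import Pool.Agent.P.MP_119182_lc.Count

/-! Counting right links that cross a live token. -/

set_option autoImplicit false

namespace Pool.Agent.P.MP_119182_lc.Tok

open Finset

/-- The number of tokens at or above `z` that are alive at time `t`. -/
def sg (Θ : Finset ℕ) (δ : ℕ → ℕ) (t z : ℕ) : ℕ := (Θ.filter fun y => t ≤ δ y ∧ z ≤ y).card

/-- A run of splays with tokens `Θ`; the token `y` is alive up to the time `δ y`. -/
structure Sys (n m : ℕ) (x : ℕ → ℕ) (lp rp : ℕ → ℕ → ℕ) (Θ : Finset ℕ) (δ : ℕ → ℕ) : Prop where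
  step : ∀ t < m, Step n (x t) (lp t) (rp t) (lp (t + 1)) (rp (t + 1))
  t0 : ∀ y ∈ Θ, δ y ≤ m
  t1 : ∀ y ∈ Θ, δ y < m → y ≤ x (δ y)
  t2 : ∀ t t' y, y ∈ Θ → t ≤ t' → t' < m → t ≤ δ y → x t < y → y < x t' → δ y ≤ t'

/-- Right links whose two ends are separated by a live token. -/
def XL (n m : ℕ) (x : ℕ → ℕ) (lp : ℕ → ℕ → ℕ) (Θ : Finset ℕ) (δ : ℕ → ℕ) : Finset (ℕ × ℕ) :=
  (range m ×ˢ Icc 1 n).filter fun p => x p.1 < p.2 ∧ lp p.1 p.2 < x p.1 ∧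
    lp (p.1 + 1) p.2 ≠ x p.1 ∧ sg Θ δ p.1 (lp (p.1 + 1) p.2) ≠ sg Θ δ p.1 p.2

variable {n m : ℕ} {x : ℕ → ℕ} {lp rp : ℕ → ℕ → ℕ} {Θ : Finset ℕ} {δ : ℕ → ℕ}

theorem sg_anti (t : ℕ) {z z' : ℕ} (h : z ≤ z') : sg Θ δ t z' ≤ sg Θ δ t z :=
  card_le_card fun _ hy => mem_filter.2
    ⟨(mem_filter.1 hy).1, (mem_filter.1 hy).2.1, h.trans (mem_filter.1 hy).2.2⟩

theorem sg_lt {t y z : ℕ} (hy : y ∈ Θ) (ht : t ≤ δ y) (h : y < z) : sg Θ δ t z < sg Θ δ t y :=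
  card_lt_card ⟨fun _ hy => mem_filter.2
    ⟨(mem_filter.1 hy).1, (mem_filter.1 hy).2.1, h.le.trans (mem_filter.1 hy).2.2⟩,
    fun e => h.not_ge (mem_filter.1 (e (mem_filter.2 ⟨hy, ht, le_rfl⟩))).2.2⟩

theorem sg_inj {t y z : ℕ} (hy : y ∈ Θ) (ht : t ≤ δ y) (hz : z ∈ Θ) (ht' : t ≤ δ z)
    (h : sg Θ δ t y = sg Θ δ t z) : y = z := by
  have a := sg_lt (z := z) hy ht
  have b := sg_lt (z := y) hz ht'
  omega

theorem sg_le (t z : ℕ) : sg Θ δ t z ≤ Θ.card := card_filter_le _ _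

theorem sg_surj {t z r : ℕ} (h1 : 1 ≤ r) (h2 : r ≤ sg Θ δ t z) :
    ∃ y ∈ Θ, t ≤ δ y ∧ z ≤ y ∧ sg Θ δ t y = r := by
  have e : (Θ.filter fun y => t ≤ δ y ∧ z ≤ y).image (sg Θ δ t) = Icc 1 (sg Θ δ t z) := by
    refine eq_of_subset_of_card_le (fun r hr => ?_) ?_
    · obtain ⟨y, hy, rfl⟩ := mem_image.1 hr
      have a := mem_filter.1 hy
      exact mem_Icc.2 ⟨Nat.zero_lt_of_lt (sg_lt a.1 a.2.1 (Nat.lt_succ_self y)), sg_anti t a.2.2⟩
    · rw [card_image_of_injOn fun y hy y' hy' => sg_inj (mem_filter.1 hy).1 (mem_filter.1 hy).2.1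
        (mem_filter.1 hy').1 (mem_filter.1 hy').2.1, Nat.card_Icc]
      exact le_rfl
  obtain ⟨y, hy, e1⟩ := mem_image.1 (e ▸ mem_Icc.2 ⟨h1, h2⟩)
  exact ⟨y, (mem_filter.1 hy).1, (mem_filter.1 hy).2.1, (mem_filter.1 hy).2.2, e1⟩

theorem late (S : Sys n m x lp rp Θ δ) {t y y' : ℕ} (hy : y ∈ Θ) (ht : t ≤ δ y) (hx : x t < y)
    (hy' : y' ∈ Θ) (ht' : t ≤ δ y') (h : y ≤ y') : δ y ≤ δ y' := by
  by_contra e
  have a := S.t0 y hy
  have b := S.t1 y' hy' (by omega)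
  have c : y ≠ y' := fun e1 => e (e1 ▸ le_rfl)
  exact e (S.t2 t _ y hy ht' (by omega) ht hx (by omega))

theorem stab (S : Sys n m x lp rp Θ δ) {t t' y z : ℕ} (hy : y ∈ Θ) (hx : x t < y) (h : y ≤ z)
    (h1 : t ≤ t') (h2 : t' ≤ δ y) : sg Θ δ t' z = sg Θ δ t z :=
  congrArg card (filter_congr fun _ hy' => ⟨fun e => ⟨h1.trans e.1, e.2⟩, fun e =>
    ⟨h2.trans (late S hy (h1.trans h2) hx hy' e.1 (h.trans e.2)), e.2⟩⟩)

theorem lnk (S : Sys n m x lp rp Θ δ) {p : ℕ × ℕ} (hp : p ∈ XL n m x lp Θ δ) :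
    p.1 < m ∧ p.2 ≤ n ∧ lp p.1 p.2 < x p.1 ∧ x p.1 < lp (p.1 + 1) p.2 ∧ lp (p.1 + 1) p.2 < p.2 ∧
      lp p.1 (lp (p.1 + 1) p.2) < x p.1 ∧ rp p.1 (lp (p.1 + 1) p.2) = p.2 ∧
      sg Θ δ p.1 p.2 < sg Θ δ p.1 (lp (p.1 + 1) p.2) ∧
      sg Θ δ p.1 (lp (p.1 + 1) p.2) ≤ sg Θ δ p.1 (x p.1 + 1) := by
  simp only [XL, mem_filter, mem_product, mem_range, mem_Icc] at hp
  obtain ⟨⟨h1, h2, h3⟩, h4, h5, h6, h7⟩ := hp
  obtain ⟨a1, a2, a3, a4, -⟩ := (S.step _ h1).los _ h4 h3 h5 h6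
  exact ⟨h1, h3, h5, a1, a2, a3, a4, (sg_anti _ a2.le).lt_of_ne h7.symm, sg_anti _ a1⟩

theorem uniq (S : Sys n m x lp rp Θ δ) {p p' : ℕ × ℕ} (hp : p ∈ XL n m x lp Θ δ)
    (hp' : p' ∈ XL n m x lp Θ δ) (e : p.1 = p'.1)
    (h1 : sg Θ δ p.1 p.2 < sg Θ δ p'.1 (lp (p'.1 + 1) p'.2))
    (h2 : sg Θ δ p'.1 p'.2 < sg Θ δ p.1 (lp (p.1 + 1) p.2)) : p = p' := by
  obtain ⟨t, u⟩ := p
  obtain ⟨t', u'⟩ := p'
  dsimp only at e h1 h2
  subst e
  have a := lnk S hp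
  have a' := lnk S hp'
  dsimp only at a a'
  have b1 : lp (t + 1) u' < u := not_le.1 fun e => h1.not_ge (sg_anti t e)
  have b2 : lp (t + 1) u < u' := not_le.1 fun e => h2.not_ge (sg_anti t e)
  have l1 := ((S.step t a.1).lam u (lp (t + 1) u') (by omega) (by omega) (by omega) b1).2
  have l2 := ((S.step t a.1).lam u' (lp (t + 1) u) (by omega) (by omega) (by omega) b2).2
  rw [show u = u' by omega]

theorem level (a : ℕ) : ∀ b c : ℕ, b + 2 ≤ a → c < b → ∃ l < a,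
    b / 2 ^ l + 2 ≤ a / 2 ^ l ∧ c / 2 ^ l < b / 2 ^ l ∧
      (b / 2 ^ l = c / 2 ^ l + 1 ∨ a / 2 ^ l = b / 2 ^ l + 2 ∨ a / 2 ^ l = b / 2 ^ l + 3) := by
  induction a using Nat.strong_induction_on with
  | _ a ih =>
    intro b c h1 h2
    by_cases h : b = c + 1 ∨ a = b + 2 ∨ a = b + 3
    · exact ⟨0, by omega, by simpa using ⟨h1, h2, h⟩⟩
    · obtain ⟨l, hl, h4⟩ := ih (a / 2) (by omega) (b / 2) (c / 2) (by omega) (by omega)
      refine ⟨l + 1, by omega, ?_⟩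
      simpa only [pow_succ', ← Nat.div_div_eq_div_mul] using h4

/-- The tokens that serve as labels at scale `s`. -/
def Lab (m : ℕ) (x : ℕ → ℕ) (Θ : Finset ℕ) (δ : ℕ → ℕ) (s : ℕ) : Finset ℕ :=
  Θ.filter fun τ => ∃ t ∈ range m, t ≤ δ τ ∧ x t < τ ∧ s ∣ sg Θ δ t τ ∧
    sg Θ δ t τ + s ≤ sg Θ δ t (x t + 1)

theorem lab_card (S : Sys n m x lp rp Θ δ) (s : ℕ) : (Lab m x Θ δ s).card * s ≤ Θ.card := by
  have h : ∀ z ∈ Lab m x Θ δ s ×ˢ range s, ∃ y ∈ Θ, δ y ≤ δ z.1 ∧ s ∣ sg Θ δ (δ y) z.1 ∧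
      sg Θ δ (δ y) y = sg Θ δ (δ y) z.1 + z.2 := fun z hz => by
    obtain ⟨h1, h2⟩ := mem_product.1 hz
    obtain ⟨h0, t, -, h3, h4, h5, h6⟩ := mem_filter.1 h1
    have h7 := sg_lt h0 h3 (Nat.lt_succ_self _)
    have h2 := mem_range.1 h2
    obtain ⟨y, y1, y2, y3, y4⟩ := sg_surj (Θ := Θ) (δ := δ) (t := t) (z := x t + 1)
      (r := sg Θ δ t z.1 + z.2) (by omega) (by omega)
    have y5 : y ≤ z.1 := not_lt.1 fun e => by
      have := sg_lt h0 h3 e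
      omega
    refine ⟨y, y1, late S y1 y2 y3 h0 h3 y5, ?_⟩
    rw [stab S y1 y3 y5 y2 le_rfl, stab S y1 y3 le_rfl y2 le_rfl]
    exact ⟨h5, y4⟩
  choose! g g1 g2 g3 g4 using h
  have : (Lab m x Θ δ s ×ˢ range s).card ≤ Θ.card := by
    refine card_le_card_of_injOn g (fun z hz => g1 z hz) fun z hz z' hz' e => ?_
    have a3 := g3 z hz
    have a4 := g4 z hz
    have b3 := g3 z' hz'
    have b4 := g4 z' hz'
    have b2 := g2 z' hz'
    rw [← e] at b2 b3 b4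
    obtain ⟨c, hc⟩ := a3
    obtain ⟨c', hc'⟩ := b3
    have r1 := mem_range.1 (mem_product.1 hz).2
    have r2 := mem_range.1 (mem_product.1 hz').2
    have e1 : z.2 = z'.2 := by
      have : (s * c + z.2) % s = (s * c' + z'.2) % s := by rw [← hc, ← hc', ← a4, ← b4]
      rwa [Nat.mul_add_mod, Nat.mul_add_mod, Nat.mod_eq_of_lt r1, Nat.mod_eq_of_lt r2] at this
    exact Prod.ext (sg_inj (mem_filter.1 (mem_product.1 hz).1).1 (g2 z hz)
      (mem_filter.1 (mem_product.1 hz').1).1 b2 (by omega)) e1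
  rwa [card_product, card_range] at this

/-- The links of scale `s` and type `i`. -/
def Lk (n m : ℕ) (x : ℕ → ℕ) (lp : ℕ → ℕ → ℕ) (Θ : Finset ℕ) (δ : ℕ → ℕ) (s i : ℕ) :
    Finset (ℕ × ℕ) :=
  (XL n m x lp Θ δ).filter fun p =>
    sg Θ δ p.1 (lp (p.1 + 1) p.2) / s + 2 ≤ sg Θ δ p.1 (x p.1 + 1) / s ∧
    sg Θ δ p.1 p.2 / s < sg Θ δ p.1 (lp (p.1 + 1) p.2) / s ∧
    (i = 0 ∧ sg Θ δ p.1 (lp (p.1 + 1) p.2) / s = sg Θ δ p.1 p.2 / s + 1 ∨
      i ≠ 0 ∧ sg Θ δ p.1 (x p.1 + 1) / s = sg Θ δ p.1 (lp (p.1 + 1) p.2) / s + (i + 1))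

/-- The nodes of the path in the window of a link. -/
def pth (n : ℕ) (x : ℕ → ℕ) (lp : ℕ → ℕ → ℕ) (Θ : Finset ℕ) (δ : ℕ → ℕ) (s i : ℕ) (p : ℕ × ℕ) :
    Finset ℕ :=
  (rgtPath n (x p.1) (lp p.1)).filter fun y =>
    sg Θ δ p.1 y / s < sg Θ δ p.1 (lp (p.1 + 1) p.2) / s ∧
      (i = 0 → sg Θ δ p.1 y / s + 1 = sg Θ δ p.1 (lp (p.1 + 1) p.2) / s)

theorem heavy (S : Sys n m x lp rp Θ δ) (s i : ℕ) :
    ∑ p ∈ Lk n m x lp Θ δ s i, (pth n x lp Θ δ s i p).card ≤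
      ∑ t ∈ range m, (rgtPath n (x t) (lp t)).card := by
  rw [← card_sigma, ← card_sigma]
  refine card_le_card_of_injOn (fun z => ⟨z.1.1, z.2⟩) ?_ ?_
  · intro z hz
    simp only [coe_sigma, Set.mem_sigma_iff, mem_coe, mem_range] at hz ⊢
    exact ⟨(lnk S (mem_filter.1 hz.1).1).1, (mem_filter.1 hz.2).1⟩
  · rintro ⟨⟨t, u⟩, y⟩ hz ⟨⟨t', u'⟩, y'⟩ hz' e1
    simp only [coe_sigma, Set.mem_sigma_iff, mem_coe] at hz hz'
    simp only [Sigma.mk.injEq, heq_eq_eq] at e1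
    obtain ⟨rfl, rfl⟩ := e1
    have a := (mem_filter.1 hz.1).2
    have a' := (mem_filter.1 hz'.1).2
    have b := (mem_filter.1 hz.2).2
    have b' := (mem_filter.1 hz'.2).2
    dsimp only at a a' b b'
    rw [uniq S (mem_filter.1 hz.1).1 (mem_filter.1 hz'.1).1 rfl
      (Nat.lt_of_div_lt_div (c := s) (by dsimp only; omega))
      (Nat.lt_of_div_lt_div (c := s) (by dsimp only; omega))]

theorem shrink (S : Sys n m x lp rp Θ δ) {τ t0 a y : ℕ} (hτ : τ ∈ Θ) (h0 : x t0 < τ) (ha : t0 ≤ a)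
    (h1 : τ < y) (h2 : y ≤ n) : ∀ b, a ≤ b → b ≤ δ τ → lp b y ≤ τ → lp a y ≤ τ := by
  intro b hb
  induction b, hb using Nat.le_induction with
  | base => exact fun _ h => h
  | succ b hb ih =>
    intro h3 h4
    have h5 := S.t0 τ hτ
    have h6 : x b ≤ τ := not_lt.1 fun e => by
      have := S.t2 t0 b τ hτ (by omega) (by omega) (by omega) h0 e
      omega
    refine ih (by omega) ?_
    by_cases e : lp b y < x b
    · omega
    · rwa [((S.step b (by omega)).off y (by omega) h2 (by omega) fun e1 => e e1.1).1] at h4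

theorem light (S : Sys n m x lp rp Θ δ) {s : ℕ} (hs : 0 < s) (i θ : ℕ) :
    ((Lk n m x lp Θ δ s i).filter fun p => (pth n x lp Θ δ s i p).card ≤ θ).card ≤
      θ * (Lab m x Θ δ s).card := by
  have h : ∀ p ∈ Lk n m x lp Θ δ s i, ∃ τ ∈ Θ, p.1 ≤ δ τ ∧ x p.1 + 1 ≤ τ ∧
      sg Θ δ p.1 τ = (sg Θ δ p.1 (lp (p.1 + 1) p.2) / s + 1) * s := fun p hp => by
    have a := (mem_filter.1 hp).2.1
    exact sg_surj (Nat.mul_pos (Nat.succ_pos _) hs)
      ((Nat.mul_le_mul_right s (by omega)).trans (Nat.div_mul_le_self _ s))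
  choose! κ k1 k2 k3 k4 using h
  have k5 : ∀ p ∈ Lk n m x lp Θ δ s i, κ p < lp (p.1 + 1) p.2 := fun p hp => not_le.1 fun e => by
    have a := sg_anti (Θ := Θ) (δ := δ) p.1 e
    have b := CountA.lt_hi (sg Θ δ p.1 (lp (p.1 + 1) p.2)) hs
    rw [k4 p hp] at a
    omega
  refine card_le_mul_card_image_of_maps_to (f := κ) (fun p hp => ?_) θ fun τ _ => ?_
  · have hp := (mem_filter.1 hp).1
    have a := (mem_filter.1 hp).2.1
    refine mem_filter.2 ⟨k1 p hp, p.1, mem_range.2 (lnk S (mem_filter.1 hp).1).1, k2 p hp, k3 p hp,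
      k4 p hp ▸ Dvd.intro_left _ rfl, ?_⟩
    rw [k4 p hp, ← add_one_mul]
    exact (Nat.mul_le_mul_right s (by omega)).trans (Nat.div_mul_le_self _ s)
  set F := ((Lk n m x lp Θ δ s i).filter fun p => (pth n x lp Θ δ s i p).card ≤ θ).filter
    fun p => κ p = τ
  rcases F.eq_empty_or_nonempty with h0 | h0
  · simp [h0]
  obtain ⟨p0, hp0, hmin⟩ := exists_min_image F Prod.fst h0
  have f1 : ∀ p ∈ F, p ∈ Lk n m x lp Θ δ s i := fun p hp => (mem_filter.1 (mem_filter.1 hp).1).1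
  have f2 : ∀ p ∈ F, κ p = τ := fun p hp => (mem_filter.1 hp).2
  have hτ : τ ∈ Θ := f2 p0 hp0 ▸ k1 p0 (f1 p0 hp0)
  have f3 : ∀ p ∈ F, p.1 ≤ δ τ := fun p hp => f2 p hp ▸ k2 p (f1 p hp)
  have f4 : ∀ p ∈ F, x p.1 < τ := fun p hp => f2 p hp ▸ k3 p (f1 p hp)
  have f5 : ∀ p ∈ F, τ < lp (p.1 + 1) p.2 := fun p hp => f2 p hp ▸ k5 p (f1 p hp)
  have f6 : ∀ p ∈ F, ∀ z, τ ≤ z → sg Θ δ p.1 z = sg Θ δ p0.1 z := fun p hp z hz =>
    stab S hτ (f4 p0 hp0) hz (hmin p hp) (f3 p hp)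
  have f7 : ∀ p ∈ F, sg Θ δ p.1 (lp (p.1 + 1) p.2) / s = sg Θ δ p0.1 (lp (p0.1 + 1) p0.2) / s :=
    fun p hp => by
      have a := k4 p (f1 p hp)
      have b := k4 p0 (f1 p0 hp0)
      rw [f2 p hp, f6 p hp τ le_rfl] at a
      rw [f2 p0 hp0, a] at b
      exact Nat.succ_injective (Nat.eq_of_mul_eq_mul_right hs b)
  refine le_trans (card_le_card_of_injOn Prod.snd (fun p hp => ?_) fun p hp p' hp' e => ?_)
    (mem_filter.1 (mem_filter.1 hp0).1).2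
  · have a := lnk S (mem_filter.1 (f1 p hp)).1
    have a0 := lnk S (mem_filter.1 (f1 p0 hp0)).1
    have b := (mem_filter.1 (f1 p hp)).2
    have c := f5 p hp
    have c0 := f5 p0 hp0
    have c1 := f4 p hp
    have c2 := f4 p0 hp0
    have d := shrink S hτ c2 le_rfl (by omega) a.2.1 p.1 (hmin p hp) (f3 p hp) (by omega)
    rw [f7 p hp, f6 p hp p.2 (by omega)] at b
    have g : lp (p0.1 + 1) p0.2 < p.2 := not_le.1 fun e =>
      b.2.1.not_ge (Nat.div_le_div_right (sg_anti _ e))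
    have l := ((S.step _ a0.1).lam p.2 (lp (p0.1 + 1) p0.2) (by omega) a.2.1 (by omega) g).1
    simp only [pth, rgtPath, coe_filter, mem_filter, mem_Icc, Set.mem_ofPred_eq]
    omega
  · have key : ∀ p ∈ F, ∀ p' ∈ F, p.2 = p'.2 → ¬ p.1 < p'.1 := fun p hp p' hp' e hlt => by
      have a := lnk S (mem_filter.1 (f1 p hp)).1
      have a' := lnk S (mem_filter.1 (f1 p' hp')).1
      have c := f5 p hp
      have c1 := f4 p' hp'
      have d := shrink S hτ (f4 p hp) (Nat.le_succ _) (y := p.2) (by omega) a.2.1 p'.1 hlt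
        (f3 p' hp') (by rw [e]; omega)
      exact c.not_ge d
    have a := key p hp p' hp' e
    have b := key p' hp' p hp e.symm
    exact Prod.ext (by omega) e

theorem bound (S : Sys n m x lp rp Θ δ) {s : ℕ} (hs : 0 < s) (i : ℕ) {θ : ℕ} (hθ : 0 < θ) :
    ((Lk n m x lp Θ δ s i).card : ℝ) ≤
      (∑ t ∈ range m, (rgtPath n (x t) (lp t)).card : ℕ) * (1 / θ) + Θ.card * (θ / s) := by
  have a1 := light S hs i θ
  have a2 := lab_card S s
  have a3 : ((Lk n m x lp Θ δ s i).filter fun p => ¬ (pth n x lp Θ δ s i p).card ≤ θ).card * θ ≤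
      ∑ t ∈ range m, (rgtPath n (x t) (lp t)).card :=
    le_trans (card_nsmul_le_sum _ _ θ fun p hp => (not_le.1 (mem_filter.1 hp).2).le)
      ((sum_le_sum_of_subset (filter_subset _ _)).trans (heavy S s i))
  rw [← card_filter_add_card_filter_not (fun p => (pth n x lp Θ δ s i p).card ≤ θ), add_comm,
    Nat.cast_add, mul_one_div, ← mul_div_assoc]
  have s0 : (0 : ℝ) < s := by exact_mod_cast hs
  have t0 : (0 : ℝ) < θ := by exact_mod_cast hθ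
  refine add_le_add ((le_div_iff₀ t0).2 (by exact_mod_cast a3)) ((le_div_iff₀ s0).2 ?_)
  have : ((Lk n m x lp Θ δ s i).filter fun p => (pth n x lp Θ δ s i p).card ≤ θ).card * s ≤
      Θ.card * θ := by
    refine (Nat.mul_le_mul_right s a1).trans ?_
    rw [mul_assoc, mul_comm θ]
    exact Nat.mul_le_mul_right θ a2
  exact_mod_cast this

open CountA in
theorem count (S : Sys n m x lp rp Θ δ) : 28 * (XL n m x lp Θ δ).card ≤
    ∑ t ∈ range m, (rgtPath n (x t) (lp t)).card + 112896 * Θ.card + 56 * m := by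
  have h0 : ((XL n m x lp Θ δ).filter fun p =>
      sg Θ δ p.1 (x p.1 + 1) < sg Θ δ p.1 (lp (p.1 + 1) p.2) + 2).card ≤
      (range m ×ˢ range 2).card := by
    refine card_le_card_of_injOn
      (fun p => (p.1, sg Θ δ p.1 (x p.1 + 1) - sg Θ δ p.1 (lp (p.1 + 1) p.2))) (fun p hp => ?_)
      fun p hp p' hp' e => ?_
    · have a := mem_filter.1 hp
      exact mem_coe.2 (mem_product.2 ⟨mem_range.2 (lnk S a.1).1, mem_range.2 (by dsimp only; omega)⟩)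
    · have a := lnk S (mem_filter.1 hp).1
      have a' := lnk S (mem_filter.1 hp').1
      simp only [Prod.mk.injEq] at e
      obtain ⟨e1, e2⟩ := e
      have e3 : sg Θ δ p.1 (x p.1 + 1) = sg Θ δ p'.1 (x p'.1 + 1) := by rw [e1]
      exact uniq S (mem_filter.1 hp).1 (mem_filter.1 hp').1 e1 (by omega) (by omega)
  rw [card_product, card_range, card_range] at h0
  have h1 : ((XL n m x lp Θ δ).filter fun p =>
      ¬ sg Θ δ p.1 (x p.1 + 1) < sg Θ δ p.1 (lp (p.1 + 1) p.2) + 2) ⊆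
      (range Θ.card).biUnion fun l => (range 3).biUnion fun i => Lk n m x lp Θ δ (2 ^ l) i :=
    fun p hp => by
      obtain ⟨hp, e⟩ := mem_filter.1 hp
      obtain ⟨l, hl, b1, b2, b3⟩ := level _ _ _ (not_lt.1 e) (lnk S hp).2.2.2.2.2.2.2.1
      simp only [mem_biUnion, mem_range, Lk, mem_filter]
      refine ⟨l, hl.trans_le (sg_le _ _), ?_⟩
      rcases b3 with h | h | h
      · exact ⟨0, by omega, hp, b1, b2, by omega⟩
      · exact ⟨1, by omega, hp, b1, b2, by omega⟩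
      · exact ⟨2, by omega, hp, b1, b2, by omega⟩
  have h2 := (card_le_card h1).trans
    (card_biUnion_le.trans (sum_le_sum fun l _ => card_biUnion_le))
  have h3 := fun l i => bound S (s := 2 ^ l) (by positivity) i
    (θ := 84 * ((l + 1) * (l + 2))) (by positivity)
  rw [← card_filter_add_card_filter_not (fun p : ℕ × ℕ =>
    sg Θ δ p.1 (x p.1 + 1) < sg Θ δ p.1 (lp (p.1 + 1) p.2) + 2)]
  generalize ((XL n m x lp Θ δ).filter fun p =>
      ¬ sg Θ δ p.1 (x p.1 + 1) < sg Θ δ p.1 (lp (p.1 + 1) p.2) + 2).card = N at *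
  generalize ∑ t ∈ range m, (rgtPath n (x t) (lp t)).card = Y at *
  have h4 : (N : ℝ) ≤ ∑ l ∈ range Θ.card, (Y / 28 * ((1 : ℝ) / ((l + 1) * (l + 2))) +
      252 * Θ.card * (((l : ℝ) + 1) * (l + 2) / 2 ^ l)) := by
    refine le_trans (by exact_mod_cast h2) (sum_le_sum (f := fun l => ∑ i ∈ range 3,
      ((Lk n m x lp Θ δ (2 ^ l) i).card : ℝ)) fun l _ => ?_)
    refine (sum_le_sum fun i _ => h3 l i).trans (le_of_eq ?_)
    rw [sum_const, card_range, nsmul_eq_mul]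
    push_cast
    field_simp
    ring
  rw [sum_add_distrib, ← mul_sum, ← mul_sum, sum1, sum2] at h4
  have h9 : (0 : ℝ) ≤ Y / 28 * (1 / (Θ.card + 1)) := by positivity
  have h10 : (0 : ℝ) ≤ 252 * Θ.card *
      ((2 * Θ.card ^ 2 + 10 * Θ.card + 16) / 2 ^ Θ.card) := by positivity
  have h12 : (28 * N : ℝ) ≤ Y + 112896 * Θ.card := by linarith
  have h13 : 28 * N ≤ Y + 112896 * Θ.card := by exact_mod_cast h12
  omega

end Pool.Agent.P.MP_119182_lc.Tok
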