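import Pool.Agent.P.MP_119182_lc.Iface

set_option autoImplicit false

namespace Pool.Agent.P.MP_119182_lc

def Ord : BT → ℕ → ℕ → Prop
  | BT.nil, c, d => c < d
  | BT.node l k r, c, d => Ord l c k ∧ Ord r k d

theorem Ord.lt : ∀ {t : BT} {c d : ℕ}, Ord t c d → c < d
  | BT.nil, _, _, h => h
  | BT.node _ _ _, _, _, h => (Ord.lt h.1).trans (Ord.lt h.2)

theorem Ord.mem : ∀ {t : BT} {c d y : ℕ}, Ord t c d → y ∈ t.keys → c < y ∧ y < d
  | BT.nil, _, _, _, _, h => by simp [BT.keys] at h
  | BT.node l k r, c, d, y, h, hy => by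
    have a1 := Ord.lt h.1
    have a2 := Ord.lt h.2
    simp only [BT.keys, List.mem_append, List.mem_cons] at hy
    rcases hy with hy | hy | hy
    · have := Ord.mem h.1 hy; omega
    · omega
    · have := Ord.mem h.2 hy; omega

theorem ord_of_pairwise : ∀ (t : BT) (c d : ℕ), c < d → t.keys.Pairwise (· < ·) →
    (∀ y ∈ t.keys, c < y ∧ y < d) → Ord t c d
  | BT.nil, _, _, h, _, _ => h
  | BT.node l k r, c, d, _, hp, hm => by
    simp only [BT.keys, List.pairwise_append, List.pairwise_cons, List.mem_cons] at hp
    obtain ⟨p1, ⟨p2, p3⟩, p4⟩ := hp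
    have hk := hm k (by simp [BT.keys])
    refine ⟨ord_of_pairwise l c k hk.1 p1 fun y hy => ⟨(hm y (by simp [BT.keys, hy])).1,
      p4 y hy k (Or.inl rfl)⟩, ord_of_pairwise r k d hk.2 p3 fun y hy =>
      ⟨p2 y hy, (hm y (by simp [BT.keys, hy])).2⟩⟩

theorem ord_of_keys {t : BT} {n : ℕ} (h : t.keys = List.range' 1 n) : Ord t 0 (n + 1) := by
  refine ord_of_pairwise t 0 (n + 1) (by omega) (h ▸ List.pairwise_lt_range') ?_
  intro y hy
  rw [h, List.mem_range'_1] at hy
  omega

theorem lo_lt : ∀ (t : BT) (y c : ℕ), c < y → lo t y c < y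
  | BT.nil, _, _, h => h
  | BT.node l k r, y, c, h => by
    unfold lo
    split_ifs with h1 h2
    · exact lo_lt l y c h
    · exact lo_lt r y k h2
    · exact h

theorem lt_hi : ∀ (t : BT) (y d : ℕ), y < d → y < hi t y d
  | BT.nil, _, _, h => h
  | BT.node l k r, y, d, h => by
    unfold hi
    split_ifs with h1 h2
    · exact lt_hi l y k h1
    · exact lt_hi r y d h
    · exact h

theorem le_lo : ∀ {t : BT} {c d : ℕ} (y : ℕ), Ord t c d → c ≤ lo t y c
  | BT.nil, _, _, _, _ => le_rfl
  | BT.node l k r, c, d, y, h => by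
    unfold lo
    split_ifs with h1 h2
    · exact le_lo y h.1
    · exact (Ord.lt h.1).le.trans (le_lo y h.2)
    · exact le_rfl

theorem hi_le : ∀ {t : BT} {c d : ℕ} (y : ℕ), Ord t c d → hi t y d ≤ d
  | BT.nil, _, _, _, _ => le_rfl
  | BT.node l k r, c, d, y, h => by
    unfold hi
    split_ifs with h1 h2
    · exact (hi_le y h.1).trans (Ord.lt h.2).le
    · exact hi_le y h.2
    · exact le_rfl

theorem lam_ord : ∀ {t : BT} {c d : ℕ} (y z : ℕ), Ord t c d → y ∈ t.keys → lo t y c < z → z < y →
    lo t y c ≤ lo t z c ∧ hi t z d ≤ y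
  | BT.nil, _, _, _, _, _, hy, _, _ => by simp [BT.keys] at hy
  | BT.node l k r, c, d, y, z, h, hy, h1, h2 => by
    simp only [BT.keys, List.mem_append, List.mem_cons] at hy
    rcases hy with hy | hy | hy
    · have a := (Ord.mem h.1 hy).2
      have b : z < k := by omega
      simp only [lo, hi, a, b, if_true] at h1 ⊢
      exact lam_ord y z h.1 hy h1 h2
    · subst hy
      simp only [lo, hi, h2, lt_irrefl, if_true, if_false] at h1 ⊢
      exact ⟨le_lo z h.1, hi_le z h.1⟩
    · have a := (Ord.mem h.2 hy).1
      have a' : ¬ y < k := by omega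
      simp only [lo, a, a', if_true, if_false] at h1
      have b : k < z := lt_of_le_of_lt (le_lo y h.2) h1
      have b' : ¬ z < k := by omega
      simp only [lo, hi, a, a', b, b', if_true, if_false]
      exact lam_ord y z h.2 hy h1 h2

def ap : Fr → BT → BT
  | Fr.lft a y, t => BT.node a y t
  | Fr.rgt y b, t => BT.node t y b

def plug : BT → List Fr → BT
  | t, [] => t
  | t, f :: π => plug (ap f t) π

def key : Fr → ℕ
  | Fr.lft _ y => y
  | Fr.rgt y _ => y

def cL (c : ℕ) : List Fr → ℕ
  | [] => c
  | Fr.lft _ y :: _ => y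
  | Fr.rgt _ _ :: π => cL c π

def cH (d : ℕ) : List Fr → ℕ
  | [] => d
  | Fr.lft _ _ :: π => cH d π
  | Fr.rgt y _ :: _ => y

theorem find_plug (x : ℕ) : ∀ (t : BT) (π : List Fr) (c d : ℕ), Ord t c d → x ∈ t.keys →
    ∃ l r ρ, find x t π = some (l, r, ρ) ∧ plug (BT.node l x r) ρ = plug t π
  | BT.nil, _, _, _, _, h => by simp [BT.keys] at h
  | BT.node l k r, π, c, d, h, hx => by
    simp only [BT.keys, List.mem_append, List.mem_cons] at hx
    unfold find
    rcases hx with hx | hx | hx
    · have a := (Ord.mem h.1 hx).2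
      rw [if_pos a]
      exact find_plug x l _ c k h.1 hx
    · subst hx
      simp only [lt_irrefl, if_false]
      exact ⟨l, r, π, rfl, rfl⟩
    · have a := (Ord.mem h.2 hx).1
      rw [if_neg (by omega), if_pos a]
      exact find_plug x r _ k d h.2 hx

theorem keys_plug : ∀ (π : List Fr) (t t' : BT), t.keys = t'.keys →
    (plug t π).keys = (plug t' π).keys
  | [], _, _, h => h
  | f :: π, t, t', h => by
    refine keys_plug π _ _ ?_
    cases f <;> simp [ap, BT.keys, h]

theorem ord_hole {c d : ℕ} : ∀ (π : List Fr) (t : BT), Ord (plug t π) c d →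
    Ord t (cL c π) (cH d π)
  | [], _, h => h
  | f :: π, t, h => by
    have := ord_hole π _ h
    cases f
    · exact this.2
    · exact this.1

theorem ord_repl {c d : ℕ} : ∀ (π : List Fr) (t t' : BT), Ord (plug t π) c d →
    Ord t' (cL c π) (cH d π) → Ord (plug t' π) c d
  | [], _, _, _, h => h
  | f :: π, t, t', h, h' => by
    have := ord_hole π _ h
    refine ord_repl π _ _ h ?_
    cases f
    · exact ⟨this.1, h'⟩
    · exact ⟨h', this.2⟩

theorem hole_le {c d : ℕ} (f : Fr) (π : List Fr) (t : BT) (h : Ord (plug t (f :: π)) c d) :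
    cL c π ≤ cL c (f :: π) ∧ cH d (f :: π) ≤ cH d π ∧ cL c π < key f ∧ key f < cH d π ∧
      (key f = cL c (f :: π) ∨ key f = cH d (f :: π)) := by
  have := ord_hole π _ h
  cases f
  · have a := Ord.lt this.1
    have b := Ord.lt this.2
    simp only [cL, cH, key]
    refine ⟨a.le, le_rfl, a, b, Or.inl trivial⟩
  · have a := Ord.lt this.1
    have b := Ord.lt this.2
    simp only [cL, cH, key]
    refine ⟨le_rfl, b.le, a, b, Or.inr trivial⟩

theorem plug_in {c d y : ℕ} : ∀ (π : List Fr) (t : BT), Ord (plug t π) c d → cL c π < y →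
    y < cH d π → lo (plug t π) y c = lo t y (cL c π) ∧ hi (plug t π) y d = hi t y (cH d π)
  | [], _, _, _, _ => ⟨rfl, rfl⟩
  | f :: π, t, h, h1, h2 => by
    have a := hole_le f π t h
    have := plug_in (y := y) π _ h (by omega) (by omega)
    simp only [plug]
    rw [this.1, this.2]
    cases f with
    | lft a k =>
      simp only [cL, cH] at h1 h2 ⊢
      have : ¬ y < k := by omega
      simp [ap, lo, hi, h1, this]
    | rgt k b =>
      simp only [cL, cH] at h1 h2 ⊢
      simp [ap, lo, hi, h2]

theorem plug_out {c d y : ℕ} (hc : c < y) (hd : y < d) : ∀ (π : List Fr) (t t' : BT),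
    Ord (plug t π) c d → Ord (plug t' π) c d → (y ≤ cL c π ∨ cH d π ≤ y) →
    lo (plug t π) y c = lo (plug t' π) y c ∧ hi (plug t π) y d = hi (plug t' π) y d
  | [], _, _, _, _, h => by simp only [cL, cH] at h; omega
  | f :: π, t, t', h, h', ho => by
    by_cases hin : cL c π < y ∧ y < cH d π
    · have a := plug_in (y := y) π _ h hin.1 hin.2
      have b := plug_in (y := y) π _ h' hin.1 hin.2
      simp only [plug]
      rw [a.1, a.2, b.1, b.2]
      cases f with
      | lft a k =>
        simp only [cL, cH] at ho
        have : ¬ k < y := by omega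
        simp [ap, lo, hi, this]
      | rgt k b =>
        simp only [cL, cH] at ho
        have : ¬ y < k := by omega
        simp [ap, lo, hi, this]
    · exact plug_out hc hd π _ _ h h' (by omega)

theorem hole_rng {c d : ℕ} : ∀ (π : List Fr) (t : BT), Ord (plug t π) c d →
    c ≤ cL c π ∧ cH d π ≤ d
  | [], _, _ => ⟨le_rfl, le_rfl⟩
  | f :: π, t, h => by
    have a := hole_le f π t h
    have b := hole_rng π _ h
    omega

theorem key_out {c d y : ℕ} : ∀ (π : List Fr) (t : BT), Ord (plug t π) c d → y ∈ π.map key →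
    (y ≤ cL c π ∨ cH d π ≤ y) ∧ c < y ∧ y < d
  | [], _, _, h => by simp at h
  | f :: π, t, h, hy => by
    have a := hole_le f π t h
    have b := hole_rng π _ h
    rw [List.map_cons, List.mem_cons] at hy
    rcases hy with hy | hy
    · omega
    · have := key_out π _ h hy
      omega

theorem nodup_key {c d : ℕ} : ∀ (π : List Fr) (t : BT), Ord (plug t π) c d → (π.map key).Nodup
  | [], _, _ => by simp
  | f :: π, t, h => by
    rw [List.map_cons, List.nodup_cons]
    refine ⟨fun hm => ?_, nodup_key π _ h⟩
    have a := hole_le f π t h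
    have b := key_out π _ h hm
    omega

theorem head_val {c d : ℕ} (f : Fr) (π : List Fr) (t : BT) (h : Ord (plug t (f :: π)) c d) :
    lo (plug t (f :: π)) (key f) c = cL c π ∧ hi (plug t (f :: π)) (key f) d = cH d π := by
  have a := hole_le f π t h
  have b := plug_in (y := key f) π _ h a.2.2.1 a.2.2.2.1
  simp only [plug]
  rw [b.1, b.2]
  cases f <;> simp [ap, lo, hi, key]

theorem key_path {c d x y : ℕ} : ∀ (π : List Fr) (t : BT), Ord (plug t π) c d → cL c π < x →
    x < cH d π → y ∈ π.map key → lo (plug t π) y c < x ∧ x < hi (plug t π) y d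
  | [], _, _, _, _, h => by simp at h
  | f :: π, t, h, h1, h2, hy => by
    have a := hole_le f π t h
    rw [List.map_cons, List.mem_cons] at hy
    rcases hy with hy | hy
    · have b := head_val f π t h
      rw [hy, b.1, b.2]
      omega
    · exact key_path π _ h (by omega) (by omega) hy

theorem path_key {c d x y : ℕ} : ∀ (π : List Fr) (t : BT), Ord (plug t π) c d → cL c π < x →
    x < cH d π → y ∈ (plug t π).keys → lo (plug t π) y c < x → x < hi (plug t π) y d →
    y ∈ π.map key ∨ y ∈ t.keys
  | [], _, _, _, _, h, _, _ => Or.inr h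
  | f :: π, t, h, h1, h2, hy, h3, h4 => by
    have a := hole_le f π t h
    rcases path_key π _ h (by omega) (by omega) hy h3 h4 with hm | hm
    · exact Or.inl (by simp [hm])
    · have o := ord_hole π _ h
      have m := Ord.mem o hm
      have b := plug_in (y := y) π _ h m.1 m.2
      simp only [plug] at h3 h4
      rw [b.1] at h3
      rw [b.2] at h4
      cases f with
      | lft s k =>
        simp only [ap, BT.keys, List.mem_append, List.mem_cons] at hm
        rcases hm with hm | hm | hm
        · have e := (Ord.mem o.1 hm).2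
          simp only [ap, hi, e, if_true] at h4
          have := hi_le y o.1
          simp only [cL] at h1
          omega
        · exact Or.inl (by simp [key, hm])
        · exact Or.inr hm
      | rgt k s =>
        simp only [ap, BT.keys, List.mem_append, List.mem_cons] at hm
        rcases hm with hm | hm | hm
        · exact Or.inr hm
        · exact Or.inl (by simp [key, hm])
        · have e := (Ord.mem o.2 hm).1
          have e' : ¬ y < k := by omega
          simp only [ap, lo, e, e', if_true, if_false] at h3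
          have := le_lo y o.2
          simp only [cH] at h2
          omega

/-- The frame keys are exactly the proper ancestors of `x`. -/
theorem key_iff {c d x y : ℕ} (π : List Fr) (l r : BT) (h : Ord (plug (BT.node l x r) π) c d)
    (hy : y ∈ (plug (BT.node l x r) π).keys) :
    y ∈ π.map key ↔ y ≠ x ∧ lo (plug (BT.node l x r) π) y c < x ∧
      x < hi (plug (BT.node l x r) π) y d := by
  have o := ord_hole π _ h
  have o1 := Ord.lt o.1
  have o2 := Ord.lt o.2
  constructor
  · intro hm
    have := key_out π _ h hm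
    exact ⟨by omega, key_path π _ h o1 o2 hm⟩
  · rintro ⟨h0, h1, h2⟩
    rcases path_key π _ h o1 o2 hy h1 h2 with hm | hm
    · exact hm
    · exfalso
      have m := Ord.mem o hm
      have b := plug_in (y := y) π _ h m.1 m.2
      rw [b.1] at h1
      rw [b.2] at h2
      simp only [BT.keys, List.mem_append, List.mem_cons] at hm
      rcases hm with hm | hm | hm
      · have e := (Ord.mem o.1 hm).2
        simp only [hi, e, if_true] at h2
        have := hi_le y o.1
        omega
      · exact h0 hm
      · have e := (Ord.mem o.2 hm).1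
        have e' : ¬ y < x := by omega
        simp only [lo, e, e', if_true, if_false] at h1
        have := le_lo y o.2
        omega

end Pool.Agent.P.MP_119182_lc
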